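import Pool.Agent.H.MP_830e61_lc.VS.Sat

/-!
The bound and the decidability statements.
-/

namespace Pool.Agent.H.MP_830e61_lc.VS

open Pool.Agent.H.MP_830e61_lc

/-- number of classes: `2 ^ n * b * 2 n + 1` with `b = bound n` -/
def dcl (n : ℕ) : ℕ := 2 ^ n * (bound n * (2 * n)) + 1

/-- the explicit bound: `bound n * (d ^ d) ^ 2` with `d = dcl n` -/
def bnd (n : ℕ) : ℕ := bound n * (dcl n ^ dcl n) ^ 2

/-- the bounded embedding property for the variety `V` -/
def Emb (V : List Idty) : Prop :=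
  ∀ (S : Type) [Semigroup S] [Finite S] (T : Type) [Semigroup T],
    Regular T → IdemClosed T → Sat V T → ∀ φ : S →ₙ* T, Function.Injective φ →
      ∃ (T' : Type) (_ : Semigroup T'), Finite T' ∧ Nat.card T' ≤ bnd (Nat.card S) ∧
        Regular T' ∧ IdemClosed T' ∧ Sat V T' ∧ ∃ ψ : S →ₙ* T', Function.Injective ψ

end Pool.Agent.H.MP_830e61_lc.VS
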