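import Pool.Agent.H.MP_830e61_lc.Reg

/-!
The least inverse semigroup congruence of an orthodox semigroup.
-/

namespace Pool.Agent.H.MP_830e61_lc.VS

open Pool.Agent.H.MP_830e61_lc

universe u

/-- `x` is an inverse of `a`. -/
def IsInv {T : Type*} [Semigroup T] (a x : T) : Prop := a * x * a = a ∧ x * a * x = x

section

variable {T : Type*} [Semigroup T]

theorem IsInv.symm {a x : T} (h : IsInv a x) : IsInv x a := ⟨h.2, h.1⟩

theorem IsInv.left {a x : T} (h : IsInv a x) : (a * x) * (a * x) = a * x := by
  rw [← mul_assoc, h.1]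

theorem IsInv.right {a x : T} (h : IsInv a x) : (x * a) * (x * a) = x * a := by
  rw [← mul_assoc, h.2]

theorem isInv_idem {e : T} (he : e * e = e) : IsInv e e := ⟨by rw [he, he], by rw [he, he]⟩

theorem exists_inv (h : Regular T) (a : T) : ∃ x, IsInv a x := by
  obtain ⟨x, hx⟩ := h a
  refine ⟨x * a * x, ?_, ?_⟩
  · calc a * (x * a * x) * a = (a * x * a) * x * a := by simp only [mul_assoc]
      _ = a := by rw [hx, hx]
  · calc (x * a * x) * a * (x * a * x) = x * ((a * x * a) * x * a) * x := by
          simp only [mul_assoc]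
      _ = x * a * x := by rw [hx, hx]

theorem inv_mul (hc : IdemClosed T) {a b x y : T} (h1 : IsInv a x) (h2 : IsInv b y) :
    IsInv (a * b) (y * x) := by
  have e1 : (x * a) * (x * a) = x * a := h1.right
  have e2 : (b * y) * (b * y) = b * y := h2.left
  have e3 := hc _ _ e1 e2
  have e4 := hc _ _ e2 e1
  constructor
  · calc a * b * (y * x) * (a * b) = a * (b * y) * (x * a) * b := by simp only [mul_assoc]
      _ = (a * x * a) * (b * y) * (x * a) * (b * y * b) := by rw [h1.1, h2.1]
      _ = a * ((x * a) * (b * y) * ((x * a) * (b * y))) * b := by simp only [mul_assoc]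
      _ = a * ((x * a) * (b * y)) * b := by rw [e3]
      _ = (a * x * a) * (b * y * b) := by simp only [mul_assoc]
      _ = a * b := by rw [h1.1, h2.1]
  · calc y * x * (a * b) * (y * x) = y * (x * a) * (b * y) * x := by simp only [mul_assoc]
      _ = (y * b * y) * (x * a) * (b * y) * (x * a * x) := by rw [h1.2, h2.2]
      _ = y * ((b * y) * (x * a) * ((b * y) * (x * a))) * x := by simp only [mul_assoc]
      _ = y * ((b * y) * (x * a)) * x := by rw [e4]
      _ = (y * b * y) * (x * a * x) := by simp only [mul_assoc]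
      _ = y * x := by rw [h1.2, h2.2]

/-- if `e R g L h` for idempotents then `e h e = e` -/
theorem rl_conn (hc : IdemClosed T) {e g h : T} (he : e * e = e) (hh : h * h = h)
    (h1 : e * g = g) (h2 : g * e = e) (h3 : g * h = g) : e * h * e = e := by
  have hm := hc _ _ hh he
  have e1 : e = g * (h * e) := by rw [← mul_assoc, h3, h2]
  calc e * h * e = (g * (h * e)) * (h * e) := by rw [← e1, mul_assoc]
    _ = g * ((h * e) * (h * e)) := by rw [mul_assoc]
    _ = e := by rw [hm, ← e1]

theorem lr_conn (hc : IdemClosed T) {e g h : T} (he : e * e = e) (hh : h * h = h)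
    (h1 : g * e = g) (h2 : e * g = e) (h3 : h * g = g) : e * h * e = e := by
  have hm := hc _ _ he hh
  have e1 : e = (e * h) * g := by rw [mul_assoc, h3, h2]
  calc e * h * e = (e * h) * ((e * h) * g) := by rw [← e1]
    _ = ((e * h) * (e * h)) * g := by rw [mul_assoc (e * h) (e * h) g]
    _ = e := by rw [hm, ← e1]

theorem inv_of_common (hc : IdemClosed T) {a b x y : T} (ha : IsInv a x) (hb : IsInv b x)
    (hy : IsInv a y) : IsInv b y := by
  have eg : (x * b) * (x * a) = x * a := by
    rw [show (x * b) * (x * a) = (x * b * x) * a by simp only [mul_assoc], hb.2]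
  have ge : (x * a) * (x * b) = x * b := by
    rw [show (x * a) * (x * b) = (x * a * x) * b by simp only [mul_assoc], ha.2]
  have gh : (x * a) * (y * a) = x * a := by
    rw [show (x * a) * (y * a) = x * (a * y * a) by simp only [mul_assoc], hy.1]
  have hg : (y * a) * (x * a) = y * a := by
    rw [show (y * a) * (x * a) = y * (a * x * a) by simp only [mul_assoc], ha.1]
  have lf : (a * x) * (b * x) = a * x := by
    rw [show (a * x) * (b * x) = a * (x * b * x) by simp only [mul_assoc], hb.2]
  have kl : (a * y) * (a * x) = a * x := by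
    rw [show (a * y) * (a * x) = (a * y * a) * x by simp only [mul_assoc], hy.1]
  have lk : (a * x) * (a * y) = a * y := by
    rw [show (a * x) * (a * y) = (a * x * a) * y by simp only [mul_assoc], ha.1]
  have ehe : (x * b) * (y * a) * (x * b) = x * b := rl_conn hc hb.right hy.right eg ge gh
  have heh : (y * a) * (x * b) * (y * a) = y * a := lr_conn hc hy.right hb.right gh hg eg
  have kfk : (a * y) * (b * x) * (a * y) = a * y := rl_conn hc hy.left hb.left kl lk lf
  have hj : y * (b * x) * a = y * a := by
    calc y * (b * x) * a = (y * a * y) * (b * x) * (a * y * a) := by rw [hy.1, hy.2]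
      _ = y * ((a * y) * (b * x) * (a * y)) * a := by simp only [mul_assoc]
      _ = (y * a * y) * a := by rw [kfk]; simp only [mul_assoc]
      _ = y * a := by rw [hy.2]
  have hb2 : b = (b * x) * a * (x * b) := by
    calc b = b * x * b := hb.1.symm
      _ = b * (x * a * x) * b := by rw [ha.2]
      _ = (b * x) * a * (x * b) := by simp only [mul_assoc]
  constructor
  · calc b * y * b = ((b * x) * a * (x * b)) * y * ((b * x) * a * (x * b)) := by rw [← hb2]
      _ = (b * x) * a * ((x * b) * (y * (b * x) * a) * (x * b)) := by simp only [mul_assoc]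
      _ = (b * x) * a * (x * b) := by rw [hj, ehe]
      _ = b := hb2.symm
  · calc y * b * y = y * ((b * x) * a * (x * b)) * (y * a * y) := by rw [← hb2, hy.2]
      _ = (y * (b * x) * a) * (x * b) * (y * a) * y := by simp only [mul_assoc]
      _ = y * a * y := by rw [hj, heh]
      _ = y := hy.2

/-- the least inverse semigroup congruence -/
def conG (h : Regular T) (hc : IdemClosed T) : Con T where
  r a b := ∃ x, IsInv a x ∧ IsInv b x
  iseqv :=
    { refl := fun a => by
        obtain ⟨x, hx⟩ := exists_inv h a
        exact ⟨x, hx, hx⟩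
      symm := fun ⟨x, h1, h2⟩ => ⟨x, h2, h1⟩
      trans := fun ⟨x, h1, h2⟩ ⟨y, h3, h4⟩ => ⟨y, inv_of_common hc h2 h1 h3, h4⟩ }
  mul' := fun ⟨x, h1, h2⟩ ⟨y, h3, h4⟩ => ⟨y * x, inv_mul hc h1 h3, inv_mul hc h2 h4⟩

theorem inv_idem_idem (hc : IdemClosed T) {e t : T} (he : e * e = e) (h : IsInv t e) :
    t * t = t := by
  have h1 : t = (t * e) * (e * t) := by
    calc t = t * e * t := h.1.symm
      _ = t * (e * e) * t := by rw [he]
      _ = (t * e) * (e * t) := by simp only [mul_assoc]
  have h2 := hc _ _ h.left h.right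
  rw [← h1] at h2
  exact h2

/-- `H ∩ γ` is trivial -/
theorem eq_of_H {a b x : T} (ha : IsInv a x) (hb : IsInv b x) (h1 : a = b ∨ ∃ k, a = k * b)
    (h2 : a = b ∨ ∃ k, b = a * k) : a = b := by
  rcases h1 with h1 | ⟨k, hk⟩
  · exact h1
  rcases h2 with h2 | ⟨m, hm⟩
  · exact h2
  calc a = a * x * b := by
        calc a = k * b := hk
          _ = k * (b * x * b) := by rw [hb.1]
          _ = k * b * x * b := by simp only [mul_assoc]
          _ = a * x * b := by rw [← hk]
    _ = b := by
        calc a * x * b = a * x * (a * m) := by rw [← hm]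
          _ = a * x * a * m := by rw [mul_assoc (a * x) a m]
          _ = b := by rw [ha.1, ← hm]

end

/-- the quotient -/
theorem gam_quot {T : Type u} [Semigroup T] (h : Regular T) (hc : IdemClosed T) :
    ∃ (J : Type u) (_ : Semigroup J) (π : T →ₙ* J), Function.Surjective π ∧ Regular J ∧
      (∀ e f : J, e * e = e → f * f = f → e * f = f * e) ∧
      (∀ a b : T, π a = π b ↔ ∃ x, IsInv a x ∧ IsInv b x) ∧
      ∀ t : T, π t * π t = π t → t * t = t := by
  let c := conG h hc
  let π : T →ₙ* c.Quotient := ⟨fun a => (a : c.Quotient), fun a b => rfl⟩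
  have hπ : Function.Surjective π := by
    intro q
    induction q using Con.induction_on with
    | _ a => exact ⟨a, rfl⟩
  have hker : ∀ a b, π a = π b ↔ ∃ x, IsInv a x ∧ IsInv b x := fun a b => Con.eq c
  refine ⟨c.Quotient, inferInstance, π, hπ, map_regular π hπ h, ?_, hker, ?_⟩
  · intro a b ha hb
    obtain ⟨e, he, rfl⟩ := lift_idem π hπ h ha
    obtain ⟨f, hf, rfl⟩ := lift_idem π hπ h hb
    rw [← map_mul, ← map_mul, hker]
    have h1 := hc _ _ he hf
    have h2 := hc _ _ hf he
    refine ⟨f * e, ⟨?_, ?_⟩, isInv_idem h2⟩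
    · calc e * f * (f * e) * (e * f) = e * (f * f) * (e * e) * f := by simp only [mul_assoc]
        _ = (e * f) * (e * f) := by rw [he, hf]; simp only [mul_assoc]
        _ = e * f := h1
    · calc f * e * (e * f) * (f * e) = f * (e * e) * (f * f) * e := by simp only [mul_assoc]
        _ = (f * e) * (f * e) := by rw [he, hf]; simp only [mul_assoc]
        _ = f * e := h2
  · intro t ht
    obtain ⟨e, he, het⟩ := lift_idem π hπ h ht
    obtain ⟨x, hx1, hx2⟩ := (hker e t).1 het
    exact inv_idem_idem hc he (inv_of_common hc hx1 hx2 (isInv_idem he))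

/-- in a regular semigroup with commuting idempotents inverses are unique -/
theorem inv_unique {J : Type*} [Semigroup J]
    (hcm : ∀ e f : J, e * e = e → f * f = f → e * f = f * e) {a x y : J} (hx : IsInv a x)
    (hy : IsInv a y) : x = y := by
  calc x = x * a * x := hx.2.symm
    _ = x * (a * y * a) * x := by rw [hy.1]
    _ = x * ((a * y) * (a * x)) := by simp only [mul_assoc]
    _ = x * ((a * x) * (a * y)) := by rw [hcm _ _ hy.left hx.left]
    _ = (x * a * x) * (a * y) := by simp only [mul_assoc]
    _ = x * a * y := by rw [hx.2]; simp only [mul_assoc]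
    _ = x * a * (y * a * y) := by rw [hy.2]
    _ = ((x * a) * (y * a)) * y := by simp only [mul_assoc]
    _ = ((y * a) * (x * a)) * y := by rw [hcm _ _ hx.right hy.right]
    _ = y * (a * x * a) * y := by simp only [mul_assoc]
    _ = y := by rw [hx.1, hy.2]

theorem comm_closed {J : Type*} [Semigroup J]
    (hcm : ∀ e f : J, e * e = e → f * f = f → e * f = f * e) : IdemClosed J := by
  intro e f he hf
  calc (e * f) * (e * f) = e * (f * e) * f := by simp only [mul_assoc]
    _ = e * (e * f) * f := by rw [hcm f e hf he]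
    _ = (e * e) * (f * f) := by simp only [mul_assoc]
    _ = e * f := by rw [he, hf]

theorem comm_RR {J : Type*} [Semigroup J]
    (hcm : ∀ e f : J, e * e = e → f * f = f → e * f = f * e) : IdemRR J := by
  intro e f he hf
  calc e * f * e = (f * e) * e := by rw [hcm e f he hf]
    _ = f * e := by rw [mul_assoc, he]

end Pool.Agent.H.MP_830e61_lc.VS
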