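import Pool.Agent.H.MP_830e61_lc.VS.Words

/-!
Identities whose two sides have different letters.
-/

namespace Pool.Agent.H.MP_830e61_lc.VS

open Pool.Agent.H.MP_830e61_lc

/-
PROOF of `rect_of`: a pair (u, v) and i in letters u, not in letters v (or the other way round): substitute
i := e and all other variables := f: value(v) = f, value(u) = word in e, f containing e; multiply:
f = word containing e ... so f e f = f: f = w1 e w2 with w1, w2 words in e, f or empty; then
f e f = f (write f = f w1 e w2 f; use idempotency of products as in (*); `hc` is available).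
-/

private theorem rectQ_fold {T : Type*} [Semigroup T] (hc : IdemClosed T) {e f : T} (he : e * e = e)
    (hf : f * f = f) (x : ℕ → T) (hx : ∀ j, x j = e ∨ x j = f) (l : List ℕ) :
    ∀ t : T, (e * t = e * f ∨ e * t = e * f * e) →
      (e * l.foldl (fun t j => t * x j) t = e * f ∨ e * l.foldl (fun t j => t * x j) t = e * f * e) := by
  induction l with
  | nil => intro t ht; exact ht
  | cons a l ih =>
    intro t ht
    rw [List.foldl_cons]
    apply ih
    have hef : (e * f) * (e * f) = e * f := hc e f he hf
    rcases hx a with ha | ha <;> rcases ht with ht | ht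
    · right; rw [ha, ← mul_assoc, ht]
    · right; rw [ha, ← mul_assoc, ht, mul_assoc (e * f) e e, he]
    · left; rw [ha, ← mul_assoc, ht, mul_assoc e f f, hf]
    · left; rw [ha, ← mul_assoc, ht, mul_assoc (e * f) e f, hef]

private theorem rectQ_mem {T : Type*} [Semigroup T] (hc : IdemClosed T) {e f : T} (he : e * e = e)
    (hf : f * f = f) (x : ℕ → T) (hx : ∀ j, x j = e ∨ x j = f) (l : List ℕ) :
    (∃ i ∈ l, x i = f) →
      (e * l.foldl (fun t j => t * x j) e = e * f ∨ e * l.foldl (fun t j => t * x j) e = e * f * e) := by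
  induction l with
  | nil => rintro ⟨i, hi, _⟩; simp at hi
  | cons a l ih =>
    rintro ⟨i, hi, hif⟩
    rw [List.foldl_cons]
    by_cases haf : x a = f
    · apply rectQ_fold hc he hf x hx l
      left
      rw [haf, ← mul_assoc, he]
    · have hae : x a = e := (hx a).resolve_right haf
      have hil : i ∈ l := by
        rcases List.mem_cons.mp hi with h | h
        · subst h; exact absurd hif haf
        · exact h
      rw [hae, he]
      exact ih ⟨i, hil, hif⟩

private theorem rect_const {T : Type*} [Semigroup T] {e : T} (he : e * e = e) (x : ℕ → T) (l : List ℕ) :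
    (∀ j ∈ l, x j = e) → l.foldl (fun t j => t * x j) e = e := by
  induction l with
  | nil => intro _; rfl
  | cons a l ih =>
    intro h
    rw [List.foldl_cons, h a List.mem_cons_self, he]
    exact ih fun j hj => h j (List.mem_cons_of_mem _ hj)

private theorem rect_val {T : Type*} [Semigroup T] (x : ℕ → T) (w : FreeSemigroup ℕ) :
    FreeSemigroup.lift x w = w.tail.foldl (fun t j => t * x j) (x w.head) := rfl

private theorem rect_pair {T : Type*} [Semigroup T] (hc : IdemClosed T) {e f : T} (he : e * e = e)
    (hf : f * f = f) (u v : FreeSemigroup ℕ) (i : ℕ) (hu : i ∈ letters u) (hv : i ∉ letters v)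
    (h : ∀ x : ℕ → T, (∀ i, x i * x i = x i) → FreeSemigroup.lift x u = FreeSemigroup.lift x v) :
    e * f * e = e := by
  classical
  let x : ℕ → T := fun j => if j = i then f else e
  have hxi : x i = f := if_pos rfl
  have hxne : ∀ j, j ≠ i → x j = e := fun j hj => if_neg hj
  have hx : ∀ j, x j = e ∨ x j = f := by
    intro j
    by_cases hj : j = i
    · right; rw [hj, hxi]
    · left; exact hxne j hj
  have hidem : ∀ j, x j * x j = x j := by
    intro j
    rcases hx j with hj | hj <;> rw [hj]
    · exact he
    · exact hf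
  have h1 := h x hidem
  have hvv : FreeSemigroup.lift x v = e := by
    rw [rect_val]
    have h2 : x v.head = e := hxne _ fun hh => hv (by rw [← hh]; exact List.mem_cons_self)
    rw [h2]
    exact rect_const he x v.tail fun j hj => hxne j fun hh => hv (by rw [← hh]; exact List.mem_cons_of_mem _ hj)
  have huu : e * FreeSemigroup.lift x u = e * f ∨ e * FreeSemigroup.lift x u = e * f * e := by
    rw [rect_val]
    by_cases hh : u.head = i
    · rw [hh, hxi]
      exact rectQ_fold hc he hf x hx u.tail f (Or.inl rfl)
    · rw [hxne _ hh]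
      apply rectQ_mem hc he hf x hx u.tail
      refine ⟨i, ?_, hxi⟩
      rcases List.mem_cons.mp hu with h3 | h3
      · exact absurd h3.symm hh
      · exact h3
  rw [h1, hvv, he] at huu
  rcases huu with h2 | h2
  · rw [← h2, he]
  · exact h2.symm

/-- an identity with different letters makes the band of idempotents rectangular -/
theorem rect_of {V : List Idty} (hV : ¬ SameCont V) {T : Type*} [Semigroup T]
    (hc : IdemClosed T) (h : Sat V T) {e f : T} (he : e * e = e) (hf : f * f = f) : e * f * e = e := by
  unfold SameCont at hV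
  push Not at hV
  obtain ⟨p, hp, i, hi⟩ := hV
  rcases hi with ⟨h1, h2⟩ | ⟨h1, h2⟩
  · exact rect_pair hc he hf p.1 p.2 i h1 h2 (h p hp)
  · exact rect_pair hc he hf p.2 p.1 i h2 h1 fun x hx => (h p hp x hx).symm

/-
PROOF of `rect_regular`: for s in S some power s^k (k ≥ 1) is idempotent (finite semigroup:
Mathlib `Semigroup.exists_idempotent...` for finite semigroups or pigeonhole on powers); let
e = φ s ^ k, s' an inverse of φ s in T (`exists_inv`).  e = φ s * (..) so (φ s s') e = e, hence
φ s s' = (φ s s') e (φ s s') = e (φ s s') and φ s = φ s s' φ s = e φ s = φ s ^ (k+1).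
So s = s^(k+1) in S (injectivity) and s is regular in S: s * s^(k-1) * s (k ≥ 2), or s idempotent.
-/

/-- the powers of an element -/
private def rpw {S : Type*} [Semigroup S] (s : S) : ℕ → S
  | 0 => s
  | k + 1 => rpw s k * s

private theorem rpw_mul {S : Type*} [Semigroup S] (s : S) (i : ℕ) : ∀ j, rpw s i * rpw s j = rpw s (i + j + 1)
  | 0 => rfl
  | j + 1 => by
    show rpw s i * (rpw s j * s) = rpw s (i + j + 1) * s
    rw [← mul_assoc, rpw_mul s i j]

private theorem rpw_idem {S : Type*} [Semigroup S] [Finite S] (s : S) : ∃ k, rpw s k * rpw s k = rpw s k := by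
  obtain ⟨i, j, hij, he⟩ : ∃ i j, i < j ∧ rpw s i = rpw s j := by
    obtain ⟨a, b, hab, he⟩ := Finite.exists_ne_map_eq_of_infinite (rpw s)
    rcases lt_or_gt_of_ne hab with h | h
    · exact ⟨a, b, h, he⟩
    · exact ⟨b, a, h, he.symm⟩
  obtain ⟨d, rfl⟩ : ∃ d, j = i + (d + 1) := ⟨j - i - 1, by omega⟩
  have h1 : ∀ r, rpw s (i + r) = rpw s (i + r + (d + 1)) := by
    intro r
    induction r with
    | zero => exact he
    | succ r ih =>
      have h2 : rpw s (i + r) * s = rpw s (i + r + (d + 1)) * s := by rw [← ih]
      have e2 : i + (r + 1) + (d + 1) = (i + r + (d + 1)) + 1 := by omega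
      rw [e2]
      exact h2
  have h3 : ∀ t k, i ≤ k → rpw s k = rpw s (k + t * (d + 1)) := by
    intro t
    induction t with
    | zero => intro k _; rw [Nat.zero_mul, Nat.add_zero]
    | succ t ih =>
      intro k hk
      rw [ih k hk]
      obtain ⟨r, hr⟩ : ∃ r, k + t * (d + 1) = i + r := ⟨k + t * (d + 1) - i, by omega⟩
      have h4 := h1 r
      rw [← hr] at h4
      rw [h4]
      congr 1
      rw [Nat.succ_mul]
      omega
  refine ⟨(i + 1) * (d + 1) - 1, ?_⟩
  have h5 : 1 ≤ (i + 1) * (d + 1) := Nat.mul_pos (Nat.succ_pos i) (Nat.succ_pos d)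
  have h6 : i + 1 ≤ (i + 1) * (d + 1) := Nat.le_mul_of_pos_right _ (Nat.succ_pos d)
  rw [rpw_mul]
  have h7 := h3 (i + 1) ((i + 1) * (d + 1) - 1) (by omega)
  rw [h7]
  congr 1

/-- finite subsemigroups of regular semigroups with rectangular band of idempotents are regular -/
theorem rect_regular {T : Type*} [Semigroup T] (hreg : Regular T)
    (hr : ∀ e f : T, e * e = e → f * f = f → e * f * e = e) {S : Type*} [Semigroup S] [Finite S]
    (φ : S →ₙ* T) (hφ : Function.Injective φ) : Regular S := by
  intro s
  obtain ⟨k, hk⟩ := rpw_idem s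
  obtain ⟨y, hy⟩ := hreg (φ s)
  have hg1 : (φ s * y) * (φ s * y) = φ s * y := by
    rw [← mul_assoc, hy]
  have hgk : ∀ j, (φ s * y) * φ (rpw s j) = φ (rpw s j) := by
    intro j
    induction j with
    | zero => exact hy
    | succ j ih =>
      show (φ s * y) * φ (rpw s j * s) = φ (rpw s j * s)
      rw [map_mul, ← mul_assoc, ih]
  have he : φ (rpw s k) * φ (rpw s k) = φ (rpw s k) := by rw [← map_mul, hk]
  have h1 := hr (φ s * y) (φ (rpw s k)) hg1 he
  rw [hgk k] at h1
  have h2 : φ (rpw s k * s) = φ s := by
    rw [map_mul]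
    calc φ (rpw s k) * φ s = φ (rpw s k) * (φ s * y * φ s) := by rw [hy]
      _ = φ (rpw s k) * (φ s * y) * φ s := by rw [← mul_assoc]
      _ = φ s := by rw [h1, hy]
  have h3 : rpw s k * s = s := hφ h2
  rcases k with _ | k
  · refine ⟨s, ?_⟩
    have h4 : s * s = s := h3
    rw [h4, h4]
  · refine ⟨rpw s k, ?_⟩
    have h4 : s * rpw s k = rpw s (k + 1) := by
      have := rpw_mul s 0 k
      rw [Nat.zero_add] at this
      exact this
    rw [h4]
    exact h3

end Pool.Agent.H.MP_830e61_lc.VS
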