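import Pool.Agent.H.MP_830e61_lc.VS.Frm
import Pool.Agent.H.MP_830e61_lc.VS.Rect

/-!
Birkhoff operators applied to `R_V`.
-/

namespace Pool.Agent.H.MP_830e61_lc.VS

open Pool.Agent.H.MP_830e61_lc

private theorem RVs_map (V : List Idty) {T U : Type} [Semigroup T] [Semigroup U] (f : T →ₙ* U)
    (hf : Function.Surjective f) (h : RVs V T inferInstance) : RVs V U inferInstance := by
  obtain ⟨h1, ⟨t⟩, h3, h4, h5⟩ := h
  exact ⟨Finite.of_surjective f hf, ⟨f t⟩, map_regular f hf h3, map_closed f hf h3 h4,
    sat_surj f hf h3 h5⟩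

private theorem RVs_pi (V : List Idty) {k : ℕ} (U : Fin k → Type) (i : ∀ j, Semigroup (U j))
    (h : ∀ j, RVs V (U j) (i j)) : RVs V (∀ j, U j) inferInstance := by
  have h1 : ∀ j, Finite (U j) := fun j => (h j).1
  have h2 : ∀ j, Nonempty (U j) := fun j => (h j).2.1
  refine ⟨inferInstance, inferInstance, ?_, ?_, ?_⟩
  · intro a
    choose x hx using fun j => (h j).2.2.1 (a j)
    exact ⟨x, funext hx⟩
  · intro e f he hf
    funext j
    exact (h j).2.2.2.1 _ _ (congrFun he j) (congrFun hf j)
  · exact sat_pi fun j => (h j).2.2.2.2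

private theorem opH_RVs (V : List Idty) : opH (RVs V) = RVs V := by
  funext T i
  apply propext
  constructor
  · rintro ⟨U, j, hU, f, hf⟩
    exact RVs_map V f hf hU
  · intro h
    exact ⟨T, i, h, MulHom.id T, fun x => ⟨x, rfl⟩⟩

private theorem opP_RVs (V : List Idty) : opP (RVs V) = RVs V := by
  funext T i
  apply propext
  constructor
  · rintro ⟨k, U, j, hU, f, hf⟩
    obtain ⟨g, hg⟩ := bij_inv f hf
    exact RVs_map V g hg.2 (RVs_pi V U j hU)
  · intro h
    exact opP_of _ h

private theorem opS_Ss (V : List Idty) : opS (opS (RVs V)) = opS (RVs V) := by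
  funext T i
  apply propext
  constructor
  · rintro ⟨h0, U, j, ⟨-, W, k, hW, g, hg⟩, f, hf⟩
    exact ⟨h0, W, k, hW, g.comp f, hg.comp hf⟩
  · rintro ⟨h0, h⟩
    exact ⟨h0, T, i, ⟨h0, h⟩, MulHom.id T, fun _ _ h => h⟩

private theorem opP_Ss (V : List Idty) : opP (opS (RVs V)) = opS (RVs V) := by
  funext T i
  apply propext
  constructor
  · rintro ⟨k, U, j, hU, f, hf⟩
    choose hne W iW hW g hg using hU
    obtain ⟨f', hf'⟩ := bij_inv f hf
    refine ⟨⟨f' fun j => (hne j).some⟩, ∀ j, W j, inferInstance, RVs_pi V W iW hW,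
      ⟨fun t j => g j (f t j), ?_⟩, ?_⟩
    · intro a b
      funext j
      show g j (f (a * b) j) = g j (f a j) * g j (f b j)
      rw [map_mul f, Pi.mul_apply, map_mul (g j)]
    · intro a b h
      apply hf.1
      funext j
      exact hg j (congrFun h j)
  · intro h
    exact opP_of _ h

private theorem birkhoff_noSs (V : List Idty) (K : List Op) (hK : Op.S ∉ K) :
    birkhoff K (RVs V) = RVs V := by
  induction K with
  | nil => rfl
  | cons O K ih =>
    have h1 := ih fun h => hK (List.mem_cons_of_mem _ h)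
    show O.app (birkhoff K (RVs V)) = RVs V
    rw [h1]
    cases O with
    | H => exact opH_RVs V
    | S => exact absurd List.mem_cons_self hK
    | P => exact opP_RVs V

private theorem birkhoff_Ss (V : List Idty) (K : List Op) (hS : Op.S ∈ K)
    (hK : ∀ A B, K = A ++ Op.H :: B → Op.S ∉ B) : birkhoff K (RVs V) = opS (RVs V) := by
  induction K with
  | nil => exact absurd hS List.not_mem_nil
  | cons O K ih =>
    have hK' : ∀ A B, K = A ++ Op.H :: B → Op.S ∉ B := fun A B h => hK (O :: A) B (by rw [h]; rfl)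
    show O.app (birkhoff K (RVs V)) = opS (RVs V)
    by_cases hSK : Op.S ∈ K
    · rw [ih hSK hK']
      cases O with
      | H => exact absurd hSK (hK [] K rfl)
      | S => exact opS_Ss V
      | P => exact opP_Ss V
    · rw [birkhoff_noSs V K hSK]
      have hO : O = Op.S := by
        rcases List.mem_cons.1 hS with h | h
        · exact h.symm
        · exact absurd h hSK
      subst hO
      rfl

/-- all Birkhoff operators in which no `H` is applied after an `S` -/
theorem main (V : List Idty) (hV : Emb V) (K : List Op)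
    (hK : ∀ A B, K = A ++ Op.H :: B → Op.S ∉ B) : Recursive (birkhoff K (RVs V)) := by
  by_cases hS : Op.S ∈ K
  · rw [birkhoff_Ss V K hS hK]; exact rec_S V hV
  · rw [birkhoff_noSs V K hS]; exact rec_R V

/-! ### operators with `H` after `S` -/

private theorem opH_HS (V : List Idty) : opH (opH (opS (RVs V))) = opH (opS (RVs V)) := by
  funext T i
  apply propext
  constructor
  · rintro ⟨U, j, ⟨W, k, hW, g, hg⟩, f, hf⟩
    exact ⟨W, k, hW, f.comp g, hf.comp hg⟩
  · intro h
    exact ⟨T, i, h, MulHom.id T, fun x => ⟨x, rfl⟩⟩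

private theorem opS_HS (V : List Idty) : opS (opH (opS (RVs V))) = opH (opS (RVs V)) := by
  funext T i
  apply propext
  constructor
  · rintro ⟨⟨t0⟩, U, j, ⟨W, k, ⟨hne, Z, l, hZ, e, he⟩, g, hg⟩, f, hf⟩
    let N : Subsemigroup W :=
      { carrier := {w | ∃ t, f t = g w}
        mul_mem' := by
          rintro a b ⟨s, hs⟩ ⟨t, ht⟩
          exact ⟨s * t, by rw [map_mul, map_mul, hs, ht]⟩ }
    have hch : ∀ w : N, ∃ t, f t = g w.1 := fun w => w.2
    choose c hc using hch
    refine ⟨N, inferInstance, ⟨?_, Z, l, hZ, e.comp (MulMemClass.subtype N), ?_⟩,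
      ⟨c, fun a b => hf ?_⟩, ?_⟩
    · obtain ⟨w, hw⟩ := hg (f t0)
      exact ⟨⟨w, t0, hw.symm⟩⟩
    · exact he.comp Subtype.val_injective
    · rw [map_mul, hc, hc, hc, ← map_mul]
      rfl
    · intro t
      obtain ⟨w, hw⟩ := hg (f t)
      refine ⟨⟨w, t, hw.symm⟩, hf ?_⟩
      show f (c ⟨w, t, hw.symm⟩) = f t
      rw [hc, hw]
  · intro h
    have hne : Nonempty T := by
      obtain ⟨W, k, ⟨⟨w⟩, -⟩, g, -⟩ := h
      exact ⟨g w⟩
    exact ⟨hne, T, i, h, MulHom.id T, fun _ _ h => h⟩

private theorem opP_HS (V : List Idty) : opP (opH (opS (RVs V))) = opH (opS (RVs V)) := by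
  funext T i
  apply propext
  constructor
  · rintro ⟨k, U, j, hU, f, hf⟩
    choose W iW hW g hg using hU
    choose hne Z iZ hZ e he using hW
    obtain ⟨f', hf'⟩ := bij_inv f hf
    refine ⟨∀ j, W j, inferInstance, ⟨⟨fun j => (hne j).some⟩, ∀ j, Z j, inferInstance,
      RVs_pi V Z iZ hZ, ⟨fun w j => e j (w j), ?_⟩, ?_⟩,
      ⟨fun w => f' fun j => g j (w j), ?_⟩, ?_⟩
    · intro a b
      funext j
      show e j ((a * b) j) = e j (a j) * e j (b j)
      rw [Pi.mul_apply, map_mul (e j)]
    · intro a b h
      funext j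
      exact he j (congrFun h j)
    · intro a b
      rw [← map_mul]
      congr 1
      funext j
      show g j ((a * b) j) = g j (a j) * g j (b j)
      rw [Pi.mul_apply, map_mul (g j)]
    · intro t
      obtain ⟨u, hu⟩ := hf'.2 t
      choose w hw using fun j => hg j (u j)
      refine ⟨w, ?_⟩
      show f' (fun j => g j (w j)) = t
      rw [← hu]
      congr 1
      funext j
      exact hw j
  · intro h
    exact opP_of _ h

/-- all remaining Birkhoff operators give `HS` -/
theorem birkhoff_HS (V : List Idty) (K : List Op)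
    (hK : ∃ A B, K = A ++ Op.H :: B ∧ Op.S ∈ B) : birkhoff K (RVs V) = opH (opS (RVs V)) := by
  induction K with
  | nil =>
    obtain ⟨A, B, h, -⟩ := hK
    exact absurd h.symm (by simp)
  | cons O K ih =>
    show O.app (birkhoff K (RVs V)) = opH (opS (RVs V))
    by_cases hK' : ∃ A B, K = A ++ Op.H :: B ∧ Op.S ∈ B
    · rw [ih hK']
      cases O with
      | H => exact opH_HS V
      | S => exact opS_HS V
      | P => exact opP_HS V
    · push Not at hK'
      obtain ⟨A, B, h1, h2⟩ := hK
      cases A with
      | nil =>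
        rw [List.nil_append, List.cons.injEq] at h1
        obtain ⟨h3, h4⟩ := h1
        subst h3 h4
        rw [birkhoff_Ss V K h2 hK']
        rfl
      | cons O' A =>
        rw [List.cons_append, List.cons.injEq] at h1
        exact absurd h2 (hK' A B h1.2)

/-- `R_V` is completely solvable if and only if `HS(R_V)` is recursive -/
theorem main_iff (V : List Idty) (hV : Emb V) :
    (∀ K : List Op, Recursive (birkhoff K (RVs V))) ↔ Recursive (opH (opS (RVs V))) := by
  constructor
  · intro h
    exact h [Op.H, Op.S]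
  · intro h K
    by_cases hK : ∃ A B, K = A ++ Op.H :: B ∧ Op.S ∈ B
    · rw [birkhoff_HS V K hK]; exact h
    · push Not at hK
      exact main V hV K hK

/-- if `V` does not contain all semilattices then `R_V` is closed under subsemigroups -/
theorem opS_rect (V : List Idty) (h : ¬ SameCont V) : opS (RVs V) = RVs V := by
  funext T i
  apply propext
  constructor
  · rintro ⟨hne, U, j, ⟨hfin, -, hr, hc, hs⟩, f, hf⟩
    have hT : Finite T := Finite.of_injective f hf
    refine ⟨hT, hne, rect_regular hr (fun e g he hg => rect_of h hc hs he hg) f hf, ?_,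
      sat_inj f hf hs⟩
    intro e g he hg
    apply hf
    rw [map_mul, map_mul]
    exact hc _ _ (by rw [← map_mul, he]) (by rw [← map_mul, hg])
  · intro hT
    exact ⟨hT.2.1, T, i, hT, MulHom.id T, fun _ _ h => h⟩

/-- if `V` does not contain all semilattices then `R_V` is completely solvable -/
theorem main_rect (V : List Idty) (h : ¬ SameCont V) (K : List Op) :
    Recursive (birkhoff K (RVs V)) := by
  have key : birkhoff K (RVs V) = RVs V := by
    induction K with
    | nil => rfl
    | cons O K ih =>
      show O.app (birkhoff K (RVs V)) = RVs V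
      rw [ih]
      cases O with
      | H => exact opH_RVs V
      | S => exact opS_rect V h
      | P => exact opP_RVs V
  rw [key]
  exact rec_R V

end Pool.Agent.H.MP_830e61_lc.VS
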