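import Pool.Agent.H.MP_830e61_lc.VS.Dual
import Pool.Agent.H.MP_830e61_lc.VS.Rect
import Pool.Agent.H.MP_830e61_lc.VS.Bnd

/-!
The bounded embedding theorem.
-/

namespace Pool.Agent.H.MP_830e61_lc.VS

open Pool.Agent.H.MP_830e61_lc

theorem bd_sq (n : ℕ) : bd n ^ 2 = bound n := by
  have h : (n + 1) * (n + 1) ^ n = (n + 1) ^ (n + 1) := by rw [pow_succ, mul_comm]
  unfold bd bound
  rw [h]

theorem bd_pos (n : ℕ) : 1 ≤ bd n := Nat.one_le_pow _ _ (Nat.succ_pos _)

theorem bd_le (n : ℕ) : bd n ≤ bound n := by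
  rw [← bd_sq, sq]
  exact Nat.le_mul_of_pos_left _ (bd_pos n)

theorem bound_pos (n : ℕ) : 1 ≤ bound n := (bd_pos n).trans (bd_le n)

theorem le_bound (n : ℕ) : n ≤ bound n := by
  refine le_trans ?_ (bd_le n)
  unfold bd
  have h1 : 1 ≤ (n + 1) * (n + 1) ^ n := Nat.mul_pos (Nat.succ_pos _) (pow_pos (Nat.succ_pos _) _)
  calc n ≤ (n + 1) * (n + 1) ^ n + 1 := by
        have h2 : n + 1 ≤ (n + 1) * (n + 1) ^ n :=
          Nat.le_mul_of_pos_right _ (pow_pos (Nat.succ_pos _) _)
        omega
    _ = ((n + 1) * (n + 1) ^ n + 1) ^ 1 := (pow_one _).symm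
    _ ≤ _ := Nat.pow_le_pow_right (Nat.succ_pos _) h1

theorem le_bnd (n : ℕ) : n ≤ bnd n := by
  unfold bnd
  refine (le_bound n).trans (Nat.le_mul_of_pos_right _ ?_)
  exact pow_pos (pow_pos (Nat.succ_pos _) _) _

/-- `γ`-related via the natural partial order -/
theorem gm_antisymm {M : Type*} [Semigroup M] (hreg : Regular M) (hc : IdemClosed M)
    {a b a' b' : M} (ha : IsInv a a') (hb : IsInv b b') (h1 : IsInv (b * (a' * a)) a')
    (h2 : IsInv (a * (b' * b)) b') : Gm a b := by
  obtain ⟨J, iJ, π, hπ, hJr, hcm, hker, hid⟩ := gam_quot hreg hc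
  have e1 : π b * π (a' * a) = π a := by
    rw [← map_mul]
    exact (hker _ _).2 ⟨a', h1, ha⟩
  have e2 : π a * π (b' * b) = π b := by
    rw [← map_mul]
    exact (hker _ _).2 ⟨b', h2, hb⟩
  have i1 : π (a' * a) * π (a' * a) = π (a' * a) := by rw [← map_mul, ha.right]
  have i2 : π (b' * b) * π (b' * b) = π (b' * b) := by rw [← map_mul, hb.right]
  have e3 : π a * π (a' * a) = π a := by
    rw [← map_mul, ← mul_assoc, ha.1]
  have e4 : π b * π (b' * b) = π b := by
    rw [← map_mul, ← mul_assoc, hb.1]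
  refine (hker _ _).1 ?_
  calc π a = π b * π (a' * a) := e1.symm
    _ = π b * π (b' * b) * π (a' * a) := by rw [e4]
    _ = π b * (π (a' * a) * π (b' * b)) := by rw [mul_assoc, hcm _ _ i2 i1]
    _ = π a * π (b' * b) := by rw [← mul_assoc, e1]
    _ = π b := e2

/-- the core: the syntactic quotient -/
theorem core {V : List Idty} {S : Type} [Semigroup S] [Finite S] {C : Type} [Semigroup C]
    [Finite C] (hC : Nat.card C ≤ bound (Nat.card S)) {M : Type} [Semigroup M]
    (hM : IdemClosed M) (hMs : Sat V M) (G : Gens M S) (hG : Function.Injective G.g)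
    (β : M →ₙ* C)
    (hcut : ∀ s t, β t = β (G.g s) → IsInv (t * (G.g' s * G.g s)) (G.g' s))
    (ixL ixR : M → S ⊕ S) (hL : KeyL G.g β ixL) (hR : KeyR G.g β ixR) :
    ∃ (T' : Type) (_ : Semigroup T'), Finite T' ∧ Nat.card T' ≤ bnd (Nat.card S) ∧
      Regular T' ∧ IdemClosed T' ∧ Sat V T' ∧ ∃ ψ : S →ₙ* T', Function.Injective ψ := by
  have hreg : Regular M := G.regular hM
  obtain ⟨cl, F⟩ := bridgeL G.g β ixL hL
  obtain ⟨cl', F'⟩ := bridgeR G.g β ixR hR
  obtain ⟨hfin, hcard⟩ := conK_finite β G.g cl cl' F F'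
  let π : M →ₙ* (conK β G.g).Quotient := ⟨fun a => (a : (conK β G.g).Quotient), fun a b => rfl⟩
  have hπ : Function.Surjective π := by
    intro q
    induction q using Con.induction_on with
    | _ a => exact ⟨a, rfl⟩
  refine ⟨(conK β G.g).Quotient, inferInstance, hfin, ?_, map_regular π hπ hreg,
    map_closed π hπ hreg hM, sat_surj π hπ hreg hMs, π.comp G.g, ?_⟩
  · refine hcard.trans ?_
    have hD : Nat.card (Option ((S → Prop) × C × (S ⊕ S))) ≤ dcl (Nat.card S) := by
      rw [Finite.card_option, Nat.card_prod, Nat.card_prod, Nat.card_sum, Nat.card_fun]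
      have h2 : Nat.card Prop = 2 := by
        rw [Nat.card_eq_fintype_card, Fintype.card_prop]
      rw [h2]
      unfold dcl
      rw [← two_mul]
      exact Nat.succ_le_succ (Nat.mul_le_mul_left _ (Nat.mul_le_mul_right _ hC))
    have hD1 : 1 ≤ dcl (Nat.card S) := Nat.succ_pos _
    have hD0 : 0 < Nat.card (Option ((S → Prop) × C × (S ⊕ S))) := Nat.card_pos
    unfold bnd
    refine Nat.mul_le_mul hC (Nat.pow_le_pow_left ?_ _)
    exact (Nat.pow_le_pow_left hD _).trans (Nat.pow_le_pow_right hD1 hD)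
  · intro u v huv
    have hK : Kap β G.g (G.g u) (G.g v) := (Con.eq (conK β G.g)).1 huv
    have hβ := hK.1
    have k1 : leL (G.g u) (G.g v) := by
      obtain ⟨k, hk⟩ := (hK.2 u 1 1).1.1 ⟨1, by rw [one_mul, one_mul, mul_one]⟩
      exact leL_iff.1 ⟨k, by rw [one_mul, mul_one] at hk; exact hk⟩
    have k2 : leR (G.g v) (G.g u) := by
      obtain ⟨k, hk⟩ := (hK.2 v 1 1).2.2 ⟨1, by rw [one_mul, mul_one, mul_one]⟩
      exact leR_iff.1 ⟨k, by rw [one_mul, mul_one] at hk; exact hk⟩
    obtain ⟨x, h1, h2⟩ := gm_antisymm hreg hM (G.isInv u) (G.isInv v)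
      (hcut u (G.g v) hβ.symm) (hcut v (G.g u) hβ)
    apply hG
    refine eq_of_H h1 h2 k1 ?_
    rcases k2 with h | ⟨k, hk⟩
    · exact Or.inl h.symm
    · exact Or.inr ⟨k, hk⟩

theorem RR_gm {M : Type*} [Semigroup M] {s s' t : M} (hM : IdemClosed M) (hs : IsInv s s')
    (ht : IsInv t s') : IsInv (t * (s' * s)) s' ∧ IsInv (s * s' * t) s' := by
  constructor
  · have h := inv_mul hM ht (inv_mul hM hs.symm hs)
    have e : s' * s * s' = s' := hs.2
    rw [e] at h
    exact h
  · have h := inv_mul hM (inv_mul hM hs hs.symm) ht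
    have e : s' * (s * s') = s' := by rw [← mul_assoc, hs.2]
    rw [e] at h
    exact h

/-- **Bounded embedding.** -/
theorem emb (V : List Idty) (hV : Below V) : Emb V := by
  classical
  intro S _ _ T _ hreg hc hsat φ hφ
  by_cases h0 : SameCont V
  swap
  · have hr : ∀ e f : T, e * e = e → f * f = f → e * f * e = e :=
      fun e f he hf => rect_of h0 hc hsat he hf
    refine ⟨S, inferInstance, inferInstance, le_bnd _, rect_regular hreg hr φ hφ, ?_,
      sat_inj φ hφ hsat, MulHom.id S, Function.injective_id⟩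
    intro e f he hf
    apply hφ
    rw [map_mul, map_mul]
    exact hc _ _ (by rw [← map_mul, he]) (by rw [← map_mul, hf])
  choose i hi using fun u => exists_inv hreg (φ u)
  by_cases hRR : ∀ (B : Type) [Semigroup B], IdemClosed B → IdemRR B → Sat V B
  · obtain ⟨C, iC, c, c', cf, cc, c1, c2, c3, c4⟩ := exists_ctlQ hreg hc φ i hi
    by_cases hLR : ∀ (B : Type) [Semigroup B], IdemClosed B → IdemLR B → Sat V B
    · obtain ⟨C', iC', k, k', kf, kc, k1, k2, k3, k4⟩ := exists_ctlQ' hreg hc φ i hi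
      obtain ⟨M, iM, G, α, β, m1, m2, m3, m4, hinj⟩ := mk_gens φ i hi (c.prod k)
        (fun u => (c' u, k' u)) (fun u => ⟨Prod.ext (c3 u).1 (k3 u).1,
          Prod.ext (c3 u).2 (k3 u).2⟩)
      have hM : IdemClosed M := joint_closed α β hinj hc (prod_closed c1 k1)
      have hMs : Sat V M := joint_sat α β hinj hsat (sat_prod (hRR C c1 c2) (hLR C' k1 k2))
      have hMr := G.regular hM
      have hst := star_of hV hM hMs
      have hG : Function.Injective G.g := fun u v h => hφ (by rw [← m1, ← m1, h])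
      have p1 : ∀ s x z, β x = β z → leL (G.g s) x → ∀ x', IsInv x x' → IsInv z x' := by
        intro s x z h hs x' hx
        refine joint α β hinj hc (c4 M G α ((MulHom.fst C C').comp β) m1 m2
          (fun u => congrArg Prod.fst (m3 u)) (fun u => congrArg Prod.fst (m4 u)) x z
          (congrArg Prod.fst h) ⟨s, hs⟩) h hx
      have p2 : ∀ s x z, β x = β z → leR (G.g s) x → ∀ x', IsInv x x' → IsInv z x' := by
        intro s x z h hs x' hx
        refine joint α β hinj hc (k4 M G α ((MulHom.snd C C').comp β) m1 m2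
          (fun u => congrArg Prod.snd (m3 u)) (fun u => congrArg Prod.snd (m4 u)) x z
          (congrArg Prod.snd h) ⟨s, hs⟩) h hx
      have p3 : ∀ s t, β t = β (G.g s) → IsInv t (G.g' s) := fun s t h =>
        p1 s (G.g s) t h.symm (Or.inl rfl) _ (G.isInv s)
      choose ixL hixL using G.first
      choose ixR hixR using G.last
      refine core ?_ hM hMs G hG β (fun s t h => (RR_gm hM (G.isInv s) (p3 s t h)).1) ixL ixR
        (keyL_star hMr hM hst.1 G β ixL hixL p1) (keyR_star hMr hM hst.2 G β ixR hixR p2)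
      rw [Nat.card_prod, ← bd_sq, sq]
      exact Nat.mul_le_mul cc kc
    · obtain ⟨M, iM, G, α, β, m1, m2, m3, m4, hinj⟩ := mk_gens φ i hi c c' c3
      have hM : IdemClosed M := joint_closed α β hinj hc c1
      have hMs : Sat V M := joint_sat α β hinj hsat (hRR C c1 c2)
      have hMr := G.regular hM
      have hst := star_of hV hM hMs
      have hG : Function.Injective G.g := fun u v h => hφ (by rw [← m1, ← m1, h])
      have p1 : ∀ s x z, β x = β z → leL (G.g s) x → ∀ x', IsInv x x' → IsInv z x' :=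
        fun s x z h hs x' hx => joint α β hinj hc (c4 M G α β m1 m2 m3 m4 x z h ⟨s, hs⟩) h hx
      have p3 : ∀ s t, β t = β (G.g s) → IsInv t (G.g' s) := fun s t h =>
        p1 s (G.g s) t h.symm (Or.inl rfl) _ (G.isInv s)
      choose ixL hixL using G.first
      exact core (cc.trans (bd_le _)) hM hMs G hG β
        (fun s t h => (RR_gm hM (G.isInv s) (p3 s t h)).1) ixL ixL
        (keyL_star hMr hM hst.1 G β ixL hixL p1)
        (keyR_cut hMr hM (cutR_of h0 hLR hM hMs) G β ixL
          (fun s t h => (RR_gm hM (G.isInv s) (p3 s t h)).2))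
  · by_cases hLR : ∀ (B : Type) [Semigroup B], IdemClosed B → IdemLR B → Sat V B
    · obtain ⟨C, iC, c, c', cf, cc, c1, c2, c3, c4⟩ := exists_ctlQ' hreg hc φ i hi
      obtain ⟨M, iM, G, α, β, m1, m2, m3, m4, hinj⟩ := mk_gens φ i hi c c' c3
      have hM : IdemClosed M := joint_closed α β hinj hc c1
      have hMs : Sat V M := joint_sat α β hinj hsat (hLR C c1 c2)
      have hMr := G.regular hM
      have hst := star_of hV hM hMs
      have hG : Function.Injective G.g := fun u v h => hφ (by rw [← m1, ← m1, h])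
      have p1 : ∀ s x z, β x = β z → leR (G.g s) x → ∀ x', IsInv x x' → IsInv z x' :=
        fun s x z h hs x' hx => joint α β hinj hc (c4 M G α β m1 m2 m3 m4 x z h ⟨s, hs⟩) h hx
      have p3 : ∀ s t, β t = β (G.g s) → IsInv t (G.g' s) := fun s t h =>
        p1 s (G.g s) t h.symm (Or.inl rfl) _ (G.isInv s)
      choose ixR hixR using G.last
      exact core (cc.trans (bd_le _)) hM hMs G hG β
        (fun s t h => (RR_gm hM (G.isInv s) (p3 s t h)).1) ixR ixR
        (keyL_cut hMr hM (cutL_of h0 hRR hM hMs) G β ixR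
          (fun s t h => (RR_gm hM (G.isInv s) (p3 s t h)).1))
        (keyR_star hMr hM hst.2 G β ixR hixR p1)
    · obtain ⟨C, iC, c, c', cf, cc, c1, c3, c4⟩ := exists_ctlK hreg hc φ i hi
      obtain ⟨M, iM, G, α, β, m1, m2, m3, m4, hinj⟩ := mk_gens φ i hi c c' c3
      have hM : IdemClosed M := joint_closed α β hinj hc (comm_closed c1)
      have hMs : Sat V M := joint_sat α β hinj hsat (comm_sat h0 c1)
      have hMr := G.regular hM
      have hG : Function.Injective G.g := fun u v h => hφ (by rw [← m1, ← m1, h])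
      have q1 : ∀ s t, β t = β (G.g s) → IsInv (t * (G.g' s * G.g s)) (G.g' s) ∧
          IsInv (G.g s * G.g' s * t) (G.g' s) := by
        intro s t h
        have h1 := c4 M G α β m1 m2 m3 m4 t s (by rw [h, m3]) (i s) (hi s)
        constructor
        · refine joint α β hinj hc (x := G.g s) ?_ ?_ (G.isInv s)
          · obtain ⟨y, hy1, hy2⟩ := h1.1
            refine ⟨y, ?_, ?_⟩
            · rw [m1]; exact hy2
            · rw [map_mul, map_mul, m1, m2]; exact hy1
          · rw [map_mul, h, ← map_mul, ← mul_assoc, (G.isInv s).1]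
        · refine joint α β hinj hc (x := G.g s) ?_ ?_ (G.isInv s)
          · obtain ⟨y, hy1, hy2⟩ := h1.2
            refine ⟨y, ?_, ?_⟩
            · rw [m1]; exact hy2
            · rw [map_mul, map_mul, m1, m2]; exact hy1
          · rw [map_mul, h, ← map_mul, (G.isInv s).1]
      choose ixL hixL using G.first
      exact core (cc.trans (bd_le _)) hM hMs G hG β (fun s t h => (q1 s t h).1) ixL ixL
        (keyL_cut hMr hM (cutL_of h0 hRR hM hMs) G β ixL (fun s t h => (q1 s t h).1))
        (keyR_cut hMr hM (cutR_of h0 hLR hM hMs) G β ixL (fun s t h => (q1 s t h).2))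

end Pool.Agent.H.MP_830e61_lc.VS
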