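import Pool.Agent.H.MP_830e61_lc.Trunc

/-!
Partial injections of a finite subset of a regular semigroup with commuting idempotents.
-/

namespace Pool.Agent.H.MP_830e61_lc

/-- idempotents commute -/
def IdemComm (T : Type*) [Semigroup T] : Prop :=
  ∀ e f : T, e * e = e → f * f = f → e * f = f * e

theorem IdemComm.closed {T : Type*} [Semigroup T] (h : IdemComm T) : IdemClosed T := by
  intro e f he hf
  calc e * f * (e * f) = e * (f * e) * f := by simp only [mul_assoc]
    _ = e * (e * f) * f := by rw [h e f he hf]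
    _ = (e * e) * (f * f) := by simp only [mul_assoc]
    _ = e * f := by rw [he, hf]

section PInj

variable (Y : Type*)

/-- the semigroup of partial injections -/
def PInj : Subsemigroup (PMap Y) where
  carrier := {p | ∀ y y' z, p y = some z → p y' = some z → y = y'}
  mul_mem' := by
    intro p q hp hq y y' z h h'
    rw [PMap.mul_apply, Option.bind_eq_some_iff] at h h'
    obtain ⟨w, h1, h2⟩ := h
    obtain ⟨w', h1', h2'⟩ := h'
    have hw : w = w' := hp w w' z h2 h2'
    subst hw
    exact hq y y' w h1 h1'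

variable {Y}

theorem PInj_idem {p : PInj Y} (hp : p * p = p) {y z : Y} (h : p.1 y = some z) : z = y := by
  have h2 : (p.1 * p.1) y = p.1 y := congrFun (congrArg Subtype.val hp) y
  rw [PMap.mul_apply, h] at h2
  exact p.2 z y z h2 h

theorem PInj_comm : IdemComm (PInj Y) := by
  have key : ∀ e f : PInj Y, e * e = e → f * f = f → ∀ x z : Y,
      (e * f).1 x = some z → (f * e).1 x = some z := by
    intro e f he hf x z h
    have h' : (e.1 * f.1) x = some z := h
    rw [PMap.mul_apply, Option.bind_eq_some_iff] at h'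
    obtain ⟨w, h1, h2⟩ := h'
    have hw : w = x := PInj_idem hf h1
    subst hw
    have hz : z = w := PInj_idem he h2
    subst hz
    show (f.1 * e.1) z = some z
    rw [PMap.mul_apply, h2]
    exact h1
  intro e f he hf
  apply Subtype.ext
  funext x
  cases h1 : (e * f).1 x with
  | some z => exact (key e f he hf x z h1).symm
  | none =>
    cases h2 : (f * e).1 x with
    | none => rfl
    | some z =>
      rw [key f e hf he x z h2] at h1
      exact absurd h1 (by simp)

end PInj

/-! ### regular semigroups with commuting idempotents -/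

/-- a choice of inverses -/
structure SInv (J : Type*) [Semigroup J] where
  inv : J → J
  h1 : ∀ a, a * inv a * a = a
  h2 : ∀ a, inv a * a * inv a = inv a

theorem exists_SInv {J : Type*} [Semigroup J] (h : Regular J) : Nonempty (SInv J) := by
  choose x hx using h
  refine ⟨⟨fun a => x a * a * x a, fun a => ?_, fun a => ?_⟩⟩
  · have h := hx a
    calc a * (x a * a * x a) * a = (a * x a * a) * x a * a := by simp only [mul_assoc]
      _ = a := by rw [h, h]
  · have h := hx a
    have e1 : (x a * a * x a) * a * (x a * a * x a) = x a * ((a * x a * a) * x a * a) * x a := by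
      simp only [mul_assoc]
    rw [e1, h, h]

section Inv

variable {J : Type*} [Semigroup J] (I : SInv J) (hJ : IdemComm J)

include hJ in
theorem inv_unique {a x y : J} (h1 : a * x * a = a) (h2 : x * a * x = x) (h3 : a * y * a = a)
    (h4 : y * a * y = y) : x = y := by
  have e1 : (x * a) * (x * a) = x * a := by rw [← mul_assoc, h2]
  have e2 : (y * a) * (y * a) = y * a := by rw [← mul_assoc, h4]
  have e3 : (a * x) * (a * x) = a * x := by rw [← mul_assoc, h1]
  have e4 : (a * y) * (a * y) = a * y := by rw [← mul_assoc, h3]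
  have k1 : x * a = y * a := by
    calc x * a = x * (a * y * a) := by rw [h3]
      _ = (x * a) * (y * a) := by simp only [mul_assoc]
      _ = (y * a) * (x * a) := hJ _ _ e1 e2
      _ = y * (a * x * a) := by simp only [mul_assoc]
      _ = y * a := by rw [h1]
  have k2 : a * x = a * y := by
    calc a * x = (a * y * a) * x := by rw [h3]
      _ = (a * y) * (a * x) := by simp only [mul_assoc]
      _ = (a * x) * (a * y) := hJ _ _ e4 e3
      _ = (a * x * a) * y := by simp only [mul_assoc]
      _ = a * y := by rw [h1]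
  calc x = x * a * x := h2.symm
    _ = y * (a * x) := by rw [k1, mul_assoc]
    _ = y * a * y := by rw [k2, mul_assoc]
    _ = y := h4

include hJ in
theorem inv_mul (a b : J) : I.inv (a * b) = I.inv b * I.inv a := by
  have e1 : (I.inv a * a) * (I.inv a * a) = I.inv a * a := by rw [← mul_assoc, I.h2]
  have e2 : (b * I.inv b) * (b * I.inv b) = b * I.inv b := by rw [← mul_assoc, I.h1]
  have k := hJ _ _ e1 e2
  apply inv_unique hJ (I.h1 _) (I.h2 _)
  · calc a * b * (I.inv b * I.inv a) * (a * b)
        = a * ((b * I.inv b) * (I.inv a * a)) * b := by simp only [mul_assoc]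
      _ = (a * I.inv a * a) * (b * I.inv b * b) := by rw [← k]; simp only [mul_assoc]
      _ = a * b := by rw [I.h1, I.h1]
  · calc I.inv b * I.inv a * (a * b) * (I.inv b * I.inv a)
        = I.inv b * ((I.inv a * a) * (b * I.inv b)) * I.inv a := by simp only [mul_assoc]
      _ = (I.inv b * b * I.inv b) * (I.inv a * a * I.inv a) := by rw [k]; simp only [mul_assoc]
      _ = I.inv b * I.inv a := by rw [I.h2, I.h2]

theorem sq_idem (a : J) : (I.inv a * a) * (I.inv a * a) = I.inv a * a := by
  rw [← mul_assoc, I.h2]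

variable {S : Type*} [Semigroup S] (φ : S →ₙ* J)

/-- the finite set on which we act -/
def Yinv : Set J :=
  {y | (∃ a, y = I.inv (φ a) * φ a) ∨ ∃ u a, y = φ u * (I.inv (φ a) * φ a)}

theorem base_mem (a : S) : I.inv (φ a) * φ a ∈ Yinv I φ := Or.inl ⟨a, rfl⟩

theorem phi_mem {y : J} (u : S) (hy : y ∈ Yinv I φ) : φ u * y ∈ Yinv I φ := by
  rcases hy with ⟨a, rfl⟩ | ⟨v, a, rfl⟩
  · exact Or.inr ⟨u, a, rfl⟩
  · exact Or.inr ⟨u * v, a, by rw [map_mul, mul_assoc]⟩

open Classical in
/-- left multiplication by `φ u` on the elements fixed by the idempotent -/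
noncomputable def lamI (u : S) : PInj (Yinv I φ) :=
  ⟨fun y => if I.inv (φ u) * φ u * y.1 = y.1 then some ⟨φ u * y.1, phi_mem I φ u y.2⟩ else none, by
    intro y y' z h h'
    dsimp only at h h'
    split_ifs at h with h1
    split_ifs at h' with h1'
    rw [Option.some.injEq] at h h'
    apply Subtype.ext
    have e : φ u * y.1 = φ u * y'.1 := by
      have := congrArg Subtype.val (h.trans h'.symm)
      exact this
    rw [← h1, ← h1', mul_assoc, mul_assoc, e]⟩

open Classical in
/-- the inverse of `lamI u` -/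
noncomputable def muI (u : S) : PInj (Yinv I φ) :=
  ⟨fun z => if h : ∃ y : Yinv I φ, I.inv (φ u) * φ u * y.1 = y.1 ∧ z.1 = φ u * y.1 then
      some ⟨I.inv (φ u) * z.1, by
        obtain ⟨y, h1, h2⟩ := h
        rw [h2, ← mul_assoc, h1]
        exact y.2⟩ else none, by
    intro z z' w h h'
    dsimp only at h h'
    split_ifs at h with h1
    split_ifs at h' with h1'
    rw [Option.some.injEq] at h h'
    obtain ⟨y, h2, h3⟩ := h1
    obtain ⟨y', h2', h3'⟩ := h1'
    have e : I.inv (φ u) * z.1 = I.inv (φ u) * z'.1 := by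
      have := congrArg Subtype.val (h.trans h'.symm)
      exact this
    apply Subtype.ext
    rw [h3, h3', ← mul_assoc, ← mul_assoc, h2, h2'] at e
    rw [h3, h3', e]⟩

theorem lamI_some {u : S} {y : Yinv I φ} (h : I.inv (φ u) * φ u * y.1 = y.1) :
    (lamI I φ u).1 y = some ⟨φ u * y.1, phi_mem I φ u y.2⟩ := by
  unfold lamI
  dsimp only
  rw [if_pos h]

theorem lamI_none {u : S} {y : Yinv I φ} (h : ¬ I.inv (φ u) * φ u * y.1 = y.1) :
    (lamI I φ u).1 y = none := by
  unfold lamI
  dsimp only
  rw [if_neg h]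

theorem lamI_ev {u : S} {y z : Yinv I φ} (h : (lamI I φ u).1 y = some z) :
    I.inv (φ u) * φ u * y.1 = y.1 ∧ z.1 = φ u * y.1 := by
  by_cases h1 : I.inv (φ u) * φ u * y.1 = y.1
  · rw [lamI_some I φ h1, Option.some.injEq] at h
    exact ⟨h1, by rw [← h]⟩
  · rw [lamI_none I φ h1] at h
    exact absurd h (by simp)

theorem muI_some {u : S} {z y : Yinv I φ} (h : I.inv (φ u) * φ u * y.1 = y.1)
    (hz : z.1 = φ u * y.1) : (muI I φ u).1 z = some y := by
  unfold muI
  dsimp only
  rw [dif_pos ⟨y, h, hz⟩, Option.some.injEq]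
  apply Subtype.ext
  show I.inv (φ u) * z.1 = y.1
  rw [hz, ← mul_assoc, h]

theorem muI_ev {u : S} {z y : Yinv I φ} (h : (muI I φ u).1 z = some y) :
    I.inv (φ u) * φ u * y.1 = y.1 ∧ z.1 = φ u * y.1 ∧ y.1 = I.inv (φ u) * z.1 := by
  by_cases h1 : ∃ y : Yinv I φ, I.inv (φ u) * φ u * y.1 = y.1 ∧ z.1 = φ u * y.1
  · obtain ⟨y', h2, h3⟩ := h1
    rw [muI_some I φ h2 h3, Option.some.injEq] at h
    subst h
    exact ⟨h2, h3, by rw [h3, ← mul_assoc, h2]⟩
  · unfold muI at h
    dsimp only at h
    rw [dif_neg h1] at h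
    exact absurd h (by simp)

theorem lam_mu_lamI (u : S) : lamI I φ u * muI I φ u * lamI I φ u = lamI I φ u := by
  apply Subtype.ext
  funext y
  show (((lamI I φ u).1 * (muI I φ u).1) * (lamI I φ u).1) y = (lamI I φ u).1 y
  by_cases h : I.inv (φ u) * φ u * y.1 = y.1
  · rw [PMap.mul_apply, lamI_some I φ h]
    show ((lamI I φ u).1 * (muI I φ u).1) ⟨φ u * y.1, phi_mem I φ u y.2⟩ = _
    rw [PMap.mul_apply, muI_some I φ h rfl]
    exact lamI_some I φ h
  · rw [PMap.mul_apply, lamI_none I φ h]
    rfl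

theorem mu_lam_muI (u : S) : muI I φ u * lamI I φ u * muI I φ u = muI I φ u := by
  apply Subtype.ext
  funext z
  show (((muI I φ u).1 * (lamI I φ u).1) * (muI I φ u).1) z = (muI I φ u).1 z
  rw [PMap.mul_apply]
  cases h : (muI I φ u).1 z with
  | none => rfl
  | some y =>
    obtain ⟨h1, h2, -⟩ := muI_ev I φ h
    show ((muI I φ u).1 * (lamI I φ u).1) y = some y
    rw [PMap.mul_apply, lamI_some I φ h1]
    exact muI_some I φ h1 rfl

include hJ in
theorem lamI_mul (u v : S) : lamI I φ (u * v) = lamI I φ u * lamI I φ v := by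
  have e1 : (I.inv (φ u) * φ u) * (I.inv (φ u) * φ u) = I.inv (φ u) * φ u := sq_idem I _
  have e2 : (φ v * I.inv (φ v)) * (φ v * I.inv (φ v)) = φ v * I.inv (φ v) := by
    rw [← mul_assoc, I.h1]
  have k := hJ _ _ e1 e2
  apply Subtype.ext
  funext y
  show _ = ((lamI I φ u).1 * (lamI I φ v).1) y
  rw [PMap.mul_apply]
  by_cases h : I.inv (φ v) * φ v * y.1 = y.1
  · rw [lamI_some I φ h]
    show _ = (lamI I φ u).1 ⟨φ v * y.1, phi_mem I φ v y.2⟩
    by_cases h2 : I.inv (φ u) * φ u * (φ v * y.1) = φ v * y.1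
    · have h3 : I.inv (φ (u * v)) * φ (u * v) * y.1 = y.1 := by
        rw [map_mul, inv_mul I hJ]
        calc I.inv (φ v) * I.inv (φ u) * (φ u * φ v) * y.1
            = I.inv (φ v) * (I.inv (φ u) * φ u * (φ v * y.1)) := by simp only [mul_assoc]
          _ = I.inv (φ v) * φ v * y.1 := by rw [h2, mul_assoc]
          _ = y.1 := h
      rw [lamI_some I φ h3, lamI_some I φ (y := ⟨φ v * y.1, phi_mem I φ v y.2⟩) h2]
      congr 1
      apply Subtype.ext
      show φ (u * v) * y.1 = φ u * (φ v * y.1)
      rw [map_mul, mul_assoc]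
    · rw [lamI_none I φ (y := ⟨φ v * y.1, phi_mem I φ v y.2⟩) h2]
      apply lamI_none
      intro h3
      apply h2
      rw [map_mul, inv_mul I hJ] at h3
      calc I.inv (φ u) * φ u * (φ v * y.1)
          = I.inv (φ u) * φ u * (φ v * (I.inv (φ v) * I.inv (φ u) * (φ u * φ v) * y.1)) := by
            rw [h3]
        _ = ((I.inv (φ u) * φ u) * (φ v * I.inv (φ v))) * (I.inv (φ u) * φ u) * φ v * y.1 := by
            simp only [mul_assoc]
        _ = (φ v * I.inv (φ v)) * ((I.inv (φ u) * φ u) * (I.inv (φ u) * φ u)) * φ v * y.1 := by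
            rw [k]; simp only [mul_assoc]
        _ = φ v * (I.inv (φ v) * I.inv (φ u) * (φ u * φ v) * y.1) := by
            rw [e1]; simp only [mul_assoc]
        _ = φ v * y.1 := by rw [h3]
  · rw [lamI_none I φ h]
    apply lamI_none
    intro h3
    apply h
    rw [map_mul, inv_mul I hJ] at h3
    calc I.inv (φ v) * φ v * y.1
        = I.inv (φ v) * φ v * (I.inv (φ v) * I.inv (φ u) * (φ u * φ v) * y.1) := by rw [h3]
      _ = (I.inv (φ v) * φ v * I.inv (φ v)) * I.inv (φ u) * (φ u * φ v) * y.1 := by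
          simp only [mul_assoc]
      _ = y.1 := by rw [I.h2, h3]

/-- the base point is in the domain -/
theorem lamI_base (a : S) : (lamI I φ a).1 ⟨I.inv (φ a) * φ a, base_mem I φ a⟩ =
    some ⟨φ a * (I.inv (φ a) * φ a), phi_mem I φ a (base_mem I φ a)⟩ :=
  lamI_some I φ (sq_idem I _)

include hJ in
theorem lamI_inj (u v : S) : lamI I φ u = lamI I φ v ↔ φ u = φ v := by
  constructor
  · intro h
    have h1 := lamI_base I φ u
    rw [h] at h1
    obtain ⟨h2, h3⟩ := lamI_ev I φ h1
    have h1' := lamI_base I φ v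
    rw [← h] at h1'
    obtain ⟨h2', h3'⟩ := lamI_ev I φ h1'
    have k := hJ _ _ (sq_idem I (φ u)) (sq_idem I (φ v))
    have hq : I.inv (φ u) * φ u = I.inv (φ v) * φ v := by
      have e2 : I.inv (φ v) * φ v * (I.inv (φ u) * φ u) = I.inv (φ u) * φ u := h2
      have e2' : I.inv (φ u) * φ u * (I.inv (φ v) * φ v) = I.inv (φ v) * φ v := h2'
      rw [← e2, ← k, e2']
    have e3 : φ u * (I.inv (φ u) * φ u) = φ v * (I.inv (φ u) * φ u) := h3
    calc φ u = φ u * (I.inv (φ u) * φ u) := by rw [← mul_assoc, I.h1]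
      _ = φ v * (I.inv (φ v) * φ v) := by rw [e3, hq]
      _ = φ v := by rw [← mul_assoc, I.h1]
  · intro h
    apply Subtype.ext
    funext y
    by_cases h1 : I.inv (φ v) * φ v * y.1 = y.1
    · have h2 : I.inv (φ u) * φ u * y.1 = y.1 := by rw [h]; exact h1
      rw [lamI_some I φ h1, lamI_some I φ h2]
      congr 1
      apply Subtype.ext
      show φ u * y.1 = φ v * y.1
      rw [h]
    · have h2 : ¬ I.inv (φ u) * φ u * y.1 = y.1 := by rw [h]; exact h1
      rw [lamI_none I φ h1, lamI_none I φ h2]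

/-- values of a partial map are given by the left multiplication by `t` -/
def Ev (p : PMap (Yinv I φ)) (t : J) : Prop := ∀ y z : Yinv I φ, p y = some z → z.1 = t * y.1

theorem Ev_lamI (u : S) : Ev I φ (lamI I φ u).1 (φ u) := fun _ _ h => (lamI_ev I φ h).2

theorem Ev_muI (u : S) : Ev I φ (muI I φ u).1 (I.inv (φ u)) := fun _ _ h => (muI_ev I φ h).2.2

theorem Ev_mul {p q : PMap (Yinv I φ)} {s t : J} (hp : Ev I φ p s) (hq : Ev I φ q t) :
    Ev I φ (p * q) (s * t) := by
  intro y z h
  rw [PMap.mul_apply, Option.bind_eq_some_iff] at h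
  obtain ⟨w, h1, h2⟩ := h
  rw [hp w z h2, hq y w h1, mul_assoc]

variable [Finite S]

theorem card_Yinv : (Yinv I φ).Finite ∧
    Nat.card (Yinv I φ) ≤ (Nat.card S + 1) * Nat.card S := by
  classical
  have := Fintype.ofFinite S
  let F : Option S × S → J := fun p =>
    p.1.elim (I.inv (φ p.2) * φ p.2) fun u => φ u * (I.inv (φ p.2) * φ p.2)
  have hsub : Yinv I φ ⊆ Set.range F := by
    rintro y (⟨a, rfl⟩ | ⟨u, a, rfl⟩)
    · exact ⟨(none, a), rfl⟩
    · exact ⟨(some u, a), rfl⟩
  have hfin : (Set.range F).Finite := Set.finite_range F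
  refine ⟨hfin.subset hsub, ?_⟩
  calc Nat.card (Yinv I φ) = (Yinv I φ).ncard := rfl
    _ ≤ (Set.range F).ncard := Set.ncard_le_ncard hsub hfin
    _ ≤ Nat.card (Option S × S) := by
        rw [← Set.image_univ]
        refine (Set.ncard_image_le Set.finite_univ).trans ?_
        rw [Set.ncard_univ]
    _ = (Nat.card S + 1) * Nat.card S := by
        rw [Nat.card_prod]
        congr 1
        rw [Nat.card_eq_fintype_card, Fintype.card_option, Nat.card_eq_fintype_card]

theorem card_PInj : Finite (PInj (Yinv I φ)) ∧ Nat.card (PInj (Yinv I φ)) ≤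
    ((Nat.card S + 1) * Nat.card S + 1) ^ ((Nat.card S + 1) * Nat.card S) := by
  obtain ⟨hY, hYc⟩ := card_Yinv I φ
  have : Finite (Yinv I φ) := hY
  have hfin : Finite (PMap (Yinv I φ)) := inferInstanceAs (Finite (Yinv I φ → Option (Yinv I φ)))
  refine ⟨inferInstance, ?_⟩
  have h1 : Nat.card (PInj (Yinv I φ)) ≤ Nat.card (PMap (Yinv I φ)) :=
    Nat.card_le_card_of_injective (fun r : PInj (Yinv I φ) => r.1) Subtype.val_injective
  have h2 : Nat.card (PMap (Yinv I φ)) =
      (Nat.card (Yinv I φ) + 1) ^ Nat.card (Yinv I φ) := by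
    show Nat.card (Yinv I φ → Option (Yinv I φ)) = _
    classical
    have := Fintype.ofFinite (Yinv I φ)
    simp only [Nat.card_eq_fintype_card, Fintype.card_pi, Fintype.card_option,
      Finset.prod_const, Finset.card_univ]
  rw [h2] at h1
  refine h1.trans ?_
  exact (Nat.pow_le_pow_left (Nat.succ_le_succ hYc) _).trans
    (Nat.pow_le_pow_right (Nat.succ_pos _) hYc)

end Inv

end Pool.Agent.H.MP_830e61_lc
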