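import Pool.Agent.H.MP_830e61_lc.VS.Sat

/-!
Identities which fail in some right regular (left regular) band, and identities whose two sides
have different letters.
-/

namespace Pool.Agent.H.MP_830e61_lc.VS

open Pool.Agent.H.MP_830e61_lc

/-- the list of letters of a word -/
def letters (w : FreeSemigroup ℕ) : List ℕ := w.head :: w.tail

/-- the two sides of every identity of `V` have the same letters -/
def SameCont (V : List Idty) : Prop := ∀ p ∈ V, ∀ i, i ∈ letters p.1 ↔ i ∈ letters p.2

/-- the dual of `CutL` -/
def CutR (T : Type*) [Semigroup T] : Prop :=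
  ∀ a h x : T, a * a = a → h * h = h → x * x = x → x * a = a → a * h * a = a → x * h * a = a

/-
PROOF of `cutL_of`.  (0) Value of a word in a semigroup `B` with `IdemClosed`, `IdemRR`, at
idempotents `x i`: it is the product of the `x i` over `(letters w).dedup` (Mathlib `List.dedup`
keeps the LAST occurrences); because for idempotents e, w: `e w e = w e`, a letter which occurs
again later may be erased.  So `hn` gives a pair `(u, v)` in `V` whose lists
`(letters u).dedup ≠ (letters v).dedup`, same members (`hV`), both Nodup.
(1) Take the longest common suffix `C`: dedup u = A ++ [p] ++ C, dedup v = B ++ [q] ++ C, p ≠ q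
(lengths are equal, so neither is a suffix of the other); p, q not in C, q in A, p in B (up to
the choice of names).  So in u after the last p only letters of C occur (all of C), and in v
after the last p there is a q, and only letters outside {p}; the last letter of v is in C if C ≠ [].
(2) Let a, h, x be idempotents of T with a x = a, a h a = a.  Substitute p := a, q := h, all other
variables := x (in the case C = []: also all others := x; see below).
General: (*) a w a = a for every w in the subsemigroup generated by a, h, x.  Proof: closed under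
products: if a w a = a and a w' a = a, w, w' idempotent, k := w' a w is idempotent (hc) and
a k k a = a k a reads (a w' a) w w' (a w a) = (a w' a)(w a)  i.e. a w w' a = a.
(3) C ≠ []: value of u = U a X with X a nonempty product of x's (X = x), so a * value(u) =
(a U a) x = a x = a (if U is empty: a a x = a).  Value of v = V' a W with W a word in h, x which
contains h and ends in x, so a * value(v) = a W; and a W = a h x: leading x's disappear (a x = a),
then h W' x = h x for every word W' in h, x (h x h x = h x, h h = h, x x = x).  So a = a h x.
(4) C = []: u ends in p: a * value(u) = a; v ends in q: value(v) = V' a W with W a word in h, x,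
containing h, last letter h, so a W in {a h} (leading x's disappear; then h..h = a word in h, x
beginning and ending in h; a * that = a h or a h x h): to avoid this case substitute all other
variables by a (not x) when C = []: then value(u) is a word in a, h ending in a: a * value(u) = a;
value(v) ends in h: a * value(v) = (a ... a) h = a h.  So a h = a and a h x = a x = a.
`cutR_of` is the dual: use the opposite semigroups; for a word w let
rev w := unop (lift (fun i => op (of i)) w); then lift_{Bop} (op ∘ x) (rev w) = op (lift x w)
(both sides are homomorphisms in w after composition), `V.map (rev × rev)`, apply `cutL_of`.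
-/

section

variable {T : Type*} [Semigroup T]

private theorem Words_step (a : T) (y : ℕ → T) (s : T) (l : List ℕ) :
    l.foldl (fun c i => c * y i) (a * s) = a * l.foldl (fun c i => c * y i) s := by
  induction l generalizing s with
  | nil => rfl
  | cons i l ih => rw [List.foldl_cons, List.foldl_cons, mul_assoc, ih]

/-- left multiplication of the value of a word -/
private theorem Words_val (a : T) (y : ℕ → T) (w : FreeSemigroup ℕ) :
    a * FreeSemigroup.lift y w = (letters w).foldl (fun c i => c * y i) a := by
  obtain ⟨i, l⟩ := w
  rw [FreeSemigroup.lift_mk_eq_foldl]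
  change _ = l.foldl (fun c i => c * y i) (a * y i)
  rw [Words_step]

/-- closure of `a w a = a` -/
private theorem Words_cl (hc : IdemClosed T) {a w w' : T} (hw : w * w = w)
    (hw' : w' * w' = w') (ha : a * a = a) (h1 : a * w * a = a) (h2 : a * w' * a = a) :
    a * (w * w') * a = a := by
  have e1 : (a * w) * (a * w) = a * w := hc a w ha hw
  have e2 : (w' * (a * w)) * (w' * (a * w)) = w' * (a * w) := hc w' (a * w) hw' e1
  have e3 : (w' * a) * (w' * a) = w' * a := hc w' a hw' ha
  have k1 : w' * w * (w' * w) = w' * w := hc w' w hw' hw
  have k2 : a * (w' * w * (w' * w)) * a = a * (w' * w) * a := by rw [k1]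
  -- with `k = w' a w`
  have k3 : a * (w' * a * w) * a = a := by
    calc a * (w' * a * w) * a = (a * w' * a) * (w * a) := by simp only [mul_assoc]
      _ = a * w * a := by rw [h2, ← mul_assoc]
      _ = a := h1
  have k4 : a * ((w' * a * w) * (w' * a * w)) * a = a * (w' * a * w) * a := by
    have : (w' * a * w) * (w' * a * w) = w' * a * w := by
      have := e2
      simp only [mul_assoc] at this ⊢
      exact this
    rw [this]
  have k5 : a * ((w' * a * w) * (w' * a * w)) * a = a * (w * w') * a := by
    calc a * ((w' * a * w) * (w' * a * w)) * a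
        = (a * w' * a) * (w * w') * (a * w * a) := by simp only [mul_assoc]
      _ = a * (w * w') * a := by rw [h2, h1]
  rw [← k5, k4, k3]

end

/-- the states -/
private def Words_St {T : Type*} [Semigroup T] (a h x s : T) : Prop :=
  s = a ∨ s = a * h ∨ s = a * h * x ∨ s = a * h * x * h

section

variable {T : Type*} [Semigroup T]

private theorem Words_core (hc : IdemClosed T) {a h x : T} (ha : a * a = a) (hh : h * h = h)
    (hx : x * x = x) (hax : a * x = a) (hah : a * h * a = a) {p q : ℕ} (hpq : p ≠ q) {y : ℕ → T}
    (hyp : y p = a) (hyq : y q = h) (hyo : ∀ i, i ≠ p → i ≠ q → y i = x)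
    {U U' W W' : List ℕ} (hU' : ∀ i ∈ U', i ≠ p ∧ i ≠ q) (hW' : ∀ i ∈ W', i ≠ p ∧ i ≠ q) :
    (U ++ p :: U').foldl (fun c i => c * y i) a = a ∧
      ((W' = [] → (W ++ q :: W').foldl (fun c i => c * y i) a = a * h ∨
        (W ++ q :: W').foldl (fun c i => c * y i) a = a * h * x * h) ∧
      (W' ≠ [] → (W ++ q :: W').foldl (fun c i => c * y i) a = a * h * x)) := by
  have haxa : a * x * a = a := by rw [hax, ha]
  have h1 : a * h * x * a = a := by
    have := Words_cl hc hh hx ha hah haxa
    simpa only [mul_assoc] using this
  have hhx : (h * x) * (h * x) = h * x := hc h x hh hx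
  have h2 : a * h * x * h * a = a := by
    have h3 : a * (h * x) * a = a := by simpa only [mul_assoc] using h1
    have := Words_cl hc hhx hh ha h3 hah
    simpa only [mul_assoc] using this
  have hxh : a * h * x * h * x = a * h * x := by
    calc a * h * x * h * x = a * ((h * x) * (h * x)) := by simp only [mul_assoc]
      _ = a * h * x := by rw [hhx, mul_assoc]
  -- the states are closed under the steps
  have hstep : ∀ (i : ℕ) (s : T), Words_St a h x s → Words_St a h x (s * y i) := by
    intro i s hs
    by_cases hip : i = p
    · subst hip
      rw [hyp]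
      left
      rcases hs with rfl | rfl | rfl | rfl
      · exact ha
      · exact hah
      · exact h1
      · exact h2
    · by_cases hiq : i = q
      · subst hiq
        rw [hyq]
        rcases hs with rfl | rfl | rfl | rfl
        · exact Or.inr (Or.inl rfl)
        · right; left
          rw [mul_assoc, hh]
        · exact Or.inr (Or.inr (Or.inr rfl))
        · right; right; right
          rw [mul_assoc, hh]
      · rw [hyo i hip hiq]
        rcases hs with rfl | rfl | rfl | rfl
        · exact Or.inl hax
        · exact Or.inr (Or.inr (Or.inl rfl))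
        · right; right; left
          rw [mul_assoc, hx]
        · right; right; left
          exact hxh
  have hfold : ∀ (l : List ℕ) (s : T), Words_St a h x s →
      Words_St a h x (l.foldl (fun c i => c * y i) s) := by
    intro l
    induction l with
    | nil => exact fun s hs => hs
    | cons i l ih => exact fun s hs => ih _ (hstep i s hs)
  -- steps by `x`
  have hfx : ∀ (l : List ℕ) (s : T), (∀ i ∈ l, i ≠ p ∧ i ≠ q) → s * x = s →
      l.foldl (fun c i => c * y i) s = s := by
    intro l
    induction l with
    | nil => exact fun s _ _ => rfl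
    | cons i l ih =>
      intro s hl hs
      rw [List.foldl_cons, hyo i (hl i List.mem_cons_self).1 (hl i List.mem_cons_self).2, hs]
      exact ih s (fun j hj => hl j (List.mem_cons_of_mem _ hj)) hs
  constructor
  · rw [List.foldl_append, List.foldl_cons, hyp]
    have h3 : U.foldl (fun c i => c * y i) a * a = a := by
      have := hstep p _ (hfold U a (Or.inl rfl))
      rcases hfold U a (Or.inl rfl) with h | h | h | h
      · rw [h, ha]
      · rw [h, hah]
      · rw [h, h1]
      · rw [h, h2]
    rw [h3]
    exact hfx U' a hU' hax
  · rw [List.foldl_append, List.foldl_cons, hyq]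
    have h3 : W.foldl (fun c i => c * y i) a * h = a * h ∨
        W.foldl (fun c i => c * y i) a * h = a * h * x * h := by
      rcases hfold W a (Or.inl rfl) with h | h | h | h
      · left; rw [h]
      · left; rw [h, mul_assoc, hh]
      · right; rw [h]
      · right; rw [h, mul_assoc, hh]
    constructor
    · intro h4
      rw [h4]
      exact h3
    · intro h4
      obtain ⟨i, l, rfl⟩ := List.exists_cons_of_ne_nil h4
      rw [List.foldl_cons, hyo i (hW' i List.mem_cons_self).1 (hW' i List.mem_cons_self).2]
      have h5 : W.foldl (fun c i => c * y i) a * h * x = a * h * x := by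
        rcases h3 with h | h
        · rw [h]
        · rw [h, hxh]
      rw [h5]
      refine hfx l _ (fun j hj => hW' j (List.mem_cons_of_mem _ hj)) ?_
      rw [mul_assoc, hx]

end

/-! ### the combinatorics of last occurrences -/

private theorem Words_diff {D D' : List ℕ} (hl : D.length = D'.length) (hne : D ≠ D') :
    ∃ (A B C : List ℕ) (p q : ℕ), p ≠ q ∧ D = A ++ p :: C ∧ D' = B ++ q :: C := by
  induction D generalizing D' with
  | nil =>
    exfalso
    apply hne
    exact (List.length_eq_zero_iff.1 hl.symm).symm
  | cons i D ih =>
    cases D' with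
    | nil => simp at hl
    | cons j D' =>
      by_cases h : D = D'
      · subst h
        refine ⟨[], [], D, i, j, ?_, rfl, rfl⟩
        rintro rfl
        exact hne rfl
      · obtain ⟨A, B, C, p, q, h1, h2, h3⟩ := ih (by simpa using hl) h
        exact ⟨i :: A, j :: B, C, p, q, h1, by rw [h2]; rfl, by rw [h3]; rfl⟩

private theorem Words_dedup {l A C : List ℕ} {p : ℕ} (h : l.dedup = A ++ p :: C) :
    ∃ L L' : List ℕ, l = L ++ p :: L' ∧ L'.dedup = C := by
  induction l generalizing A with
  | nil => simp at h
  | cons i l ih =>
    by_cases hi : i ∈ l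
    · rw [List.dedup_cons_of_mem hi] at h
      obtain ⟨L, L', h1, h2⟩ := ih h
      exact ⟨i :: L, L', by rw [h1]; rfl, h2⟩
    · rw [List.dedup_cons_of_notMem hi] at h
      cases A with
      | nil =>
        rw [List.nil_append, List.cons.injEq] at h
        exact ⟨[], l, by rw [h.1]; rfl, h.2⟩
      | cons j A =>
        rw [List.cons_append, List.cons.injEq] at h
        obtain ⟨L, L', h1, h2⟩ := ih h.2
        exact ⟨i :: L, L', by rw [h1]; rfl, h2⟩

private theorem Words_split {l l' : List ℕ} (hm : ∀ i, i ∈ l ↔ i ∈ l')
    (hne : l.dedup ≠ l'.dedup) :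
    ∃ (p q : ℕ) (U U' W W' : List ℕ), p ≠ q ∧ l = U ++ p :: U' ∧ l' = W ++ q :: W' ∧
      (∀ i ∈ U', i ≠ p ∧ i ≠ q) ∧ (∀ i ∈ W', i ≠ p ∧ i ≠ q) ∧ (U' = [] ↔ W' = []) := by
  have hperm : l.dedup.Perm l'.dedup := by
    rw [List.perm_ext_iff_of_nodup l.nodup_dedup l'.nodup_dedup]
    intro i
    rw [List.mem_dedup, List.mem_dedup, hm]
  obtain ⟨A, B, C, p, q, hpq, h1, h2⟩ := Words_diff hperm.length_eq hne
  obtain ⟨U, U', e1, e2⟩ := Words_dedup h1
  obtain ⟨W, W', e3, e4⟩ := Words_dedup h2
  have hpC : p ∉ C := by
    have h3 := l.nodup_dedup
    rw [h1] at h3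
    have h4 := (List.nodup_append.1 h3).2.1
    exact (List.nodup_cons.1 h4).1
  have hqC : q ∉ C := by
    have h3 := l'.nodup_dedup
    rw [h2] at h3
    have h4 := (List.nodup_append.1 h3).2.1
    exact (List.nodup_cons.1 h4).1
  have hU : ∀ i, i ∈ U' ↔ i ∈ C := fun i => by rw [← e2, List.mem_dedup]
  have hW : ∀ i, i ∈ W' ↔ i ∈ C := fun i => by rw [← e4, List.mem_dedup]
  refine ⟨p, q, U, U', W, W', hpq, e1, e3, ?_, ?_, ?_⟩
  · intro i hi
    rw [hU] at hi
    exact ⟨fun h => hpC (h ▸ hi), fun h => hqC (h ▸ hi)⟩
  · intro i hi
    rw [hW] at hi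
    exact ⟨fun h => hpC (h ▸ hi), fun h => hqC (h ▸ hi)⟩
  · rw [List.eq_nil_iff_forall_not_mem, List.eq_nil_iff_forall_not_mem]
    constructor
    · intro h i hi
      exact h i ((hU i).2 ((hW i).1 hi))
    · intro h i hi
      exact h i ((hW i).2 ((hU i).1 hi))

/-! ### words in right regular bands -/

section

variable {B : Type*} [Semigroup B]

/-- the value of a list -/
private def Words_P (x : ℕ → B) (l : List ℕ) : WithOne B := (l.map fun i => (x i : WithOne B)).prod

private theorem Words_lift (x : ℕ → B) (w : FreeSemigroup ℕ) :
    ((FreeSemigroup.lift x w : B) : WithOne B) = Words_P x (letters w) := by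
  obtain ⟨i, l⟩ := w
  rw [FreeSemigroup.lift_mk_eq_foldl]
  change _ = Words_P x (i :: l)
  have key : ∀ (l : List ℕ) (b : B), ((l.foldl (fun c j => c * x j) b : B) : WithOne B) =
      (b : WithOne B) * Words_P x l := by
    intro l
    induction l with
    | nil =>
      intro b
      simp [Words_P]
    | cons j l ih =>
      intro b
      rw [List.foldl_cons, ih, WithOne.coe_mul, mul_assoc]
      rfl
  rw [key]
  rfl

private theorem Words_idem (hc : IdemClosed B) {x : ℕ → B} (hx : ∀ i, x i * x i = x i)
    (l : List ℕ) : Words_P x l = 1 ∨ ∃ f : B, f * f = f ∧ Words_P x l = f := by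
  induction l with
  | nil => exact Or.inl rfl
  | cons i l ih =>
    right
    have h1 : Words_P x (i :: l) = (x i : WithOne B) * Words_P x l := rfl
    rcases ih with h | ⟨f, hf, h⟩
    · exact ⟨x i, hx i, by rw [h1, h, mul_one]⟩
    · exact ⟨x i * f, hc _ _ (hx i) hf, by rw [h1, h, WithOne.coe_mul]⟩

private theorem Words_mem (hc : IdemClosed B) (hr : IdemRR B) {x : ℕ → B}
    (hx : ∀ i, x i * x i = x i) {i : ℕ} {l : List ℕ} (hi : i ∈ l) :
    (x i : WithOne B) * Words_P x l = Words_P x l := by
  obtain ⟨A, C, rfl⟩ := List.append_of_mem hi
  have h1 : Words_P x (A ++ i :: C) = Words_P x A * ((x i : WithOne B) * Words_P x C) := by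
    simp [Words_P]
  have h2 : (x i : WithOne B) * Words_P x A * (x i : WithOne B) =
      Words_P x A * (x i : WithOne B) := by
    rcases Words_idem hc hx A with h | ⟨f, hf, h⟩
    · rw [h, mul_one, one_mul, ← WithOne.coe_mul, hx]
    · rw [h, ← WithOne.coe_mul, ← WithOne.coe_mul, ← WithOne.coe_mul, hr _ _ (hx i) hf]
  rw [h1, ← mul_assoc, ← mul_assoc, h2, mul_assoc]

private theorem Words_dd (hc : IdemClosed B) (hr : IdemRR B) {x : ℕ → B}
    (hx : ∀ i, x i * x i = x i) (l : List ℕ) : Words_P x l.dedup = Words_P x l := by
  induction l with
  | nil => rfl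
  | cons i l ih =>
    have h1 : Words_P x (i :: l) = (x i : WithOne B) * Words_P x l := rfl
    by_cases hi : i ∈ l
    · rw [List.dedup_cons_of_mem hi, ih, h1, Words_mem hc hr hx hi]
    · rw [List.dedup_cons_of_notMem hi, h1, ← ih]
      rfl

end

/-- some identity fails in a right regular band -/
theorem cutL_of {V : List Idty} (hV : SameCont V)
    (hn : ¬ ∀ (B : Type) [Semigroup B], IdemClosed B → IdemRR B → Sat V B)
    {T : Type*} [Semigroup T] (hc : IdemClosed T) (h : Sat V T) : CutL T := by
  classical
  -- a pair with different last occurrences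
  obtain ⟨w, hw, hne⟩ : ∃ w ∈ V, (letters w.1).dedup ≠ (letters w.2).dedup := by
    by_contra hcon
    push Not at hcon
    apply hn
    intro B _ hcB hr w hw x hx
    apply WithOne.coe_injective
    rw [Words_lift, Words_lift, ← Words_dd hcB hr hx, ← Words_dd hcB hr hx (letters w.2),
      hcon w hw]
  obtain ⟨p, q, U, U', W, W', hpq, e1, e2, hU', hW', hnil⟩ := Words_split (hV w hw) hne
  intro a g x ha hg hx hax hag
  by_cases hW0 : W' = []
  · -- substitute `a` for the other letters
    let y : ℕ → T := fun i => if i = p then a else if i = q then g else a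
    have hy : ∀ i, y i * y i = y i := by
      intro i
      change (if i = p then a else if i = q then g else a) *
        (if i = p then a else if i = q then g else a) =
          (if i = p then a else if i = q then g else a)
      split_ifs
      · exact ha
      · exact hg
      · exact ha
    have hyp : y p = a := if_pos rfl
    have hyq : y q = g := by
      change (if q = p then a else if q = q then g else a) = g
      rw [if_neg hpq.symm, if_pos rfl]
    have hyo : ∀ i, i ≠ p → i ≠ q → y i = a := by
      intro i h1 h2
      change (if i = p then a else if i = q then g else a) = a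
      rw [if_neg h1, if_neg h2]
    obtain ⟨k1, k2, -⟩ := Words_core hc ha hg ha ha hag hpq hyp hyq hyo (U := U) (W := W) hU' hW'
    have h3 := congrArg (fun t => a * t) (h w hw y hy)
    simp only [Words_val] at h3
    rw [e1, e2, k1] at h3
    have h4 : a = a * g := by
      rcases k2 hW0 with h5 | h5
      · rw [h5] at h3
        exact h3
      · rw [h5, hag] at h3
        exact h3
    rw [← h4, hax]
  · let y : ℕ → T := fun i => if i = p then a else if i = q then g else x
    have hy : ∀ i, y i * y i = y i := by
      intro i
      change (if i = p then a else if i = q then g else x) *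
        (if i = p then a else if i = q then g else x) =
          (if i = p then a else if i = q then g else x)
      split_ifs
      · exact ha
      · exact hg
      · exact hx
    have hyp : y p = a := if_pos rfl
    have hyq : y q = g := by
      change (if q = p then a else if q = q then g else x) = g
      rw [if_neg hpq.symm, if_pos rfl]
    have hyo : ∀ i, i ≠ p → i ≠ q → y i = x := by
      intro i h1 h2
      change (if i = p then a else if i = q then g else x) = x
      rw [if_neg h1, if_neg h2]
    obtain ⟨k1, -, k2⟩ := Words_core hc ha hg hx hax hag hpq hyp hyq hyo (U := U) (W := W) hU' hW'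
    have h3 := congrArg (fun t => a * t) (h w hw y hy)
    simp only [Words_val] at h3
    rw [e1, e2, k1, k2 hW0] at h3
    exact h3.symm

/-! ### the dual -/

/-- the reversed word -/
private def Words_rev (w : FreeSemigroup ℕ) : FreeSemigroup ℕ :=
  MulOpposite.unop (FreeSemigroup.lift (fun i => MulOpposite.op (FreeSemigroup.of i)) w)

private theorem Words_rev_of (i : ℕ) : Words_rev (FreeSemigroup.of i) = FreeSemigroup.of i := rfl

private theorem Words_rev_mul (w w' : FreeSemigroup ℕ) :
    Words_rev (w * w') = Words_rev w' * Words_rev w := by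
  unfold Words_rev
  rw [map_mul, MulOpposite.unop_mul]

private theorem Words_rev_lift {B : Type*} [Semigroup B] (y : ℕ → Bᵐᵒᵖ) (w : FreeSemigroup ℕ) :
    FreeSemigroup.lift y (Words_rev w) =
      MulOpposite.op (FreeSemigroup.lift (fun i => MulOpposite.unop (y i)) w) := by
  induction w with
  | ih1 i => rfl
  | ih2 i w h1 h2 =>
    rw [Words_rev_mul, map_mul, h1, h2, map_mul, MulOpposite.op_mul]

private theorem Words_letters_mul (w w' : FreeSemigroup ℕ) :
    letters (w * w') = letters w ++ letters w' := rfl

private theorem Words_rev_mem (w : FreeSemigroup ℕ) (i : ℕ) :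
    i ∈ letters (Words_rev w) ↔ i ∈ letters w := by
  induction w with
  | ih1 j => rfl
  | ih2 j w h1 h2 =>
    rw [Words_rev_mul, Words_letters_mul, Words_letters_mul, List.mem_append, List.mem_append,
      h1, h2, or_comm]

private theorem Words_closed_op {B : Type*} [Semigroup B] (hc : IdemClosed B) :
    IdemClosed Bᵐᵒᵖ := by
  intro e f he hf
  have h1 := hc (MulOpposite.unop f) (MulOpposite.unop e) (congrArg MulOpposite.unop hf)
    (congrArg MulOpposite.unop he)
  exact MulOpposite.unop_injective h1

/-- some identity fails in a left regular band -/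
theorem cutR_of {V : List Idty} (hV : SameCont V)
    (hn : ¬ ∀ (B : Type) [Semigroup B], IdemClosed B → IdemLR B → Sat V B)
    {T : Type*} [Semigroup T] (hc : IdemClosed T) (h : Sat V T) : CutR T := by
  have hV' : SameCont (V.map fun w => (Words_rev w.1, Words_rev w.2)) := by
    intro w hw i
    obtain ⟨w', hw', rfl⟩ := List.mem_map.1 hw
    rw [Words_rev_mem, Words_rev_mem]
    exact hV w' hw' i
  have hn' : ¬ ∀ (B : Type) [Semigroup B], IdemClosed B → IdemRR B →
      Sat (V.map fun w => (Words_rev w.1, Words_rev w.2)) B := by
    intro hall
    apply hn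
    intro B _ hcB hlB w hw x hx
    have h1 : IdemRR Bᵐᵒᵖ := by
      intro e f he hf
      have h2 := hlB (MulOpposite.unop e) (MulOpposite.unop f) (congrArg MulOpposite.unop he)
        (congrArg MulOpposite.unop hf)
      apply MulOpposite.unop_injective
      simp only [MulOpposite.unop_mul]
      rw [← mul_assoc]
      exact h2
    have h3 := hall Bᵐᵒᵖ (Words_closed_op hcB) h1 _ (List.mem_map_of_mem hw)
      (fun i => MulOpposite.op (x i)) (fun i => congrArg MulOpposite.op (hx i))
    simp only [Words_rev_lift, MulOpposite.unop_op] at h3
    exact MulOpposite.op_injective h3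
  have hT : Sat (V.map fun w => (Words_rev w.1, Words_rev w.2)) Tᵐᵒᵖ := by
    intro w hw y hy
    obtain ⟨w', hw', rfl⟩ := List.mem_map.1 hw
    rw [Words_rev_lift, Words_rev_lift, h w' hw' (fun i => MulOpposite.unop (y i))
      (fun i => congrArg MulOpposite.unop (hy i))]
  have hcut := cutL_of hV' hn' (Words_closed_op hc) hT
  intro a g x ha hg hx hxa hag
  have h1 := hcut (MulOpposite.op a) (MulOpposite.op g) (MulOpposite.op x)
    (congrArg MulOpposite.op ha) (congrArg MulOpposite.op hg) (congrArg MulOpposite.op hx)
    (congrArg MulOpposite.op hxa) (by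
      apply MulOpposite.unop_injective
      simp only [MulOpposite.unop_mul, MulOpposite.unop_op]
      rw [← mul_assoc]
      exact hag)
  have h2 := congrArg MulOpposite.unop h1
  simp only [MulOpposite.unop_mul, MulOpposite.unop_op] at h2
  rw [← mul_assoc] at h2
  exact h2

end Pool.Agent.H.MP_830e61_lc.VS
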