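import Pool.Agent.H.MP_830e61_lc.VS.Gens
import Pool.Agent.H.MP_830e61_lc.VS.Words

/-!
From the key lemmas to the classification of left (right) factors.
-/

namespace Pool.Agent.H.MP_830e61_lc.VS

open Pool.Agent.H.MP_830e61_lc

universe u

/-! ### generators -/

section

variable {M S : Type*} [Semigroup M] [Semigroup S] (G : Gens M S)

/-- the generators -/
def Gens.gen : S ⊕ S → M := Sum.elim G.g G.g'

/-- their inverses -/
def Gens.gen' : S ⊕ S → M := Sum.elim G.g' G.g

theorem Gens.gen_inv (i : S ⊕ S) : IsInv (G.gen i) (G.gen' i) := by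
  rcases i with u | u
  · exact G.isInv u
  · exact (G.isInv u).symm

theorem Gens.induct {P : M → Prop} (h1 : ∀ u, P (G.g u)) (h2 : ∀ u, P (G.g' u))
    (h3 : ∀ x y, P x → P y → P (x * y)) (m : M) : P m := by
  have hm : m ∈ Subsemigroup.closure (Set.range G.g ∪ Set.range G.g') := by
    rw [G.top]; trivial
  induction hm using Subsemigroup.closure_induction with
  | mem x hx =>
    rcases hx with ⟨u, rfl⟩ | ⟨u, rfl⟩
    · exact h1 u
    · exact h2 u
  | mul x y _ _ hx hy => exact h3 x y hx hy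

include G in
theorem Gens.regular (hc : IdemClosed M) : Regular M := by
  have key : ∀ m : M, ∃ x, IsInv m x := G.induct (fun u => ⟨_, G.isInv u⟩)
    (fun u => ⟨_, (G.isInv u).symm⟩)
    (fun x y ⟨x', hx⟩ ⟨y', hy⟩ => ⟨y' * x', inv_mul hc hx hy⟩)
  intro m
  obtain ⟨x, hx⟩ := key m
  exact ⟨x, hx.1⟩

theorem Gens.first (m : M) : ∃ i, leR m (G.gen i) := by
  refine G.induct (P := fun m => ∃ i, leR m (G.gen i)) (fun u => ⟨Sum.inl u, Or.inl rfl⟩)
    (fun u => ⟨Sum.inr u, Or.inl rfl⟩) ?_ m
  rintro x y ⟨i, hi⟩ -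
  refine ⟨i, Or.inr ?_⟩
  rcases hi with hi | ⟨k, hk⟩
  · exact ⟨y, by rw [← hi]⟩
  · exact ⟨k * y, by rw [hk, mul_assoc]⟩

theorem Gens.last (m : M) : ∃ i, leL m (G.gen i) := by
  refine G.induct (P := fun m => ∃ i, leL m (G.gen i)) (fun u => ⟨Sum.inl u, Or.inl rfl⟩)
    (fun u => ⟨Sum.inr u, Or.inl rfl⟩) ?_ m
  rintro x y - ⟨i, hi⟩
  refine ⟨i, Or.inr ?_⟩
  rcases hi with hi | ⟨k, hk⟩
  · exact ⟨x, by rw [← hi]⟩
  · exact ⟨x * k, by rw [hk, mul_assoc]⟩

end

/-! ### the key property and the bridge -/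

section

variable {M S C ι : Type*} [Semigroup M]

/-- the key property, left version -/
def KeyL (a : S → M) (β : M → C) (ix : M → ι) : Prop :=
  ∀ (s : S) (x z W h : M), β x = β z → ix x = ix z → leL (a s) x → leL (a s) z →
    (W = h ∨ ∃ k, W = k * h) → a s = W * x → ∃ b, a s = b * (h * z)

/-- the key property, right version -/
def KeyR (a : S → M) (β : M → C) (ix : M → ι) : Prop :=
  ∀ (s : S) (x z W h : M), β x = β z → ix x = ix z → leR (a s) x → leR (a s) z →
    (W = h ∨ ∃ k, W = h * k) → a s = x * W → ∃ b, a s = (z * h) * b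

theorem one_or (x : WithOne M) : x = 1 ∨ ∃ m : M, x = (m : WithOne M) := by
  refine WithOne.cases_on x (Or.inl rfl) fun a => Or.inr ⟨a, rfl⟩

theorem leL_iff {a x : M} : (∃ k : WithOne M, (a : WithOne M) = k * (x : WithOne M)) ↔ leL a x := by
  constructor
  · rintro ⟨k, hk⟩
    rcases one_or k with rfl | ⟨m, rfl⟩
    · rw [one_mul] at hk
      exact Or.inl (WithOne.coe_inj.1 hk)
    · rw [← WithOne.coe_mul] at hk
      exact Or.inr ⟨m, WithOne.coe_inj.1 hk⟩
  · rintro (h | ⟨k, hk⟩)
    · exact ⟨1, by rw [one_mul, h]⟩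
    · exact ⟨(k : WithOne M), by rw [← WithOne.coe_mul, hk]⟩

theorem leR_iff {a x : M} : (∃ k : WithOne M, (a : WithOne M) = (x : WithOne M) * k) ↔ leR a x := by
  constructor
  · rintro ⟨k, hk⟩
    rcases one_or k with rfl | ⟨m, rfl⟩
    · rw [mul_one] at hk
      exact Or.inl (WithOne.coe_inj.1 hk)
    · rw [← WithOne.coe_mul] at hk
      exact Or.inr ⟨m, WithOne.coe_inj.1 hk⟩
  · rintro (h | ⟨k, hk⟩)
    · exact ⟨1, by rw [mul_one, h]⟩
    · exact ⟨(k : WithOne M), by rw [← WithOne.coe_mul, hk]⟩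

/-- the classification of right factors -/
theorem bridgeL (a : S → M) (β : M → C) (ix : M → ι) (hk : KeyL a β ix) :
    ∃ cl : WithOne M → Option ((S → Prop) × C × ι),
      ∀ (s : S) (x z h : WithOne M), cl x = cl z → (∃ k, (a s : WithOne M) = k * (h * x)) →
        ∃ k, (a s : WithOne M) = k * (h * z) := by
  let cl : WithOne M → Option ((S → Prop) × C × ι) :=
    WithOne.recOneCoe none fun m => some (fun s => leL (a s) m, β m, ix m)
  have c1 : cl 1 = none := rfl
  have c2 : ∀ m : M, cl (m : WithOne M) = some (fun s => leL (a s) m, β m, ix m) := fun m => rfl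
  refine ⟨cl, ?_⟩
  rintro s x z h hxz ⟨k, h1⟩
  rcases one_or x with rfl | ⟨x, rfl⟩
  · rcases one_or z with rfl | ⟨z, rfl⟩
    · exact ⟨k, h1⟩
    · rw [c1, c2] at hxz
      exact absurd hxz (by simp)
  · rcases one_or z with rfl | ⟨z, rfl⟩
    · rw [c1, c2] at hxz
      exact absurd hxz (by simp)
    · rw [c2, c2, Option.some.injEq, Prod.mk.injEq, Prod.mk.injEq] at hxz
      obtain ⟨h2, h3, h4⟩ := hxz
      have h5 : leL (a s) x := leL_iff.1 ⟨k * h, by rw [h1, mul_assoc]⟩
      have h6 : leL (a s) z := by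
        have := congrFun h2 s
        exact this.mp h5
      rcases one_or h with rfl | ⟨h, rfl⟩
      · obtain ⟨k', hk'⟩ := leL_iff.2 h6
        exact ⟨k', by rw [one_mul, hk']⟩
      · rcases one_or k with rfl | ⟨k, rfl⟩
        · have h7 : a s = h * x := by
            rw [one_mul, ← WithOne.coe_mul] at h1
            exact WithOne.coe_inj.1 h1
          obtain ⟨b, hb⟩ := hk s x z h h h3 h4 h5 h6 (Or.inl rfl) h7
          exact ⟨(b : WithOne M), by rw [← WithOne.coe_mul, ← WithOne.coe_mul, hb]⟩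
        · have h7 : a s = k * h * x := by
            rw [← WithOne.coe_mul, ← WithOne.coe_mul] at h1
            rw [mul_assoc]
            exact WithOne.coe_inj.1 h1
          obtain ⟨b, hb⟩ := hk s x z (k * h) h h3 h4 h5 h6 (Or.inr ⟨k, rfl⟩) h7
          exact ⟨(b : WithOne M), by rw [← WithOne.coe_mul, ← WithOne.coe_mul, hb]⟩

/-- the classification of left factors -/
theorem bridgeR (a : S → M) (β : M → C) (ix : M → ι) (hk : KeyR a β ix) :
    ∃ cl : WithOne M → Option ((S → Prop) × C × ι),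
      ∀ (s : S) (x z h : WithOne M), cl x = cl z → (∃ k, (a s : WithOne M) = (x * h) * k) →
        ∃ k, (a s : WithOne M) = (z * h) * k := by
  let cl : WithOne M → Option ((S → Prop) × C × ι) :=
    WithOne.recOneCoe none fun m => some (fun s => leR (a s) m, β m, ix m)
  have c1 : cl 1 = none := rfl
  have c2 : ∀ m : M, cl (m : WithOne M) = some (fun s => leR (a s) m, β m, ix m) := fun m => rfl
  refine ⟨cl, ?_⟩
  rintro s x z h hxz ⟨k, h1⟩
  rcases one_or x with rfl | ⟨x, rfl⟩
  · rcases one_or z with rfl | ⟨z, rfl⟩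
    · exact ⟨k, h1⟩
    · rw [c1, c2] at hxz
      exact absurd hxz (by simp)
  · rcases one_or z with rfl | ⟨z, rfl⟩
    · rw [c1, c2] at hxz
      exact absurd hxz (by simp)
    · rw [c2, c2, Option.some.injEq, Prod.mk.injEq, Prod.mk.injEq] at hxz
      obtain ⟨h2, h3, h4⟩ := hxz
      have h5 : leR (a s) x := leR_iff.1 ⟨h * k, by rw [h1, mul_assoc]⟩
      have h6 : leR (a s) z := by
        have := congrFun h2 s
        exact this.mp h5
      rcases one_or h with rfl | ⟨h, rfl⟩
      · obtain ⟨k', hk'⟩ := leR_iff.2 h6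
        exact ⟨k', by rw [mul_one, hk']⟩
      · rcases one_or k with rfl | ⟨k, rfl⟩
        · have h7 : a s = x * h := by
            rw [mul_one, ← WithOne.coe_mul] at h1
            exact WithOne.coe_inj.1 h1
          obtain ⟨b, hb⟩ := hk s x z h h h3 h4 h5 h6 (Or.inl rfl) h7
          exact ⟨(b : WithOne M), by rw [← WithOne.coe_mul, ← WithOne.coe_mul, hb]⟩
        · have h7 : a s = x * (h * k) := by
            rw [← WithOne.coe_mul, ← WithOne.coe_mul] at h1
            rw [← mul_assoc]
            exact WithOne.coe_inj.1 h1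
          obtain ⟨b, hb⟩ := hk s x z (h * k) h h3 h4 h5 h6 (Or.inr ⟨k, rfl⟩) h7
          exact ⟨(b : WithOne M), by rw [← WithOne.coe_mul, ← WithOne.coe_mul, hb]⟩

end

/-! ### the dual key lemmas -/

section

open MulOpposite

variable {T : Type*} [Semigroup T]

theorem isInv_op {a x : T} (h : IsInv a x) : IsInv (op a) (op x) := by
  constructor
  · apply unop_injective
    show a * (x * a) = a
    rw [← mul_assoc, h.1]
  · apply unop_injective
    show x * (a * x) = x
    rw [← mul_assoc, h.2]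

theorem isInv_of_op {a x : T} (h : IsInv (op a) (op x)) : IsInv a x := by
  constructor
  · have := congrArg unop h.1
    have h2 : a * (x * a) = a := this
    rw [mul_assoc, h2]
  · have := congrArg unop h.2
    have h2 : x * (a * x) = x := this
    rw [mul_assoc, h2]

theorem idem_op {e : T} (he : e * e = e) : op e * op e = op e := by
  apply unop_injective
  exact he

theorem idem_unop {e : Tᵐᵒᵖ} (he : e * e = e) : unop e * unop e = unop e :=
  congrArg unop he

theorem star_op (h : StarR T) : StarL Tᵐᵒᵖ := by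
  intro x y z w hx hy hz hw
  have := h (unop x) (unop y) (unop z) (unop w) (idem_unop hx) (idem_unop hy) (idem_unop hz)
    (idem_unop hw)
  apply unop_injective
  simp only [unop_mul]
  simp only [mul_assoc] at this ⊢
  exact this

theorem cut_op (h : CutR T) : CutL Tᵐᵒᵖ := by
  intro a b x ha hb hx h1 h2
  have h3 : unop x * unop a = unop a := congrArg unop h1
  have h4 : unop a * (unop b * unop a) = unop a := congrArg unop h2
  have := h (unop a) (unop b) (unop x) (idem_unop ha) (idem_unop hb) (idem_unop hx) h3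
    (by rw [mul_assoc]; exact h4)
  apply unop_injective
  show unop x * (unop b * unop a) = unop a
  rw [← mul_assoc, this]

theorem keyK' {T : Type u} [Semigroup T] (hreg : Regular T) (hc : IdemClosed T) (hs : StarR T)
    {a a' x z f x' W : T} (ha : IsInv a a') (hx : IsInv x x') (hz : IsInv z x') (hf : f * f = f)
    (fx : x * f = x) (fz : z * f = z) (hax : x * x' * a = a) (haz : z * x' * a = a)
    (haW : a = x * W) : a = z * (W * (a' * a)) := by
  have := keyK (op_regular hreg) (op_closed hc) (star_op hs) (isInv_op ha) (isInv_op hx)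
    (isInv_op hz) (idem_op hf) (f := op f) (x := op x) (z := op z) (a := op a) (W := op W)
    (congrArg op fx) (congrArg op fz)
    (by apply unop_injective; show x * (x' * a) = a; rw [← mul_assoc, hax])
    (by apply unop_injective; show z * (x' * a) = a; rw [← mul_assoc, haz])
    (congrArg op haW)
  exact congrArg unop this

theorem keyP' {T : Type u} [Semigroup T] (hreg : Regular T) (hc : IdemClosed T) (hp : CutR T)
    {a a' h z z' W : T} (ha : IsInv a a') (hz : IsInv z z') (haz : z * z' * a = a)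
    (hW : W = h ∨ ∃ k, W = h * k) (hγ : ∃ x, IsInv (a * a' * (z * W)) x ∧ IsInv a x) :
    ∃ b, a = (z * h) * b := by
  obtain ⟨x, h1, h2⟩ := hγ
  obtain ⟨b, hb⟩ := keyP (op_regular hreg) (op_closed hc) (cut_op hp) (isInv_op ha)
    (isInv_op hz) (a := op a) (z := op z) (W := op W) (h := op h)
    (by apply unop_injective; show z * (z' * a) = a; rw [← mul_assoc, haz])
    (by
      rcases hW with rfl | ⟨k, rfl⟩
      · exact Or.inl rfl
      · exact Or.inr ⟨op k, rfl⟩)
    ⟨op x, isInv_op h1, isInv_op h2⟩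
  exact ⟨unop b, congrArg unop hb⟩

end

/-! ### the four cases -/

section

variable {M S C ι : Type*} [Semigroup M] [Semigroup S] [Semigroup C]

theorem below_inv {a z x' : M} (hz : IsInv z x') (h : leL a z) : a * x' * z = a := by
  rcases h with rfl | ⟨k, rfl⟩
  · exact hz.1
  · calc k * z * x' * z = k * (z * x' * z) := by simp only [mul_assoc]
      _ = k * z := by rw [hz.1]

theorem below_inv' {a z x' : M} (hz : IsInv z x') (h : leR a z) : z * x' * a = a := by
  rcases h with rfl | ⟨k, rfl⟩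
  · exact hz.1
  · calc z * x' * (z * k) = (z * x' * z) * k := by simp only [mul_assoc]
      _ = z * k := by rw [hz.1]

theorem fix_first {x c c' : M} (hc : IsInv c c') (h : leR x c) : c * c' * x = x :=
  below_inv' hc h

theorem fix_last {x c c' : M} (hc : IsInv c c') (h : leL x c) : x * (c' * c) = x := by
  rw [← mul_assoc]
  exact below_inv hc h

theorem keyL_star (hreg : Regular M) (hc : IdemClosed M) (hs : StarL M) (G : Gens M S)
    (β : M →ₙ* C) (ix : M → S ⊕ S) (hix : ∀ m, leR m (G.gen (ix m)))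
    (hcom : ∀ s x z, β x = β z → leL (G.g s) x → ∀ x', IsInv x x' → IsInv z x') :
    KeyL G.g β ix := by
  intro s x z W h h1 h2 h3 h4 h5 h6
  obtain ⟨x', hx⟩ := exists_inv hreg x
  have hz := hcom s x z h1 h3 x' hx
  have hf := G.gen_inv (ix x)
  have fx := fix_first hf (hix x)
  have fz : G.gen (ix x) * G.gen' (ix x) * z = z := fix_first hf (by rw [h2]; exact hix z)
  have key := keyK hreg hc hs (G.isInv s) hx hz hf.left fx fz (below_inv hx h3)
    (below_inv hz h4) h6
  rcases h5 with rfl | ⟨k, rfl⟩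
  · exact ⟨G.g s * G.g' s, by rw [← mul_assoc]; exact key⟩
  · exact ⟨G.g s * G.g' s * k, by simp only [mul_assoc] at key ⊢; exact key⟩

theorem keyR_star (hreg : Regular M) (hc : IdemClosed M) (hs : StarR M) (G : Gens M S)
    (β : M →ₙ* C) (ix : M → S ⊕ S) (hix : ∀ m, leL m (G.gen (ix m)))
    (hcom : ∀ s x z, β x = β z → leR (G.g s) x → ∀ x', IsInv x x' → IsInv z x') :
    KeyR G.g β ix := by
  intro s x z W h h1 h2 h3 h4 h5 h6
  obtain ⟨x', hx⟩ := exists_inv hreg x
  have hz := hcom s x z h1 h3 x' hx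
  have hf := G.gen_inv (ix x)
  have fx := fix_last hf (hix x)
  have fz : z * (G.gen' (ix x) * G.gen (ix x)) = z := fix_last hf (by rw [h2]; exact hix z)
  have key := keyK' hreg hc hs (G.isInv s) hx hz hf.right fx fz (below_inv' hx h3)
    (below_inv' hz h4) h6
  rcases h5 with rfl | ⟨k, rfl⟩
  · exact ⟨G.g' s * G.g s, by rw [mul_assoc]; exact key⟩
  · exact ⟨k * (G.g' s * G.g s), by simp only [mul_assoc] at key ⊢; exact key⟩

theorem keyL_cut (hreg : Regular M) (hc : IdemClosed M) (hp : CutL M) (G : Gens M S)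
    (β : M →ₙ* C) (ix : M → ι)
    (hcut : ∀ s t, β t = β (G.g s) → IsInv (t * (G.g' s * G.g s)) (G.g' s)) :
    KeyL G.g β ix := by
  intro s x z W h h1 h2 h3 h4 h5 h6
  obtain ⟨z', hz⟩ := exists_inv hreg z
  exact keyP hreg hc hp (G.isInv s) hz (below_inv hz h4) h5
    ⟨G.g' s, hcut s (W * z) (by rw [map_mul, ← h1, ← map_mul, ← h6]), G.isInv s⟩

theorem keyR_cut (hreg : Regular M) (hc : IdemClosed M) (hp : CutR M) (G : Gens M S)
    (β : M →ₙ* C) (ix : M → ι)
    (hcut : ∀ s t, β t = β (G.g s) → IsInv (G.g s * G.g' s * t) (G.g' s)) :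
    KeyR G.g β ix := by
  intro s x z W h h1 h2 h3 h4 h5 h6
  obtain ⟨z', hz⟩ := exists_inv hreg z
  exact keyP' hreg hc hp (G.isInv s) hz (below_inv' hz h4) h5
    ⟨G.g' s, hcut s (z * W) (by rw [map_mul, ← h1, ← map_mul, ← h6]), G.isInv s⟩

end

end Pool.Agent.H.MP_830e61_lc.VS
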