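import Pool.Agent.H.MP_830e61_lc.Reg

/-!
Inverses in orthodox semigroups; the key lemma when the variety does not contain the right regular
bands.
-/

namespace Pool.Agent.H.MP_830e61_lc

/-- `x` is an inverse of `a` -/
def IsI {T : Type*} [Semigroup T] (x a : T) : Prop := a * x * a = a ∧ x * a * x = x

section

variable {T : Type*} [Semigroup T]

theorem IsI.symm {x a : T} (h : IsI x a) : IsI a x := ⟨h.2, h.1⟩

theorem IsI.idem_left {x a : T} (h : IsI x a) : (x * a) * (x * a) = x * a := by
  rw [← mul_assoc, h.2]

theorem IsI.idem_right {x a : T} (h : IsI x a) : (a * x) * (a * x) = a * x := by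
  rw [← mul_assoc, h.1]

theorem exists_isI (h : Regular T) (a : T) : ∃ x, IsI x a := by
  obtain ⟨x, hx⟩ := h a
  refine ⟨x * a * x, ?_, ?_⟩
  · calc a * (x * a * x) * a = (a * x * a) * x * a := by simp only [mul_assoc]
      _ = a := by rw [hx, hx]
  · calc x * a * x * a * (x * a * x) = x * ((a * x * a) * x * a) * x := by simp only [mul_assoc]
      _ = x * a * x := by rw [hx, hx]

/-- the dual of `pep` -/
theorem pep' (hc : IdemClosed T) {e f p : T} (he : e * e = e) (hp : p * p = p)
    (hef : e * f = f) (hpf : p * f = p) : p * e * p = p := by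
  have h1 : (p * e) * f = p := by rw [mul_assoc, hef, hpf]
  have h2 := hc p e hp he
  calc p * e * p = (p * e) * ((p * e) * f) := by rw [h1]
    _ = ((p * e) * (p * e)) * f := by simp only [mul_assoc]
    _ = p := by rw [h2, h1]

/-- if `x` is a common inverse of `a` and `b` then every inverse of `a` is an inverse of `b` -/
theorem IsI.trans (hc : IdemClosed T) {a b x y : T} (h1 : IsI x a) (h2 : IsI x b)
    (h3 : IsI y a) : IsI y b := by
  -- `(a y) (b x) = a x`
  have k1 : (b * x) * (a * y) * (b * x) = b * x := by
    apply pep' hc (f := a * x) h3.idem_right h2.idem_right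
    · rw [← mul_assoc, h3.1]
    · calc b * x * (a * x) = b * (x * a * x) := by simp only [mul_assoc]
        _ = b * x := by rw [h1.2]
  have k2 : (a * y) * (b * x) = a * x := by
    have e1 : (a * x) * (b * x) = a * x := by
      calc (a * x) * (b * x) = a * (x * b * x) := by simp only [mul_assoc]
        _ = a * x := by rw [h2.2]
    have e2 : (a * x) * (a * y) = a * y := by rw [← mul_assoc, h1.1]
    calc (a * y) * (b * x) = ((a * x) * (a * y)) * (b * x) := by rw [e2]
      _ = ((a * x) * (b * x)) * (a * y) * (b * x) := by rw [e1]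
      _ = (a * x) * ((b * x) * (a * y) * (b * x)) := by simp only [mul_assoc]
      _ = a * x := by rw [k1, e1]
  -- `(x b) (y a) = x a`
  have k3 : (x * b) * (y * a) * (x * b) = x * b := by
    apply pep hc (f := x * a) h3.idem_left h2.idem_left
    · calc (x * a) * (y * a) = x * (a * y * a) := by simp only [mul_assoc]
        _ = x * a := by rw [h3.1]
    · rw [← mul_assoc, h1.2]
  have k4 : (x * b) * (y * a) = x * a := by
    have e1 : (x * b) * (x * a) = x * a := by rw [← mul_assoc, h2.2]
    have e2 : (y * a) * (x * a) = y * a := by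
      calc (y * a) * (x * a) = y * (a * x * a) := by simp only [mul_assoc]
        _ = y * a := by rw [h1.1]
    calc (x * b) * (y * a) = (x * b) * ((y * a) * (x * a)) := by rw [e2]
      _ = (x * b) * (y * a) * ((x * b) * (x * a)) := by rw [e1]; simp only [mul_assoc]
      _ = ((x * b) * (y * a) * (x * b)) * (x * a) := by simp only [mul_assoc]
      _ = x * a := by rw [k3, e1]
  have k5 : y * b = (y * a) * (x * b) := by
    calc y * b = y * (b * x * b) := by rw [h2.1]
      _ = (y * a * y) * (b * x * b) := by rw [h3.2]
      _ = y * ((a * y) * (b * x)) * b := by simp only [mul_assoc]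
      _ = (y * a) * (x * b) := by rw [k2]; simp only [mul_assoc]
  constructor
  · calc b * y * b = (b * x * b) * (y * b) := by rw [h2.1, mul_assoc]
      _ = b * ((x * b) * (y * a) * (x * b)) := by rw [k5]; simp only [mul_assoc]
      _ = b := by rw [k3, ← mul_assoc, h2.1]
  · calc y * b * y = (y * a) * (x * b) * (y * a * y) := by rw [k5, h3.2]
      _ = (y * a) * ((x * b) * (y * a)) * y := by simp only [mul_assoc]
      _ = y * (a * x * a) * y := by rw [k4]; simp only [mul_assoc]
      _ = y := by rw [h1.1, h3.2]

/-- products of inverses -/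
theorem IsI.mul (hc : IdemClosed T) {a b x y : T} (h1 : IsI x a) (h2 : IsI y b) :
    IsI (y * x) (a * b) := by
  have e1 := hc _ _ h1.idem_left h2.idem_right
  have e2 := hc _ _ h2.idem_right h1.idem_left
  constructor
  · calc a * b * (y * x) * (a * b) = a * (b * y) * (x * a) * b := by simp only [mul_assoc]
      _ = (a * x * a) * (b * y) * (x * a) * (b * y * b) := by rw [h1.1, h2.1]
      _ = a * ((x * a) * (b * y) * ((x * a) * (b * y))) * b := by simp only [mul_assoc]
      _ = a * ((x * a) * (b * y)) * b := by rw [e1]
      _ = (a * x * a) * (b * y * b) := by simp only [mul_assoc]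
      _ = a * b := by rw [h1.1, h2.1]
  · calc y * x * (a * b) * (y * x) = y * (x * a) * (b * y) * x := by simp only [mul_assoc]
      _ = (y * b * y) * (x * a) * (b * y) * (x * a * x) := by rw [h1.2, h2.2]
      _ = y * ((b * y) * (x * a) * ((b * y) * (x * a))) * x := by simp only [mul_assoc]
      _ = y * ((b * y) * (x * a)) * x := by rw [e2]
      _ = (y * b * y) * (x * a * x) := by simp only [mul_assoc]
      _ = y * x := by rw [h1.2, h2.2]

end

/-- the key lemma, case B: no right regular bands in the variety -/
theorem key_B {M : Type*} [Monoid M] (hc : IdemClosed M)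
    (hB : ∀ e m r : M, e * e = e → m * m = m → r * r = r → e * m = m → m * e = e → e * r = e →
      m * r = m → e = m) {α α' w h x z l c : M} (hα : IsI α' α) (h1 : w * h * x = α)
    (h2 : l * z = α) {z' : M} (hz : IsI z' z) (hx : IsI c (x * (α' * α)))
    (hz' : IsI c (z * (α' * α))) : α * α' * w * h * z = α := by
  obtain ⟨b, hb⟩ : ∃ b, b = α' * α := ⟨_, rfl⟩
  have hbb : b * b = b := by rw [hb]; exact hα.idem_left
  have hαb : α * b = α := by rw [hb, ← mul_assoc, hα.1]
  rw [← hb] at hx hz'
  -- `t x = b`
  obtain ⟨t, ht⟩ : ∃ t, t = α' * w * h := ⟨_, rfl⟩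
  have htx : t * x = b := by
    calc t * x = α' * (w * h * x) := by rw [ht]; simp only [mul_assoc]
      _ = b := by rw [h1, hb]
  have ht1 : IsI (b * t) (x * b) := by
    constructor
    · calc x * b * (b * t) * (x * b) = x * (b * b) * (t * x) * b := by simp only [mul_assoc]
        _ = x * b := by rw [htx, hbb, mul_assoc x b b, hbb, mul_assoc x b b, hbb]
    · calc b * t * (x * b) * (b * t) = b * (t * x) * (b * b) * t := by simp only [mul_assoc]
        _ = (b * b) * b * t := by rw [htx, hbb]
        _ = b * t := by rw [hbb, hbb]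
  have ht2 : IsI (b * t) (z * b) := hx.trans hc hz' ht1
  -- `m = b t z b = b`
  have m1 : (b * t) * (z * b) * b = (b * t) * (z * b) := by
    calc (b * t) * (z * b) * b = (b * t) * (z * (b * b)) := by simp only [mul_assoc]
      _ = (b * t) * (z * b) := by rw [hbb]
  have m2 : (b * t) * (z * b) * b = b := by
    calc (b * t) * (z * b) * b = (b * t) * (z * b) * (b * (t * x) * b) := by
          rw [htx, hbb, hbb]
      _ = ((b * t) * (z * b) * (b * t)) * x * b := by simp only [mul_assoc]
      _ = b * (t * x) * b := by rw [ht2.2]; simp only [mul_assoc]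
      _ = b := by rw [htx, hbb, hbb]
  have m3 : b * t * z * b = b := by
    calc b * t * z * b = (b * t) * (z * b) := by simp only [mul_assoc]
      _ = b := by rw [← m1, m2]
  -- `m' = b t z`
  have htz : b * t = t := by
    rw [hb, ht]
    calc α' * α * (α' * w * h) = (α' * α * α') * w * h := by simp only [mul_assoc]
      _ = α' * w * h := by rw [hα.2]
  rw [htz] at m3
  have m4 : b * (t * z) = t * z := by rw [← mul_assoc, htz]
  have m5 : (t * z) * b = b := m3
  have m6 : (t * z) * (t * z) = t * z := by
    calc (t * z) * (t * z) = (t * z) * (b * (t * z)) := by rw [m4]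
      _ = ((t * z) * b) * (t * z) := (mul_assoc _ _ _).symm
      _ = t * z := by rw [m5, m4]
  have hr1 : b * (z' * z) = b := by
    calc b * (z' * z) = α' * (α * z' * z) := by rw [hb]; simp only [mul_assoc]
      _ = α' * (l * (z * z' * z)) := by rw [← h2]; simp only [mul_assoc]
      _ = b := by rw [hz.1, h2, hb]
  have hr2 : (t * z) * (z' * z) = t * z := by
    calc (t * z) * (z' * z) = t * (z * z' * z) := by simp only [mul_assoc]
      _ = t * z := by rw [hz.1]
  have hfin : b = t * z := hB b (t * z) (z' * z) hbb m6 hz.idem_left m4 m5 hr1 hr2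
  calc α * α' * w * h * z = α * (t * z) := by rw [ht]; simp only [mul_assoc]
    _ = α := by rw [← hfin, hαb]

/-- the key lemma, case A -/
theorem key_A {M : Type*} [Monoid M]
    (hA : ∀ f e g n : M, f * f = f → e * e = e → g * g = g → n * n = n → f * e = e → f * g = g →
      e * g = e → g * e = g → e * n = n → n * e = n * g)
    {α α' w h x z l c f : M} (hα : IsI α' α) (h1 : w * h * x = α)
    (h2 : l * z = α) (hx : IsI c x) (hz : IsI c z) (hf : f * f = f) (hfx : f * x = x)
    (hfz : f * z = z) : α * α' * w * h * z = α := by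
  obtain ⟨b, hb⟩ : ∃ b, b = α' * α := ⟨_, rfl⟩
  have hbb : b * b = b := by rw [hb]; exact hα.idem_left
  have hαb : α * b = α := by rw [hb, ← mul_assoc, hα.1]
  obtain ⟨t, ht⟩ : ∃ t, t = α' * w * h := ⟨_, rfl⟩
  have htx : t * x = b := by
    calc t * x = α' * (w * h * x) := by rw [ht]; simp only [mul_assoc]
      _ = b := by rw [h1, hb]
  have htz : b * t = t := by
    rw [hb, ht]
    calc α' * α * (α' * w * h) = (α' * α * α') * w * h := by simp only [mul_assoc]
      _ = α' * w * h := by rw [hα.2]
  have hn : (x * t) * (x * t) = x * t := by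
    calc (x * t) * (x * t) = x * ((t * x) * t) := by simp only [mul_assoc]
      _ = x * t := by rw [htx, htz]
  have he : (x * c) * (x * t) = x * t := by rw [← mul_assoc, hx.1]
  have k := hA f (x * c) (z * c) (x * t) hf hx.idem_right hz.idem_right hn
    (by rw [← mul_assoc, hfx]) (by rw [← mul_assoc, hfz])
    (by calc x * c * (z * c) = x * (c * z * c) := by simp only [mul_assoc]
          _ = x * c := by rw [hz.2])
    (by calc z * c * (x * c) = z * (c * x * c) := by simp only [mul_assoc]
          _ = z * c := by rw [hx.2]) he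
  have k2 : t * x * c = t * z * c := by
    have e1 : t * (x * t) = t := by rw [← mul_assoc, htx, htz]
    calc t * x * c = (t * (x * t)) * (x * c) := by rw [e1, mul_assoc]
      _ = t * ((x * t) * (x * c)) := by simp only [mul_assoc]
      _ = t * ((x * t) * (z * c)) := by rw [k]
      _ = (t * (x * t)) * (z * c) := by simp only [mul_assoc]
      _ = t * z * c := by rw [e1, mul_assoc]
  have k3 : b * (c * z) = b := by
    calc b * (c * z) = α' * (l * z) * (c * z) := by rw [hb, h2]
      _ = α' * (l * (z * c * z)) := by simp only [mul_assoc]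
      _ = b := by rw [hz.1, h2, hb]
  have k4 : t * z = b := by
    calc t * z = t * (z * c * z) := by rw [hz.1]
      _ = (t * z * c) * z := by simp only [mul_assoc]
      _ = (t * x * c) * z := by rw [k2]
      _ = b * (c * z) := by rw [htx, mul_assoc]
      _ = b := k3
  calc α * α' * w * h * z = α * (t * z) := by rw [ht]; simp only [mul_assoc]
    _ = α := by rw [k4, hαb]

end Pool.Agent.H.MP_830e61_lc
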