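import Pool.Agent.H.MP_830e61_lc.VS.Gens

/-!
The finite control semigroup, right regular version.
-/

namespace Pool.Agent.H.MP_830e61_lc.VS

open Pool.Agent.H.MP_830e61_lc

universe u

section Aux

variable {S : Type*} [Semigroup S] {T : Type*} [Monoid T] (I : InvFun T) (hr : IdemRR T)
  (φ : S →ₙ* T)

theorem Ctl_mu_some {u : S} {y w : Yset I φ} (h : (mu I hr φ u).1 y = some w) :
    (∃ z : Yset I φ, y.1 = φ u * z.1) ∧ w.1 = I.inv (φ u) * y.1 := by
  unfold mu at h
  dsimp only at h
  split_ifs at h with h1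
  rw [Option.some.injEq] at h
  exact ⟨h1, by rw [← h]⟩

theorem Ctl_mu_lam_mu (u : S) : mu I hr φ u * lam I φ u * mu I hr φ u = mu I hr φ u := by
  apply Subtype.ext
  funext y
  show (((mu I hr φ u).1 * (lam I φ u).1) * (mu I hr φ u).1) y = (mu I hr φ u).1 y
  rw [PMap.mul_apply]
  cases h : (mu I hr φ u).1 y with
  | none => rfl
  | some w =>
    show ((mu I hr φ u).1 * (lam I φ u).1) w = some w
    obtain ⟨⟨z, hz⟩, hw⟩ := Ctl_mu_some I hr φ h
    have hl : (lam I φ u).1 w = some y := by
      show some _ = some _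
      congr 1
      apply Subtype.ext
      show φ u * w.1 = y.1
      rw [hw, hz, ← mul_assoc, ← mul_assoc, I.h1]
    rw [PMap.mul_apply, hl]
    exact h

theorem Ctl_lam_some {u : S} {y w : Yset I φ} (h : (lam I φ u).1 y = some w) :
    w.1 = φ u * y.1 := by
  unfold lam at h
  dsimp only at h
  rw [Option.some.injEq] at h
  rw [← h]

end Aux

/-
PROOF of `exists_ctlQ`.  (J, π) from `gam_quot hreg hc` (Gam.lean); N := WithOne J is a regular
monoid with commuting idempotents (`withOne_regular`, `withOne_idem` in Bound.lean), so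
`IdemClosed N`, `IdemRR N` (`comm_closed`, `comm_RR`, Gam.lean).  I : InvFun N from `exists_invFun`;
φ̄ := WithOne.coeMulHom.comp (π.comp φ) : S →ₙ* N.  C := Qs I φ̄ (Trunc.lean), c u := lam I φ̄ u,
c' u := mu I hr φ̄ u.  Qs_closed, Qs_RR, lam_mul, lam_mu_lam are in Trunc.lean; mu * lam * mu = mu:
mu is defined at y iff y = φ̄ u z with z in Y, value inv(φ̄ u) y, and lam (mu y) = y.
Card: as in `rr_monoid` (Bound.lean): card_Y gives Finite Y and Nat.card Y ≤ (n+1)(n+1)^n, so
Nat.card (PMap Y) = (card Y + 1)^(card Y) ≤ bd n, and Qs is a subtype of PMap Y.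
Invariant (closure induction on G.top): for all m and all y z, (β m).1 y = some z →
z.1 = (π (α m) : N) * y.1.  For m = G.g' u one needs (π (i u) : N) = I.inv (φ̄ u): both are inverses
of φ̄ u in N: `inv_unique` (Gam.lean, namespace VS).
Last property: leL (G.g s) x gives c s = β x or c s = q * β x; (c s).1 at the base point
⟨1, one_mem_Y⟩ is some, so (β x).1 at the base point is some y0 and y0 = π (α x) * 1; the same for
z because β x = β z; so π (α x) = π (α z) (WithOne.coe_inj) and the fourth part of `gam_quot`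
gives Gm (α x) (α z).
-/

/-- **Control, right regular version.**  `Q` is the semigroup `Qs` of partial maps for
`WithOne J`, `J = T/γ`. -/
theorem exists_ctlQ {S : Type u} [Semigroup S] [Finite S] {T : Type u} [Semigroup T]
    (hreg : Regular T) (hc : IdemClosed T) (φ : S →ₙ* T) (i : S → T)
    (hi : ∀ u, IsInv (φ u) (i u)) :
    ∃ (C : Type u) (_ : Semigroup C) (c : S →ₙ* C) (c' : S → C), Finite C ∧
      Nat.card C ≤ bd (Nat.card S) ∧ IdemClosed C ∧ IdemRR C ∧ (∀ u, IsInv (c u) (c' u)) ∧
      ∀ (M : Type u) [Semigroup M] (G : Gens M S) (α : M →ₙ* T) (β : M →ₙ* C),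
        (∀ u, α (G.g u) = φ u) → (∀ u, α (G.g' u) = i u) → (∀ u, β (G.g u) = c u) →
        (∀ u, β (G.g' u) = c' u) →
        ∀ x z, β x = β z → (∃ s, leL (G.g s) x) → Gm (α x) (α z) := by
  classical
  obtain ⟨J, iJ, π, hπ, hJreg, hJcm, hker, -⟩ := gam_quot hreg hc
  have hNreg : Regular (WithOne J) := withOne_regular hJreg
  have hNcm : ∀ e f : WithOne J, e * e = e → f * f = f → e * f = f * e := by
    intro e f he hf
    rcases withOne_idem he with rfl | ⟨e0, he0, rfl⟩
    · simp
    rcases withOne_idem hf with rfl | ⟨f0, hf0, rfl⟩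
    · simp
    exact_mod_cast hJcm e0 f0 he0 hf0
  have hNc : IdemClosed (WithOne J) := comm_closed hNcm
  have hNr : IdemRR (WithOne J) := comm_RR hNcm
  obtain ⟨I⟩ := exists_invFun hNreg
  let ψ : S →ₙ* WithOne J := WithOne.coeMulHom.comp (π.comp φ)
  have hψ : ∀ u, ψ u = ((π (φ u) : J) : WithOne J) := fun u => rfl
  obtain ⟨hY, hYc⟩ := card_Y I hNc hNr ψ
  haveI : Finite (Yset I ψ) := hY
  haveI : Finite (PMap (Yset I ψ)) := inferInstanceAs (Finite (Yset I ψ → Option (Yset I ψ)))
  let c : S →ₙ* Qs I ψ := ⟨fun u => lam I ψ u, fun u v => lam_mul I ψ u v⟩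
  refine ⟨Qs I ψ, inferInstance, c, fun u => mu I hNr ψ u, inferInstance, ?_,
    Qs_closed I hNc hNr ψ, Qs_RR I hNc hNr ψ,
    fun u => ⟨lam_mu_lam I hNr ψ u, Ctl_mu_lam_mu I hNr ψ u⟩, ?_⟩
  · have h1 : Nat.card (Qs I ψ) ≤ Nat.card (PMap (Yset I ψ)) := by
      apply Nat.card_le_card_of_injective (fun r : Qs I ψ => (r.1 : PMap (Yset I ψ)))
      intro a b h
      exact Subtype.ext h
    have h2 : Nat.card (PMap (Yset I ψ)) =
        (Nat.card (Yset I ψ) + 1) ^ Nat.card (Yset I ψ) := by
      show Nat.card (Yset I ψ → Option (Yset I ψ)) = _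
      haveI := Fintype.ofFinite (Yset I ψ)
      simp only [Nat.card_eq_fintype_card, Fintype.card_pi, Fintype.card_option,
        Finset.prod_const, Finset.card_univ]
    rw [h2] at h1
    refine h1.trans ?_
    unfold bd
    exact (Nat.pow_le_pow_left (Nat.succ_le_succ hYc) _).trans
      (Nat.pow_le_pow_right (Nat.succ_pos _) hYc)
  · intro M _ G α β hα hα' hβ hβ' x z hxz hL
    have hinv : ∀ m : M, ∀ y z : Yset I ψ, (β m).1 y = some z →
        z.1 = ((π (α m) : J) : WithOne J) * y.1 := by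
      intro m
      have hm : m ∈ Subsemigroup.closure (Set.range G.g ∪ Set.range G.g') := by
        rw [G.top]
        exact Subsemigroup.mem_top m
      induction hm using Subsemigroup.closure_induction with
      | mem a ha =>
        rcases ha with ⟨u, rfl⟩ | ⟨u, rfl⟩
        · intro y w h
          rw [hβ] at h
          rw [hα, ← hψ]
          exact Ctl_lam_some I ψ h
        · intro y w h
          rw [hβ'] at h
          obtain ⟨-, hw⟩ := Ctl_mu_some I hNr ψ h
          have h1 : IsInv (ψ u) ((π (i u) : J) : WithOne J) := by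
            rw [hψ]
            constructor
            · rw [← WithOne.coe_mul, ← WithOne.coe_mul, ← map_mul, ← map_mul, (hi u).1]
            · rw [← WithOne.coe_mul, ← WithOne.coe_mul, ← map_mul, ← map_mul, (hi u).2]
          have h2 : I.inv (ψ u) = ((π (i u) : J) : WithOne J) :=
            inv_unique hNcm ⟨I.h1 _, I.h2 _⟩ h1
          rw [hw, hα', h2]
      | mul a b _ _ ha hb =>
        intro y w h
        rw [map_mul] at h
        have h' : ((β a).1 * (β b).1) y = some w := h
        rw [PMap.mul_apply, Option.bind_eq_some_iff] at h'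
        obtain ⟨t, h1, h2⟩ := h'
        rw [ha t w h2, hb y t h1, map_mul, map_mul, WithOne.coe_mul, mul_assoc]
    obtain ⟨s, hs⟩ := hL
    have hbase : ∃ w, (β x).1 ⟨1, one_mem_Y I ψ⟩ = some w := by
      have hc1 : (β (G.g s)).1 ⟨1, one_mem_Y I ψ⟩ =
          some ⟨ψ s * 1, phi_mul_mem I ψ s (one_mem_Y I ψ)⟩ := by
        rw [hβ]
        rfl
      rcases hs with hs | ⟨k, hk⟩
      · rw [hs] at hc1
        exact ⟨_, hc1⟩
      · rw [hk, map_mul] at hc1
        have h' : ((β k).1 * (β x).1) ⟨1, one_mem_Y I ψ⟩ =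
          some ⟨ψ s * 1, phi_mul_mem I ψ s (one_mem_Y I ψ)⟩ := hc1
        rw [PMap.mul_apply, Option.bind_eq_some_iff] at h'
        obtain ⟨w, h1, -⟩ := h'
        exact ⟨w, h1⟩
    obtain ⟨w, hw⟩ := hbase
    have e1 := hinv x _ _ hw
    rw [hxz] at hw
    have e2 := hinv z _ _ hw
    rw [e1] at e2
    simp only [mul_one] at e2
    exact (hker _ _).1 (WithOne.coe_inj.1 e2)

end Pool.Agent.H.MP_830e61_lc.VS
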