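import Pool.Agent.H.MP_830e61_lc.VS.Gens
import Pool.Agent.H.MP_830e61_lc.VS.QInv

/-!
The finite control semigroup with commuting idempotents.
-/

namespace Pool.Agent.H.MP_830e61_lc.VS

open Pool.Agent.H.MP_830e61_lc

universe u

/-
PROOF of `exists_ctlK`.  (J, π) from `gam_quot hreg hc` (Gam.lean); everything about partial
injections is in QInv.lean (namespace Pool.Agent.H.MP_830e61_lc): I : SInv J from `exists_SInv`,
φ̄ := π.comp φ : S →ₙ* J, C := PInj (Yinv I φ̄), c u := lamI I φ̄ u (a hom by `lamI_mul`),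
c' u := muI I φ̄ u, inverses by `lam_mu_lamI`, `mu_lam_muI`; commuting idempotents `PInj_comm`;
`card_PInj`: card ≤ ((n+1) n + 1)^((n+1) n) ≤ bd n = ((n+1)(n+1)^n+1)^((n+1)(n+1)^n) (for n = 0
both sides are fine: exponent 0; for n ≥ 1 n ≤ (n+1)^n).
Invariant (closure induction on G.top): Ev I φ̄ (β m).1 (π (α m)) for every m : M (`Ev_lamI`,
`Ev_muI`, `Ev_mul`); for m = G.g' u one needs π (i u) = I.inv (φ̄ u): both are inverses of φ̄ u in J,
use the uniqueness of inverses (`VS.inv_unique` in Gam.lean).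
If β x = c s = lamI s then by `lamI_base` (β x).1 (base s) = some ⟨φ̄ s * (inv (φ̄ s) * φ̄ s), _⟩, so by
the invariant φ̄ s = φ̄ s * (inv(φ̄ s) * φ̄ s) = π (α x) * (inv (φ̄ s) * φ̄ s) and inv (φ̄ s) = π y
for every inverse y of φ s (uniqueness again); so π (α x * (y * φ s)) = π (φ s), which is the first
Gm by the fourth part of `gam_quot`.  Second one: in J, write a = π (φ s), a' = π y, t = π (α x),
a = t (a' a).  Then a' = (a' a) t⁻¹ where t⁻¹ is an inverse of t (both are inverses of t (a' a),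
`VS.inv_mul` and uniqueness), so a a' t = t (a' a) (a' a) t⁻¹ t = t (a' a) (t⁻¹ t)
= t (t⁻¹ t) (a' a) = t (a' a) = a.
-/

theorem CtlK_card (n : ℕ) : ((n + 1) * n + 1) ^ ((n + 1) * n) ≤ bd n := by
  unfold bd
  have h : n ≤ (n + 1) ^ n := by
    rcases Nat.eq_zero_or_pos n with rfl | hn
    · exact Nat.zero_le _
    · exact (Nat.lt_pow_self (by omega)).le
  have h1 : (n + 1) * n ≤ (n + 1) * (n + 1) ^ n := Nat.mul_le_mul_left _ h
  exact (Nat.pow_le_pow_left (Nat.succ_le_succ h1) _).trans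
    (Nat.pow_le_pow_right (Nat.succ_pos _) h1)

/-- **Control with commuting idempotents.** -/
theorem exists_ctlK {S : Type u} [Semigroup S] [Finite S] {T : Type u} [Semigroup T]
    (hreg : Regular T) (hc : IdemClosed T) (φ : S →ₙ* T) (i : S → T)
    (hi : ∀ u, IsInv (φ u) (i u)) :
    ∃ (C : Type u) (_ : Semigroup C) (c : S →ₙ* C) (c' : S → C), Finite C ∧
      Nat.card C ≤ bd (Nat.card S) ∧
      (∀ e f : C, e * e = e → f * f = f → e * f = f * e) ∧ (∀ u, IsInv (c u) (c' u)) ∧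
      ∀ (M : Type u) [Semigroup M] (G : Gens M S) (α : M →ₙ* T) (β : M →ₙ* C),
        (∀ u, α (G.g u) = φ u) → (∀ u, α (G.g' u) = i u) → (∀ u, β (G.g u) = c u) →
        (∀ u, β (G.g' u) = c' u) →
        ∀ x s, β x = c s → ∀ y, IsInv (φ s) y → Gm (α x * (y * φ s)) (φ s) ∧
          Gm (φ s * y * α x) (φ s) := by
  obtain ⟨J, iJ, π, -, hJreg, hJcm, hker, -⟩ := gam_quot hreg hc
  have hJ : IdemComm J := hJcm
  obtain ⟨I⟩ := exists_SInv hJreg
  obtain ⟨ψ, hψ⟩ : ∃ ψ : S →ₙ* J, ∀ u, ψ u = π (φ u) := ⟨π.comp φ, fun _ => rfl⟩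
  have hinv : ∀ (u : S) (z : T), IsInv (φ u) z → π z = I.inv (ψ u) := by
    intro u z hz
    refine Pool.Agent.H.MP_830e61_lc.inv_unique hJ (a := ψ u) ?_ ?_ (I.h1 _) (I.h2 _)
    · rw [hψ, ← map_mul, ← map_mul, hz.1]
    · rw [hψ, ← map_mul, ← map_mul, hz.2]
  refine ⟨PInj (Yinv I ψ), inferInstance, ⟨lamI I ψ, lamI_mul I hJ ψ⟩, muI I ψ,
    (card_PInj I ψ).1, (card_PInj I ψ).2.trans (CtlK_card _), PInj_comm,
    fun u => ⟨lam_mu_lamI I ψ u, mu_lam_muI I ψ u⟩, ?_⟩
  intro M iM G α β hαg hαg' hβg hβg' x s hx y hy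
  have key : ∀ m : M, Ev I ψ (β m).1 (π (α m)) := by
    intro m
    have hm : m ∈ Subsemigroup.closure (Set.range G.g ∪ Set.range G.g') := by
      rw [G.top]
      exact Subsemigroup.mem_top m
    induction hm using Subsemigroup.closure_induction with
    | mem m hm =>
      rcases hm with ⟨u, rfl⟩ | ⟨u, rfl⟩
      · rw [hαg, hβg, ← hψ]
        exact Ev_lamI I ψ u
      · rw [hαg', hβg', hinv u _ (hi u)]
        exact Ev_muI I ψ u
    | mul a b _ _ ha hb =>
      rw [map_mul, map_mul, map_mul]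
      exact Ev_mul I ψ ha hb
  obtain ⟨a, ha⟩ : ∃ a, a = ψ s := ⟨_, rfl⟩
  obtain ⟨a', ha'⟩ : ∃ a', a' = I.inv (ψ s) := ⟨_, rfl⟩
  obtain ⟨t, ht⟩ : ∃ t, t = π (α x) := ⟨_, rfl⟩
  have e0 : a * a' * a = a := by
    rw [ha, ha']
    exact I.h1 _
  have e0' : a' * a * a' = a' := by
    rw [ha, ha']
    exact I.h2 _
  have e1 : a = t * (a' * a) := by
    have h1 := lamI_base I ψ s
    have h2 : (β x).1 ⟨I.inv (ψ s) * ψ s, base_mem I ψ s⟩ =
        some ⟨ψ s * (I.inv (ψ s) * ψ s), phi_mem I ψ s (base_mem I ψ s)⟩ := by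
      rw [hx]
      exact h1
    have h3 := key x _ _ h2
    have h4 : ψ s * (I.inv (ψ s) * ψ s) = π (α x) * (I.inv (ψ s) * ψ s) := h3
    rw [← ha', ← ha, ← ht, ← mul_assoc, e0] at h4
    exact h4
  have hya : π y = a' := by
    rw [ha']
    exact hinv s y hy
  have hsa : π (φ s) = a := by
    rw [ha, hψ]
  have hee : (a' * a) * (a' * a) = a' * a := by
    rw [← mul_assoc, e0']
  constructor
  · refine (hker _ _).1 ?_
    rw [map_mul, map_mul, hya, hsa, ← ht, ← e1]
  · refine (hker _ _).1 ?_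
    rw [map_mul, map_mul, hya, hsa, ← ht]
    have h5 : I.inv (a' * a) = a' * a := by
      refine Pool.Agent.H.MP_830e61_lc.inv_unique hJ (a := a' * a) (I.h1 _) (I.h2 _) ?_ ?_
      · rw [hee, hee]
      · rw [hee, hee]
    have h6 : a' = (a' * a) * I.inv t := by
      have h7 : I.inv a = I.inv (a' * a) * I.inv t := by
        rw [← Pool.Agent.H.MP_830e61_lc.inv_mul I hJ, ← e1]
      rw [h5] at h7
      rw [← h7, ha', ha]
    have h8 : (I.inv t * t) * (I.inv t * t) = I.inv t * t := sq_idem I t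
    calc a * a' * t = (t * (a' * a)) * ((a' * a) * I.inv t) * t := by rw [← h6, ← e1]
      _ = t * ((a' * a) * (a' * a)) * (I.inv t * t) := by simp only [mul_assoc]
      _ = t * ((a' * a) * (I.inv t * t)) := by rw [hee, mul_assoc]
      _ = t * ((I.inv t * t) * (a' * a)) := by rw [hJ _ _ hee h8]
      _ = (t * I.inv t * t) * (a' * a) := by simp only [mul_assoc]
      _ = a := by rw [I.h1, ← e1]

end Pool.Agent.H.MP_830e61_lc.VS
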