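import Pool.Agent.H.MP_830e61_lc.VS.Brg
import Pool.Agent.H.MP_830e61_lc.VS.Ctl
import Pool.Agent.H.MP_830e61_lc.VS.CtlK

/-!
Dual control semigroup, subsemigroups generated in a product.
-/

namespace Pool.Agent.H.MP_830e61_lc.VS

open Pool.Agent.H.MP_830e61_lc MulOpposite

universe u

/-- the dual generator system -/
def Gens.op {M S : Type*} [Semigroup M] [Semigroup S] (G : Gens M S) : Gens Mᵐᵒᵖ Sᵐᵒᵖ where
  g := MulHom.op G.g
  g' u := MulOpposite.op (G.g' (unop u))
  isInv u := isInv_op (G.isInv (unop u))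
  top := by
    rw [eq_top_iff]
    intro m _
    have key : ∀ m : M, MulOpposite.op m ∈ Subsemigroup.closure
        (Set.range (MulHom.op G.g) ∪
          Set.range fun u : Sᵐᵒᵖ => MulOpposite.op (G.g' (unop u))) := by
      refine G.induct (fun u => ?_) (fun u => ?_) (fun x y hx hy => ?_)
      · exact Subsemigroup.subset_closure (Or.inl ⟨MulOpposite.op u, rfl⟩)
      · exact Subsemigroup.subset_closure (Or.inr ⟨MulOpposite.op u, rfl⟩)
      · rw [MulOpposite.op_mul]
        exact mul_mem hy hx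
    exact key (unop m)

/-- **Control, left regular version.** -/
theorem exists_ctlQ' {S : Type u} [Semigroup S] [Finite S] {T : Type u} [Semigroup T]
    (hreg : Regular T) (hc : IdemClosed T) (φ : S →ₙ* T) (i : S → T)
    (hi : ∀ u, IsInv (φ u) (i u)) :
    ∃ (C : Type u) (_ : Semigroup C) (c : S →ₙ* C) (c' : S → C), Finite C ∧
      Nat.card C ≤ bd (Nat.card S) ∧ IdemClosed C ∧ IdemLR C ∧ (∀ u, IsInv (c u) (c' u)) ∧
      ∀ (M : Type u) [Semigroup M] (G : Gens M S) (α : M →ₙ* T) (β : M →ₙ* C),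
        (∀ u, α (G.g u) = φ u) → (∀ u, α (G.g' u) = i u) → (∀ u, β (G.g u) = c u) →
        (∀ u, β (G.g' u) = c' u) →
        ∀ x z, β x = β z → (∃ s, leR (G.g s) x) → Gm (α x) (α z) := by
  have hfin : Finite Sᵐᵒᵖ := Finite.of_equiv S opEquiv
  obtain ⟨C, iC, c, c', hf, hcard, h1, h2, h3, h4⟩ := exists_ctlQ (op_regular hreg)
    (op_closed hc) (MulHom.op φ) (fun u => op (i (unop u))) (fun u => isInv_op (hi (unop u)))
  have hfin2 : Finite Cᵐᵒᵖ := Finite.of_equiv C opEquiv
  have e1 : Nat.card Cᵐᵒᵖ = Nat.card C := Nat.card_congr opEquiv.symm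
  have e2 : Nat.card Sᵐᵒᵖ = Nat.card S := Nat.card_congr opEquiv.symm
  refine ⟨Cᵐᵒᵖ, inferInstance, dualHom c, fun u => op (c' (op u)), hfin2, ?_, op_closed h1,
    op_LR h2, fun u => isInv_op (h3 (op u)), ?_⟩
  · rw [e1, ← e2]; exact hcard
  · intro M _ G α β a1 a2 a3 a4 x z hxz hs
    have hs' : ∃ s, leL (G.op.g s) (op x) := by
      obtain ⟨s, hs⟩ := hs
      refine ⟨op s, ?_⟩
      rcases hs with hs | ⟨k, hk⟩
      · exact Or.inl (congrArg op hs)
      · exact Or.inr ⟨op k, congrArg op hk⟩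
    let β' : Mᵐᵒᵖ →ₙ* C := ⟨fun m => unop (β (unop m)), fun a b => by
      show unop (β (unop b * unop a)) = unop (β (unop a)) * unop (β (unop b))
      rw [map_mul, unop_mul]⟩
    obtain ⟨y, hy1, hy2⟩ := h4 Mᵐᵒᵖ G.op (MulHom.op α) β' (fun u => congrArg op (a1 (unop u)))
      (fun u => congrArg op (a2 (unop u))) (fun u => congrArg unop (a3 (unop u)))
      (fun u => congrArg unop (a4 (unop u))) (op x) (op z) (congrArg unop hxz) hs'
    exact ⟨unop y, isInv_of_op hy1, isInv_of_op hy2⟩

/-- the subsemigroup generated in `T × C` -/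
theorem mk_gens {S T C : Type u} [Semigroup S] [Semigroup T] [Semigroup C] (φ : S →ₙ* T)
    (i : S → T) (hi : ∀ u, IsInv (φ u) (i u)) (c : S →ₙ* C) (c' : S → C)
    (hc : ∀ u, IsInv (c u) (c' u)) :
    ∃ (M : Type u) (_ : Semigroup M) (G : Gens M S) (α : M →ₙ* T) (β : M →ₙ* C),
      (∀ u, α (G.g u) = φ u) ∧ (∀ u, α (G.g' u) = i u) ∧ (∀ u, β (G.g u) = c u) ∧
      (∀ u, β (G.g' u) = c' u) ∧ ∀ m w, α m = α w → β m = β w → m = w := by
  let A : Set (T × C) := Set.range (fun u => (φ u, c u)) ∪ Set.range (fun u => (i u, c' u))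
  let N : Subsemigroup (T × C) := Subsemigroup.closure A
  let g : S →ₙ* N :=
    { toFun := fun u => ⟨(φ u, c u), Subsemigroup.subset_closure (Or.inl ⟨u, rfl⟩)⟩
      map_mul' := fun a b => by
        apply Subtype.ext
        show (φ (a * b), c (a * b)) = (φ a * φ b, c a * c b)
        rw [map_mul, map_mul] }
  let g' : S → N := fun u => ⟨(i u, c' u), Subsemigroup.subset_closure (Or.inr ⟨u, rfl⟩)⟩
  have htop : Subsemigroup.closure (Set.range g ∪ Set.range g') = ⊤ := by
    have h1 := Subsemigroup.closure_closure_coe_preimage (s := A)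
    rw [eq_top_iff, ← h1]
    apply Subsemigroup.closure_mono
    rintro ⟨m, hm⟩ hmA
    rcases hmA with ⟨u, hu⟩ | ⟨u, hu⟩
    · exact Or.inl ⟨u, Subtype.ext hu⟩
    · exact Or.inr ⟨u, Subtype.ext hu⟩
  refine ⟨N, inferInstance, ⟨g, g', fun u => ⟨?_, ?_⟩, htop⟩,
    (MulHom.fst T C).comp (MulMemClass.subtype N), (MulHom.snd T C).comp (MulMemClass.subtype N),
    fun u => rfl, fun u => rfl, fun u => rfl, fun u => rfl, ?_⟩
  · apply Subtype.ext
    exact Prod.ext (hi u).1 (hc u).1
  · apply Subtype.ext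
    exact Prod.ext (hi u).2 (hc u).2
  · intro m w h1 h2
    exact Subtype.ext (Prod.ext h1 h2)

section

variable {M T C : Type*} [Semigroup M] [Semigroup T] [Semigroup C] (α : M →ₙ* T) (β : M →ₙ* C)
  (hinj : ∀ m w, α m = α w → β m = β w → m = w)

include hinj in
/-- if `α x`, `α z` have a common inverse and `β x = β z` then all inverses of `x` are inverses
of `z` -/
theorem joint (hT : IdemClosed T) {x z : M} (h1 : Gm (α x) (α z)) (h2 : β x = β z) {x' : M}
    (hx : IsInv x x') : IsInv z x' := by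
  obtain ⟨y, hy1, hy2⟩ := h1
  have h3 : IsInv (α x) (α x') := ⟨by rw [← map_mul, ← map_mul, hx.1],
    by rw [← map_mul, ← map_mul, hx.2]⟩
  have h4 : IsInv (α z) (α x') := inv_of_common hT hy1 hy2 h3
  constructor
  · apply hinj
    · rw [map_mul, map_mul, h4.1]
    · rw [map_mul, map_mul, ← h2, ← map_mul, ← map_mul, hx.1]
  · apply hinj
    · rw [map_mul, map_mul, h4.2]
    · rw [map_mul, map_mul, ← h2, ← map_mul, ← map_mul, hx.2]

include hinj in
theorem joint_closed (hT : IdemClosed T) (hC : IdemClosed C) : IdemClosed M := by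
  intro e f he hf
  apply hinj
  · rw [map_mul, map_mul]
    exact hT _ _ (by rw [← map_mul, he]) (by rw [← map_mul, hf])
  · rw [map_mul, map_mul]
    exact hC _ _ (by rw [← map_mul, he]) (by rw [← map_mul, hf])

include hinj in
theorem joint_sat {V : List Idty} (hT : Sat V T) (hC : Sat V C) : Sat V M := by
  refine sat_inj (α.prod β) ?_ (sat_prod hT hC)
  intro m w h
  exact hinj _ _ (congrArg Prod.fst h) (congrArg Prod.snd h)

end

/-- a semigroup with commuting idempotents satisfies all identities with the same letters on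
both sides -/
theorem absorb {J : Type*} [Semigroup J]
    (hcm : ∀ e f : J, e * e = e → f * f = f → e * f = f * e) (x : ℕ → J)
    (hx : ∀ i, x i * x i = x i) (w : FreeSemigroup ℕ) :
    FreeSemigroup.lift x w * FreeSemigroup.lift x w = FreeSemigroup.lift x w ∧
      ∀ i ∈ letters w, FreeSemigroup.lift x w * x i = FreeSemigroup.lift x w := by
  induction w using FreeSemigroup.recOnMul with
  | ih1 j =>
    rw [FreeSemigroup.lift_of]
    refine ⟨hx j, ?_⟩
    intro i hi
    have h1 : i ∈ [j] := hi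
    rw [List.mem_singleton] at h1
    rw [h1, hx]
  | ih2 j w _ ih =>
    rw [map_mul, FreeSemigroup.lift_of]
    obtain ⟨h1, h2⟩ := ih
    have h3 := comm_closed hcm _ _ (hx j) h1
    refine ⟨h3, ?_⟩
    intro i hi
    have h4 : i ∈ j :: letters w := hi
    rcases List.mem_cons.1 h4 with rfl | h4
    · calc x i * FreeSemigroup.lift x w * x i = x i * (FreeSemigroup.lift x w * x i) := by
            rw [mul_assoc]
        _ = x i * (x i * FreeSemigroup.lift x w) := by rw [hcm _ _ h1 (hx i)]
        _ = x i * FreeSemigroup.lift x w := by rw [← mul_assoc, hx]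
    · rw [mul_assoc, h2 i h4]

theorem comm_sat {V : List Idty} (hV : SameCont V) {J : Type*} [Semigroup J]
    (hcm : ∀ e f : J, e * e = e → f * f = f → e * f = f * e) : Sat V J := by
  intro p hp x hx
  have key : ∀ w w' : FreeSemigroup ℕ, (∀ i ∈ letters w', i ∈ letters w) →
      FreeSemigroup.lift x w * FreeSemigroup.lift x w' = FreeSemigroup.lift x w := by
    intro w w'
    induction w' using FreeSemigroup.recOnMul with
    | ih1 j =>
      intro h
      rw [FreeSemigroup.lift_of]
      exact (absorb hcm x hx w).2 j (h j (List.mem_cons_self ..))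
    | ih2 j w' _ ih =>
      intro h
      rw [map_mul, FreeSemigroup.lift_of, ← mul_assoc,
        (absorb hcm x hx w).2 j (h j (List.mem_cons_self ..))]
      exact ih fun i hi => h i (List.mem_cons_of_mem _ hi)
  rw [← key p.1 p.2 fun i hi => (hV p hp i).2 hi,
    hcm _ _ (absorb hcm x hx p.1).1 (absorb hcm x hx p.2).1,
    key p.2 p.1 fun i hi => (hV p hp i).1 hi]

end Pool.Agent.H.MP_830e61_lc.VS
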