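import Pool.Agent.H.MP_830e61_lc.VS.Bnd
import Pool.Agent.H.MP_830e61_lc.Ops

/-!
Decidability of `R_V` and of `S(R_V)` for a finite list `V` of identities.
-/

namespace Pool.Agent.H.MP_830e61_lc.VS

open Pool.Agent.H.MP_830e61_lc

/-! ### words -/

/-- a bound for the letters of the identities -/
def Frm_nb (V : List Idty) : ℕ :=
  (V.map fun p => (p.1.head :: p.1.tail).sum + (p.2.head :: p.2.tail).sum).sum + 1

theorem Frm_lt {V : List Idty} {p : Idty} (hp : p ∈ V) :
    (∀ i ∈ p.1.head :: p.1.tail, i < Frm_nb V) ∧ (∀ i ∈ p.2.head :: p.2.tail, i < Frm_nb V) := by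
  have h2 : ∀ l : List ℕ, ∀ i ∈ l, i ≤ l.sum := fun l i hi =>
    List.single_le_sum (fun _ _ => Nat.zero_le _) i hi
  have h1 := h2 _ _ (List.mem_map_of_mem
    (f := fun p : Idty => (p.1.head :: p.1.tail).sum + (p.2.head :: p.2.tail).sum) hp)
  unfold Frm_nb
  constructor
  · intro i hi
    have := h2 _ i hi
    omega
  · intro i hi
    have := h2 _ i hi
    omega

/-- the value of a word -/
def Frm_ev (o : ℕ → ℕ → ℕ) (x : ℕ → ℕ) (w : FreeSemigroup ℕ) : ℕ :=
  w.tail.foldl (fun t j => o t (x j)) (x w.head)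

theorem Frm_ev_congr (o : ℕ → ℕ → ℕ) {x y : ℕ → ℕ} (w : FreeSemigroup ℕ)
    (h : ∀ i ∈ w.head :: w.tail, x i = y i) : Frm_ev o x w = Frm_ev o y w := by
  have key : ∀ (l : List ℕ) (a : ℕ), (∀ i ∈ l, x i = y i) →
      l.foldl (fun t j => o t (x j)) a = l.foldl (fun t j => o t (y j)) a := by
    intro l
    induction l with
    | nil => intro a _; rfl
    | cons b l ih =>
      intro a h
      simp only [List.foldl_cons]
      rw [h b List.mem_cons_self]
      exact ih _ fun i hi => h i (List.mem_cons_of_mem _ hi)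
  unfold Frm_ev
  rw [h _ List.mem_cons_self]
  exact key _ _ fun i hi => h i (List.mem_cons_of_mem _ hi)

theorem Frm_lift {m : ℕ} {o : ℕ → ℕ → ℕ} {T : Type} [Semigroup T] (e : Fin m ≃ T)
    (h : ∀ i j : Fin m, o i.1 j.1 = (e.symm (e i * e j)).val) (x : ℕ → T)
    (w : FreeSemigroup ℕ) :
    Frm_ev o (fun j => (e.symm (x j)).val) w = (e.symm (FreeSemigroup.lift x w)).val := by
  have key : ∀ (l : List ℕ) (a : T), l.foldl (fun t j => o t (e.symm (x j)).val) (e.symm a).val =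
      (e.symm (l.foldl (fun t j => t * x j) a)).val := by
    intro l
    induction l with
    | nil => intro a; rfl
    | cons b l ih =>
      intro a
      simp only [List.foldl_cons]
      rw [h, e.apply_symm_apply, e.apply_symm_apply]
      exact ih _
  exact key w.tail (x w.head)

/-- the identities for an operation on `{0, ..., m-1}` -/
def Frm_SatA (V : List Idty) (m : ℕ) (o : ℕ → ℕ → ℕ) : Prop :=
  ∀ p ∈ V, ∀ w : List ℕ, w.length = Frm_nb V → (∀ i ∈ w, i < m) → (∀ i ∈ w, o i i = i) →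
    Frm_ev o (fun j => w.getD j 0) p.1 = Frm_ev o (fun j => w.getD j 0) p.2

theorem Frm_sat_iff (V : List Idty) {m : ℕ} {o : ℕ → ℕ → ℕ} {T : Type} [Semigroup T]
    (e : Fin m ≃ T) (h : ∀ i j : Fin m, o i.1 j.1 = (e.symm (e i * e j)).val) :
    Frm_SatA V m o ↔ Sat V T := by
  constructor
  · intro hA p hp x hx
    obtain ⟨w, hwdef⟩ : ∃ w : List ℕ, w = (List.range (Frm_nb V)).map
      (fun j => (e.symm (x j)).val) := ⟨_, rfl⟩
    have hw : ∀ j < Frm_nb V, w.getD j 0 = (e.symm (x j)).val := by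
      intro j hj
      rw [hwdef, List.getD_eq_getElem _ _ (by simpa using hj)]
      simp
    have h1 := hA p hp w (by rw [hwdef]; simp)
      (by
        intro i hi
        rw [hwdef] at hi
        obtain ⟨j, -, rfl⟩ := List.mem_map.1 hi
        exact (e.symm (x j)).2)
      (by
        intro i hi
        rw [hwdef] at hi
        obtain ⟨j, -, rfl⟩ := List.mem_map.1 hi
        rw [h, e.apply_symm_apply, hx])
    rw [Frm_ev_congr o p.1 (fun i hi => hw i ((Frm_lt hp).1 i hi)),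
      Frm_ev_congr o p.2 (fun i hi => hw i ((Frm_lt hp).2 i hi)), Frm_lift e h, Frm_lift e h] at h1
    exact e.symm.injective (Fin.ext h1)
  · intro hS p hp w hw hm hi
    have hN : 0 < Frm_nb V := Nat.succ_pos _
    obtain ⟨y, hydef⟩ : ∃ y : ℕ → ℕ, y = fun j => if j < Frm_nb V then w.getD j 0 else w.getD 0 0 :=
      ⟨_, rfl⟩
    have hget : ∀ j < Frm_nb V, w.getD j 0 ∈ w := by
      intro j hj
      rw [List.getD_eq_getElem _ _ (by omega)]
      exact List.getElem_mem _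
    have hy : ∀ j, y j ∈ w := by
      intro j
      rw [hydef]
      show (if j < Frm_nb V then w.getD j 0 else w.getD 0 0) ∈ w
      split_ifs with hj
      · exact hget j hj
      · exact hget 0 hN
    have hyw : ∀ j < Frm_nb V, w.getD j 0 = y j := by
      intro j hj
      rw [hydef]
      show _ = if j < Frm_nb V then w.getD j 0 else w.getD 0 0
      rw [if_pos hj]
    rw [Frm_ev_congr o p.1 (fun i hi => hyw i ((Frm_lt hp).1 i hi)),
      Frm_ev_congr o p.2 (fun i hi => hyw i ((Frm_lt hp).2 i hi))]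
    obtain ⟨x, hxdef⟩ : ∃ x : ℕ → T, x = fun j => e ⟨y j, hm _ (hy j)⟩ := ⟨_, rfl⟩
    have hxe : ∀ j, (e.symm (x j)).val = y j := by
      intro j
      rw [hxdef]
      show (e.symm (e ⟨y j, _⟩)).val = y j
      rw [e.symm_apply_apply]
    have h1 := hS p hp x (by
      intro j
      apply e.symm.injective
      apply Fin.ext
      have h3 := h (e.symm (x j)) (e.symm (x j))
      rw [e.apply_symm_apply] at h3
      rw [← h3, hxe]
      exact hi _ (hy j))
    have h2 : ∀ q : FreeSemigroup ℕ, Frm_ev o y q = (e.symm (FreeSemigroup.lift x q)).val := by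
      intro q
      rw [← Frm_lift e h]
      exact Frm_ev_congr o q fun i _ => (hxe i).symm
    rw [h2, h2, h1]

/-- `o` is an operation on `{0, ..., m-1}` making it a member of `R_V` -/
def Frm_RVA (V : List Idty) (m : ℕ) (o : ℕ → ℕ → ℕ) : Prop :=
  0 < m ∧ (∀ i < m, ∀ j < m, o i j < m) ∧
  (∀ i < m, ∀ j < m, ∀ k < m, o (o i j) k = o i (o j k)) ∧
  (∀ i < m, ∃ x < m, o (o i x) i = i) ∧
  (∀ e < m, ∀ f < m, o e e = e → o f f = f → o (o e f) (o e f) = o e f) ∧ Frm_SatA V m o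

theorem Frm_RVA_iff (V : List Idty) {m : ℕ} {o : ℕ → ℕ → ℕ} {T : Type} [Semigroup T]
    (e : Fin m ≃ T) (h : ∀ i j : Fin m, o i.1 j.1 = (e.symm (e i * e j)).val) :
    Frm_RVA V m o ↔ RVs V T inferInstance := by
  have hlt : ∀ i < m, ∀ j < m, o i j < m := by
    intro i hi j hj
    have := h ⟨i, hi⟩ ⟨j, hj⟩
    simp only at this
    rw [this]; exact (e.symm _).2
  have hm : ∀ i j : Fin m, e ⟨o i.1 j.1, hlt _ i.2 _ j.2⟩ = e i * e j := by
    intro i j
    have : (⟨o i.1 j.1, hlt _ i.2 _ j.2⟩ : Fin m) = e.symm (e i * e j) := Fin.ext (h i j)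
    rw [this, Equiv.apply_symm_apply]
  have hinj : ∀ i j : Fin m, e i = e j ↔ i.1 = j.1 := by
    intro i j
    rw [e.apply_eq_iff_eq, Fin.ext_iff]
  have hsurj := e.surjective
  have hassoc : ∀ i < m, ∀ j < m, ∀ k < m, o (o i j) k = o i (o j k) := by
    intro i hi j hj k hk
    have := mul_assoc (e ⟨i, hi⟩) (e ⟨j, hj⟩) (e ⟨k, hk⟩)
    rw [← hm, ← hm, ← hm, ← hm, hinj] at this
    exact this
  have hId := Frm_sat_iff V e h
  constructor
  · rintro ⟨h0, -, -, h3, h4, h5⟩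
    refine ⟨Finite.of_equiv _ e, ⟨e ⟨0, h0⟩⟩, ?_, ?_, hId.1 h5⟩
    · intro a
      obtain ⟨i, rfl⟩ := hsurj a
      obtain ⟨x, hx, hx2⟩ := h3 _ i.2
      refine ⟨e ⟨x, hx⟩, ?_⟩
      rw [← hm, ← hm, hinj]
      exact hx2
    · intro a b ha hb
      obtain ⟨i, rfl⟩ := hsurj a
      obtain ⟨j, rfl⟩ := hsurj b
      rw [← hm, hinj] at ha hb
      rw [← hm, ← hm, hinj]
      exact h4 _ i.2 _ j.2 ha hb
  · rintro ⟨-, ⟨a0⟩, h3, h4, h5⟩
    refine ⟨Fin.pos (e.symm a0), hlt, hassoc, ?_, ?_, hId.2 h5⟩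
    · intro i hi
      obtain ⟨x, hx⟩ := h3 (e ⟨i, hi⟩)
      obtain ⟨x, rfl⟩ := hsurj x
      rw [← hm, ← hm, hinj] at hx
      exact ⟨x.1, x.2, hx⟩
    · intro i hi j hj ha hb
      have h2 := h4 (e ⟨i, hi⟩) (e ⟨j, hj⟩) (by rw [← hm, hinj]; exact ha)
        (by rw [← hm, hinj]; exact hb)
      rw [← hm, ← hm, hinj] at h2
      exact h2

/-- `{0, ..., n-1}` with operation `t` embeds in a member of `R_V` with `m` elements -/
def Frm_Emb (V : List Idty) (n : ℕ) (t : ℕ → ℕ → ℕ) (m c d : ℕ) : Prop :=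
  Frm_RVA V m (fun i j => dig m c (i * m + j)) ∧
  (∀ i < n, ∀ j < n, dig m d (t i j) = dig m c (dig m d i * m + dig m d j)) ∧
  (∀ i < n, ∀ j < n, dig m d i = dig m d j → i = j)

theorem Frm_Emb_of {V : List Idty} {n : ℕ} {t : ℕ → ℕ → ℕ}
    (htn : ∀ i < n, ∀ j < n, t i j < n) {U : Type} [Semigroup U]
    (hU : RVs V U inferInstance) (f : ℕ → U)
    (hf : ∀ i < n, ∀ j < n, f (t i j) = f i * f j)
    (hinj : ∀ i < n, ∀ j < n, f i = f j → i = j) :
    ∃ c < Nat.card U ^ (Nat.card U * Nat.card U), ∃ d < Nat.card U ^ n,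
      Frm_Emb V n t (Nat.card U) c d := by
  obtain ⟨hfin, hne, h3⟩ := hU
  set m := Nat.card U with hmdef
  have hm : 0 < m := Nat.card_pos
  let e : Fin m ≃ U := (Finite.equivFin U).symm
  let r : ℕ → Fin m := fun i => ⟨i % m, Nat.mod_lt _ hm⟩
  have hr : ∀ i : Fin m, r i.1 = i := fun i => Fin.ext (Nat.mod_eq_of_lt i.2)
  let o : ℕ → ℕ → ℕ := fun i j => (e.symm (e (r i) * e (r j))).val
  have ho : ∀ i j : Fin m, o i.1 j.1 = (e.symm (e i * e j)).val := by
    intro i j
    show (e.symm (e (r i.1) * e (r j.1))).val = _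
    rw [hr, hr]
  have hRVA : Frm_RVA V m o := (Frm_RVA_iff V e ho).2 ⟨hfin, hne, h3⟩
  obtain ⟨c, hc, hc2⟩ := exists_dig hm (m * m) (fun k => o (k / m) (k % m)) (by
    intro i _; exact (e.symm _).2)
  have hidx : ∀ i < m, ∀ j < m, i * m + j < m * m := by
    intro i hi j hj
    calc i * m + j < i * m + m := Nat.add_lt_add_left hj _
      _ = (i + 1) * m := by ring
      _ ≤ m * m := Nat.mul_le_mul_right m hi
  have hc3 : ∀ i < m, ∀ j < m, dig m c (i * m + j) = o i j := by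
    intro i hi j hj
    rw [hc2 _ (hidx i hi j hj)]
    have e1 : (i * m + j) / m = i := by
      rw [Nat.mul_comm, Nat.mul_add_div hm, Nat.div_eq_of_lt hj, Nat.add_zero]
    have e2 : (i * m + j) % m = j := by
      rw [Nat.mul_comm, Nat.mul_add_mod, Nat.mod_eq_of_lt hj]
    rw [e1, e2]
  obtain ⟨d, hd, hd2⟩ := exists_dig hm n (fun i => (e.symm (f i)).val)
    (fun i _ => (e.symm _).2)
  refine ⟨c, hc, d, hd, ?_, ?_, ?_⟩
  · refine (Frm_RVA_iff V e ?_).2 ⟨hfin, hne, h3⟩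
    intro i j
    show dig m c (i.1 * m + j.1) = _
    rw [hc3 _ i.2 _ j.2]; exact ho i j
  · intro i hi j hj
    rw [hd2 _ hi, hd2 _ hj, hd2 _ (htn i hi j hj), hc3 _ (e.symm (f i)).2 _ (e.symm (f j)).2]
    rw [ho, Equiv.apply_symm_apply, Equiv.apply_symm_apply, hf i hi j hj]
  · intro i hi j hj h
    rw [hd2 _ hi, hd2 _ hj] at h
    exact hinj i hi j hj (e.symm.injective (Fin.ext h))

theorem Frm_of_Emb {V : List Idty} {n : ℕ} {t : ℕ → ℕ → ℕ} {m c d : ℕ}
    (h : Frm_Emb V n t m c d) :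
    ∃ (U : Type) (_ : Semigroup U), RVs V U inferInstance ∧ ∃ f : ℕ → U,
      (∀ i < n, ∀ j < n, f (t i j) = f i * f j) ∧ (∀ i < n, ∀ j < n, f i = f j → i = j) := by
  obtain ⟨hR, h2, h3⟩ := h
  have hR' := hR
  obtain ⟨hm, hlt, hassoc, -⟩ := hR'
  let _ := finSg m (fun i j => dig m c (i * m + j)) hlt hassoc
  refine ⟨FinT m, inferInstance, (Frm_RVA_iff V (finT m) (fun i j => rfl)).1 hR,
    fun i => ⟨dig m d i, Nat.mod_lt _ hm⟩, ?_, ?_⟩
  · intro i hi j hj
    apply FinT.ext'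
    exact h2 i hi j hj
  · intro i hi j hj hh
    exact h3 i hi j hj (congrArg FinT.val hh)

/-! ### formulas -/

/-- `k` nested bounded quantifiers -/
def Frm_all (sz : ℕ → Tm) (φ : Fm) : ℕ → ℕ → Fm
  | 0, _ => φ
  | k + 1, j => .all (sz j) (Frm_all sz φ k (j + 1))

theorem Frm_all_ev {L : List (List ℕ)} {v : List ℕ} {sz : ℕ → Tm} {m : ℕ}
    (hsz : ∀ w : List ℕ, (sz w.length).ev L (w ++ v) = m) (φ : Fm) (k : ℕ) :
    ∀ u : List ℕ, (Frm_all sz φ k u.length).ev L (u ++ v) ↔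
      ∀ w : List ℕ, w.length = k → (∀ i ∈ w, i < m) → φ.ev L (w ++ (u ++ v)) := by
  induction k with
  | zero =>
    intro u
    constructor
    · intro h w hw _
      rw [List.length_eq_zero_iff.1 hw]
      exact h
    · intro h
      exact h [] rfl (fun i hi => absurd hi List.not_mem_nil)
  | succ k ih =>
    intro u
    have h1 : ∀ x, (Frm_all sz φ k (u.length + 1)).ev L (x :: (u ++ v)) ↔
        ∀ w : List ℕ, w.length = k → (∀ i ∈ w, i < m) → φ.ev L (w ++ (x :: (u ++ v))) :=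
      fun x => ih (x :: u)
    show (∀ x < (sz u.length).ev L (u ++ v),
      (Frm_all sz φ k (u.length + 1)).ev L (x :: (u ++ v))) ↔ _
    rw [hsz]
    constructor
    · intro h w hw hm
      rcases List.eq_nil_or_concat w with h0 | ⟨w', x, h0⟩
      · rw [h0] at hw
        exact absurd hw (by simp)
      · rw [List.concat_eq_append] at h0
        rw [h0] at hw hm ⊢
        rw [List.append_assoc]
        exact (h1 x).1 (h x (hm x (by simp))) w' (by simpa using hw)
          (fun i hi => hm i (by simp [hi]))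
    · intro h x hx
      refine (h1 x).2 fun w hw hm => ?_
      have h2 := h (w ++ [x]) (by simp [hw]) (by
        intro i hi
        rcases List.mem_append.1 hi with h3 | h3
        · exact hm i h3
        · rw [List.mem_singleton.1 h3]
          exact hx)
      rw [List.append_assoc] at h2
      exact h2

/-- the first `k` variables are idempotent -/
def Frm_id (o : Tm → Tm → Tm) : ℕ → Fm → Fm
  | 0, φ => φ
  | j + 1, φ => imp (.eq (o (.var j) (.var j)) (.var j)) (Frm_id o j φ)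

theorem Frm_id_ev {L : List (List ℕ)} {u : List ℕ} {o : Tm → Tm → Tm} {O : ℕ → ℕ → ℕ}
    (ho : ∀ a b : Tm, (o a b).ev L u = O (a.ev L u) (b.ev L u)) (φ : Fm) (k : ℕ) :
    (Frm_id o k φ).ev L u ↔
      ((∀ j < k, O (u.getD j 0) (u.getD j 0) = u.getD j 0) → φ.ev L u) := by
  induction k with
  | zero =>
    constructor
    · intro h _
      exact h
    · intro h
      exact h fun j hj => absurd hj (Nat.not_lt_zero _)
  | succ k ih =>
    show (imp _ _).ev L u ↔ _
    rw [imp_ev, ih]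
    have h1 : (Fm.eq (o (.var k) (.var k)) (.var k)).ev L u ↔
        O (u.getD k 0) (u.getD k 0) = u.getD k 0 := by
      show (o (.var k) (.var k)).ev L u = (Tm.var k).ev L u ↔ _
      rw [ho]
      exact Iff.rfl
    rw [h1]
    constructor
    · intro h h2
      exact h (h2 k (Nat.lt_succ_self k)) fun j hj => h2 j (Nat.lt_succ_of_lt hj)
    · intro h h2 h3
      apply h
      intro j hj
      rcases Nat.lt_succ_iff_lt_or_eq.1 hj with h4 | h4
      · exact h3 j h4
      · rw [h4]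
        exact h2

/-- a word as a term -/
def Frm_wT (o : Tm → Tm → Tm) (w : FreeSemigroup ℕ) : Tm :=
  w.tail.foldl (fun t j => o t (.var j)) (.var w.head)

theorem Frm_wT_ev {L : List (List ℕ)} {u : List ℕ} {o : Tm → Tm → Tm} {O : ℕ → ℕ → ℕ}
    (ho : ∀ a b : Tm, (o a b).ev L u = O (a.ev L u) (b.ev L u)) (w : FreeSemigroup ℕ) :
    (Frm_wT o w).ev L u = Frm_ev O (fun j => u.getD j 0) w := by
  have key : ∀ (l : List ℕ) (a : Tm), (l.foldl (fun t j => o t (.var j)) a).ev L u =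
      l.foldl (fun t j => O t (u.getD j 0)) (a.ev L u) := by
    intro l
    induction l with
    | nil => intro a; rfl
    | cons b l ih =>
      intro a
      simp only [List.foldl_cons]
      rw [ih, ho]
      rfl
  exact key w.tail (.var w.head)

/-- the identities as a formula -/
def Frm_sat (N : ℕ) (sz : ℕ → Tm) (o : ℕ → Tm → Tm → Tm) : List Idty → Fm
  | [] => .eq (.cst 0) (.cst 0)
  | p :: W => .and
      (Frm_all sz (Frm_id (o N) N (.eq (Frm_wT (o N) p.1) (Frm_wT (o N) p.2))) N 0)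
      (Frm_sat N sz o W)

section

variable {L : List (List ℕ)} {v : List ℕ} {sz : ℕ → Tm} {o : ℕ → Tm → Tm → Tm} {m : ℕ}
  {O : ℕ → ℕ → ℕ}

theorem Frm_sat_ev
    (hsz : ∀ w : List ℕ, (sz w.length).ev L (w ++ v) = m)
    (ho : ∀ (w : List ℕ) (a b : Tm), (o w.length a b).ev L (w ++ v) =
      O (a.ev L (w ++ v)) (b.ev L (w ++ v))) (N : ℕ) (W : List Idty) :
    (Frm_sat N sz o W).ev L v ↔ ∀ p ∈ W, ∀ w : List ℕ, w.length = N → (∀ i ∈ w, i < m) →
      (∀ j < N, O ((w ++ v).getD j 0) ((w ++ v).getD j 0) = (w ++ v).getD j 0) →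
      Frm_ev O (fun j => (w ++ v).getD j 0) p.1 = Frm_ev O (fun j => (w ++ v).getD j 0) p.2 := by
  induction W with
  | nil =>
    constructor
    · intro _ p hp
      exact absurd hp List.not_mem_nil
    · intro _
      rfl
  | cons p W ih =>
    show (Frm_all sz (Frm_id (o N) N (.eq (Frm_wT (o N) p.1) (Frm_wT (o N) p.2))) N 0).ev L v ∧
      (Frm_sat N sz o W).ev L v ↔ _
    rw [ih]
    have h1 := Frm_all_ev hsz (Frm_id (o N) N (.eq (Frm_wT (o N) p.1) (Frm_wT (o N) p.2))) N []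
    have h2 : (Frm_all sz (Frm_id (o N) N (.eq (Frm_wT (o N) p.1) (Frm_wT (o N) p.2))) N 0).ev L v ↔
        ∀ w : List ℕ, w.length = N → (∀ i ∈ w, i < m) →
      (∀ j < N, O ((w ++ v).getD j 0) ((w ++ v).getD j 0) = (w ++ v).getD j 0) →
      Frm_ev O (fun j => (w ++ v).getD j 0) p.1 = Frm_ev O (fun j => (w ++ v).getD j 0) p.2 := by
      refine Iff.trans h1 ?_
      refine forall_congr' fun w => forall_congr' fun hw => forall_congr' fun _ => ?_
      have ho' : ∀ a b : Tm, (o N a b).ev L (w ++ v) = O (a.ev L (w ++ v)) (b.ev L (w ++ v)) := by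
        intro a b
        rw [← hw]
        exact ho w a b
      show (Frm_id (o N) N _).ev L (w ++ v) ↔ _
      rw [Frm_id_ev ho']
      refine imp_congr Iff.rfl ?_
      show (Frm_wT (o N) p.1).ev L (w ++ v) = (Frm_wT (o N) p.2).ev L (w ++ v) ↔ _
      rw [Frm_wT_ev ho', Frm_wT_ev ho']
    rw [h2]
    constructor
    · rintro ⟨h3, h4⟩ q hq
      rcases List.mem_cons.1 hq with h5 | h5
      · rw [h5]
        exact h3
      · exact h4 q h5
    · intro h3
      exact ⟨h3 p List.mem_cons_self, fun q hq => h3 q (List.mem_cons_of_mem _ hq)⟩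

theorem Frm_sat_ev' (V : List Idty)
    (hsz : ∀ w : List ℕ, (sz w.length).ev L (w ++ v) = m)
    (ho : ∀ (w : List ℕ) (a b : Tm), (o w.length a b).ev L (w ++ v) =
      O (a.ev L (w ++ v)) (b.ev L (w ++ v))) :
    (Frm_sat (Frm_nb V) sz o V).ev L v ↔ Frm_SatA V m O := by
  rw [Frm_sat_ev hsz ho]
  unfold Frm_SatA
  refine forall_congr' fun p => forall_congr' fun hp => forall_congr' fun w =>
    forall_congr' fun hw => forall_congr' fun _ => ?_
  have hget : ∀ j < Frm_nb V, (w ++ v).getD j 0 = w.getD j 0 := by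
    intro j hj
    rw [List.getD_append]
    omega
  have e1 : (∀ j < Frm_nb V, O ((w ++ v).getD j 0) ((w ++ v).getD j 0) = (w ++ v).getD j 0) ↔
      ∀ i ∈ w, O i i = i := by
    constructor
    · intro h i hi
      obtain ⟨j, hj, rfl⟩ := List.mem_iff_getElem.1 hi
      have h2 := h j (by omega)
      rw [hget j (by omega), List.getD_eq_getElem _ _ hj] at h2
      exact h2
    · intro h j hj
      rw [hget j hj]
      apply h
      rw [List.getD_eq_getElem _ _ (by omega)]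
      exact List.getElem_mem _
  rw [e1, Frm_ev_congr O p.1 (fun i hi => hget i ((Frm_lt hp).1 i hi)),
    Frm_ev_congr O p.2 (fun i hi => hget i ((Frm_lt hp).2 i hi))]

/-- membership in `R_V` as a formula -/
def Frm_rv (V : List Idty) (sz : ℕ → Tm) (o : ℕ → Tm → Tm → Tm) : Fm :=
  .and (.lt (.cst 0) (sz 0)) (
  .and (.all (sz 0) (.all (sz 1) (.lt (o 2 (.var 1) (.var 0)) (sz 2)))) (
  .and (.all (sz 0) (.all (sz 1) (.all (sz 2) (.eq (o 3 (o 3 (.var 2) (.var 1)) (.var 0))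
    (o 3 (.var 2) (o 3 (.var 1) (.var 0))))))) (
  .and (.all (sz 0) (.ex (sz 1) (.eq (o 2 (o 2 (.var 1) (.var 0)) (.var 1)) (.var 1)))) (
  .and (.all (sz 0) (.all (sz 1) (imp (.eq (o 2 (.var 1) (.var 1)) (.var 1))
      (imp (.eq (o 2 (.var 0) (.var 0)) (.var 0))
        (.eq (o 2 (o 2 (.var 1) (.var 0)) (o 2 (.var 1) (.var 0))) (o 2 (.var 1) (.var 0)))))))
    (Frm_sat (Frm_nb V) sz o V)))))

theorem Frm_rv_ev (V : List Idty)
    (hsz : ∀ w : List ℕ, (sz w.length).ev L (w ++ v) = m)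
    (ho : ∀ (w : List ℕ) (a b : Tm), (o w.length a b).ev L (w ++ v) =
      O (a.ev L (w ++ v)) (b.ev L (w ++ v))) :
    (Frm_rv V sz o).ev L v ↔ Frm_RVA V m O := by
  have s0 : (sz 0).ev L v = m := hsz []
  have s1 : ∀ x, (sz 1).ev L (x :: v) = m := fun x => hsz [x]
  have s2 : ∀ x y, (sz 2).ev L (x :: y :: v) = m := fun x y => hsz [x, y]
  have o2 : ∀ x y a b, (o 2 a b).ev L (x :: y :: v) =
      O (a.ev L (x :: y :: v)) (b.ev L (x :: y :: v)) := fun x y a b => ho [x, y] a b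
  have o3 : ∀ x y z a b, (o 3 a b).ev L (x :: y :: z :: v) =
      O (a.ev L (x :: y :: z :: v)) (b.ev L (x :: y :: z :: v)) :=
    fun x y z a b => ho [x, y, z] a b
  have v0 : ∀ x (w : List ℕ), (Tm.var 0).ev L (x :: w) = x := fun _ _ => rfl
  have v1 : ∀ x y (w : List ℕ), (Tm.var 1).ev L (x :: y :: w) = y := fun _ _ _ => rfl
  have v2 : ∀ x y z (w : List ℕ), (Tm.var 2).ev L (x :: y :: z :: w) = z := fun _ _ _ _ => rfl
  have c0 : ∀ w : List ℕ, (Tm.cst 0).ev L w = 0 := fun _ => rfl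
  have hs := Frm_sat_ev' V hsz ho
  unfold Frm_rv Frm_RVA
  simp only [Fm.ev, imp_ev, s0, s1, s2, o2, o3, v0, v1, v2, c0, hs]

end

/-- inner formula: embedding -/
def Frm_emb (V : List Idty) : Fm :=
  .and (Frm_rv V (fun k => .var (k + 2)) opC) (
  .and (.all .len (.all .len (.eq (emC 2 (.tab (.var 1) (.var 0)))
    (opC 2 (emC 2 (.var 1)) (emC 2 (.var 0))))))
    (.all .len (.all .len (imp (.eq (emC 2 (.var 1)) (emC 2 (.var 0))) (.eq (.var 1) (.var 0))))))

theorem Frm_emb_ev (V : List Idty) (L : List (List ℕ)) (m c d : ℕ) :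
    (Frm_emb V).ev L [d, c, m] ↔ Frm_Emb V L.length (entry L) m c d := by
  have h1 := Frm_rv_ev (L := L) (v := [d, c, m]) (sz := fun k => .var (k + 2)) (o := opC) (m := m)
    (O := fun i j => dig m c (i * m + j)) V
    (fun w => var_ev L w [d, c, m] 2) (fun w a b => opC_ev L w a b m c d)
  have o2 : ∀ x y a b, (opC 2 a b).ev L (x :: y :: [d, c, m]) =
      dig m c (a.ev L (x :: y :: [d, c, m]) * m + b.ev L (x :: y :: [d, c, m])) :=
    fun x y a b => opC_ev L [x, y] a b m c d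
  have e2 : ∀ x y a, (emC 2 a).ev L (x :: y :: [d, c, m]) =
      dig m d (a.ev L (x :: y :: [d, c, m])) :=
    fun x y a => emC_ev L [x, y] a m c d
  have v0 : ∀ x (w : List ℕ), (Tm.var 0).ev L (x :: w) = x := fun _ _ => rfl
  have v1 : ∀ x y (w : List ℕ), (Tm.var 1).ev L (x :: y :: w) = y := fun _ _ _ => rfl
  have t2 : ∀ a b (w : List ℕ), (Tm.tab a b).ev L w = entry L (a.ev L w) (b.ev L w) :=
    fun _ _ _ => rfl
  have l2 : ∀ (w : List ℕ), (Tm.len).ev L w = L.length := fun _ => rfl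
  unfold Frm_emb Frm_Emb
  simp only [Fm.ev, imp_ev, o2, e2, v0, v1, t2, l2]
  rw [h1]

/-- the number of classes as a term -/
def Frm_dT : Tm :=
  .add (.mul (.pow (.cst 2) .len) (.mul bT (.mul (.cst 2) .len))) (.cst 1)

theorem Frm_dT_ev (L : List (List ℕ)) (v : List ℕ) : Frm_dT.ev L v = dcl L.length := rfl

/-- the bound as a term -/
def Frm_bT : Tm := .mul bT (.pow (.pow Frm_dT Frm_dT) (.cst 2))

theorem Frm_bT_ev (L : List (List ℕ)) (v : List ℕ) : Frm_bT.ev L v = bnd L.length := rfl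

/-- formula for `R_V` -/
def Frm_fR (V : List Idty) : Fm := .and rowF (Frm_rv V (fun _ => .len) (fun _ => .tab))

theorem Frm_fR_ev (V : List Idty) (L : List (List ℕ)) :
    (Frm_fR V).ev L [] ↔ (∀ r ∈ L, r.length = L.length) ∧ Frm_RVA V L.length (entry L) := by
  have h1 := Frm_rv_ev (L := L) (v := []) (sz := fun _ => .len) (o := fun _ => .tab)
    (m := L.length) (O := entry L) V (fun w => rfl) (fun w a b => rfl)
  unfold Frm_fR
  simp only [Fm.ev]
  rw [rowF_ev, h1]

/-- formula for `S(R_V)` -/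
def Frm_fS (V : List Idty) : Fm := .and rowF (.and sgF
  (.ex (.add Frm_bT (.cst 1)) (.ex (.pow (.var 0) (.mul (.var 0) (.var 0)))
    (.ex (.pow (.var 1) .len) (Frm_emb V)))))

theorem Frm_fS_ev (V : List Idty) (L : List (List ℕ)) :
    (Frm_fS V).ev L [] ↔ (∀ r ∈ L, r.length = L.length) ∧ SgA L.length (entry L) ∧
      ∃ m < bnd L.length + 1, ∃ c < m ^ (m * m), ∃ d < m ^ L.length,
        Frm_Emb V L.length (entry L) m c d := by
  have hv0 : ∀ x (w : List ℕ), (Tm.var 0).ev L (x :: w) = x := fun _ _ => rfl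
  have hv1 : ∀ x y (w : List ℕ), (Tm.var 1).ev L (x :: y :: w) = y := fun _ _ _ => rfl
  have hb : (Tm.add Frm_bT (.cst 1)).ev L [] = bnd L.length + 1 := rfl
  have hp : ∀ a b (w : List ℕ), (Tm.pow a b).ev L w = (a.ev L w) ^ (b.ev L w) :=
    fun _ _ _ => rfl
  have hmu : ∀ a b (w : List ℕ), (Tm.mul a b).ev L w = (a.ev L w) * (b.ev L w) :=
    fun _ _ _ => rfl
  have hl : ∀ (w : List ℕ), (Tm.len).ev L w = L.length := fun _ => rfl
  unfold Frm_fS
  simp only [Fm.ev, rowF_ev, sgF_ev, hb, hp, hmu, hl, hv0, hv1, Frm_emb_ev]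

/-! ### decidability -/

theorem rec_R (V : List Idty) : Recursive (RVs V) := by
  refine ((Frm_fR V).computable).of_eq ?_
  intro L
  rw [Frm_fR_ev]
  constructor
  · rintro ⟨h1, h2⟩
    have h2' := h2
    obtain ⟨hm, hlt, hassoc, -⟩ := h2'
    let _ := finSg L.length (entry L) hlt hassoc
    exact ⟨FinT L.length, inferInstance, (Frm_RVA_iff V (finT _) (fun i j => rfl)).1 h2,
      h1, finT _, fun i j => rfl⟩
  · rintro ⟨T, i, h1, h2, e, he⟩
    exact ⟨h2, (Frm_RVA_iff V e he).2 h1⟩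

theorem rec_S (V : List Idty) (hV : Emb V) : Recursive (opS (RVs V)) := by
  refine ((Frm_fS V).computable).of_eq ?_
  intro L
  rw [Frm_fS_ev]
  constructor
  · rintro ⟨h1, ⟨hn, hlt, hassoc⟩, m, -, c, -, d, -, h3⟩
    let _ := finSg L.length (entry L) hlt hassoc
    obtain ⟨U, iU, hU, f, hf, hinj⟩ := Frm_of_Emb h3
    refine ⟨FinT L.length, inferInstance, ⟨⟨⟨0, hn⟩⟩, U, iU, hU,
      ⟨fun i => f i.1, fun i j => hf _ i.2 _ j.2⟩, ?_⟩, h1, finT _, fun i j => rfl⟩
    intro i j h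
    exact FinT.ext' (hinj _ i.2 _ j.2 h)
  · rintro ⟨T, i, ⟨⟨t0⟩, U, iU, ⟨hUf, hUn, hU1, hU2, hU3⟩, φ, hφ⟩, h2, e, he⟩
    have : Finite T := Finite.of_equiv _ e
    have hn : 0 < L.length := Fin.pos (e.symm t0)
    have hlt : ∀ i < L.length, ∀ j < L.length, entry L i j < L.length := by
      intro i hi j hj
      have := he ⟨i, hi⟩ ⟨j, hj⟩
      show (L.getD i []).getD j 0 < _
      simp only at this
      rw [this]; exact (e.symm _).2
    have hm : ∀ i j : Fin L.length, e ⟨entry L i.1 j.1, hlt _ i.2 _ j.2⟩ = e i * e j := by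
      intro i j
      have : (⟨entry L i.1 j.1, hlt _ i.2 _ j.2⟩ : Fin L.length) = e.symm (e i * e j) :=
        Fin.ext (he i j)
      rw [this, Equiv.apply_symm_apply]
    refine ⟨h2, ⟨hn, hlt, ?_⟩, ?_⟩
    · intro i hi j hj k hk
      have := mul_assoc (e ⟨i, hi⟩) (e ⟨j, hj⟩) (e ⟨k, hk⟩)
      rw [← hm, ← hm, ← hm, ← hm, e.apply_eq_iff_eq, Fin.ext_iff] at this
      exact this
    · obtain ⟨T', iT', a1, a2, a3, a4, a5, ψ, hψ⟩ := hV T U hU1 hU2 hU3 φ hφ
      have hcard : Nat.card T = L.length := by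
        rw [← Nat.card_congr e, Nat.card_eq_fintype_card, Fintype.card_fin]
      let r : ℕ → Fin L.length := fun i => ⟨i % L.length, Nat.mod_lt _ hn⟩
      have hr : ∀ i (hi : i < L.length), r i = ⟨i, hi⟩ := fun i hi =>
        Fin.ext (Nat.mod_eq_of_lt hi)
      have hRV : RVs V T' inferInstance := ⟨a1, ⟨ψ t0⟩, a3, a4, a5⟩
      obtain ⟨c, hc, d, hd, h⟩ := Frm_Emb_of (n := L.length) (t := entry L) hlt hRV
        (fun i => ψ (e (r i))) (by
          intro i hi j hj
          rw [hr i hi, hr j hj, hr _ (hlt i hi j hj), ← map_mul, ← hm]) (by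
          intro i hi j hj h
          rw [hr i hi, hr j hj] at h
          have := e.injective (hψ h)
          exact Fin.ext_iff.1 this)
      exact ⟨Nat.card T', Nat.lt_succ_of_le (hcard ▸ a2), c, hc, d, hd, h⟩

end Pool.Agent.H.MP_830e61_lc.VS
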