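import Pool.Agent.H.MP_830e61_lc.VS.Syn
import Pool.Agent.H.MP_830e61_lc.Bound

/-!
Generator systems.
-/

namespace Pool.Agent.H.MP_830e61_lc.VS

open Pool.Agent.H.MP_830e61_lc

universe u

/-- `M` is generated by the image of `S` and chosen inverses -/
structure Gens (M S : Type*) [Semigroup M] [Semigroup S] where
  g : S →ₙ* M
  g' : S → M
  isInv : ∀ u, IsInv (g u) (g' u)
  top : Subsemigroup.closure (Set.range g ∪ Set.range g') = ⊤

/-- `a` and `b` have a common inverse -/
def Gm {T : Type*} [Semigroup T] (a b : T) : Prop := ∃ x, IsInv a x ∧ IsInv b x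

/-- `a` is below `x` in the order `≤_L` -/
def leL {M : Type*} [Semigroup M] (a x : M) : Prop := a = x ∨ ∃ k, a = k * x

/-- `a` is below `x` in the order `≤_R` -/
def leR {M : Type*} [Semigroup M] (a x : M) : Prop := a = x ∨ ∃ k, a = x * k

end Pool.Agent.H.MP_830e61_lc.VS
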