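import Pool.Agent.H.MP_830e61_lc.VS.Sat

/-!
Varieties of bands contained in the join of the varieties of left and right semi-normal bands.
-/

namespace Pool.Agent.H.MP_830e61_lc.VS

open Pool.Agent.H.MP_830e61_lc MulOpposite

/-- The identity `p` holds in `B`. -/
def Holds (p : Idty) (B : Type*) [Semigroup B] : Prop :=
  ∀ x : ℕ → B, FreeSemigroup.lift x p.1 = FreeSemigroup.lift x p.2

/-- left semi-normal bands: `x y z = x y z x z` -/
def LSN (B : Type*) [Semigroup B] : Prop :=
  (∀ b : B, b * b = b) ∧ ∀ x y z : B, x * y * z = x * y * z * x * z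

/-- right semi-normal bands: `z y x = z x z y x` -/
def RSN (B : Type*) [Semigroup B] : Prop :=
  (∀ b : B, b * b = b) ∧ ∀ x y z : B, z * y * x = z * x * z * y * x

/-- The variety of bands defined by `V` is contained in the join of the varieties of left and of
right semi-normal bands: all identities which hold in all left semi-normal bands and in all right
semi-normal bands hold in all bands satisfying `V`. -/
def InJoin (V : List Idty) : Prop :=
  ∀ p : Idty, (∀ (B : Type) [Semigroup B], LSN B → Holds p B) →
    (∀ (B : Type) [Semigroup B], RSN B → Holds p B) →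
    ∀ (B : Type) [Semigroup B], (∀ b : B, b * b = b) → Sat V B → Holds p B

section

variable {B : Type*} [Semigroup B]

theorem absorb_mul (hb : ∀ b : B, b * b = b) {a w w' : B} (h1 : a * w * a = a)
    (h2 : a * w' * a = a) : a * (w * w') * a = a := by
  have hk := hb (w' * a * w)
  have e1 : a * (w' * a * w) * a = a := by
    calc a * (w' * a * w) * a = (a * w' * a) * (w * a) := by simp only [mul_assoc]
      _ = a := by rw [h2, ← mul_assoc, h1]
  calc a * (w * w') * a = (a * w' * a) * (w * w') * (a * w * a) := by rw [h1, h2]
    _ = a * ((w' * a * w) * (w' * a * w)) * a := by simp only [mul_assoc]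
    _ = a := by rw [hk, e1]

theorem LSN.del (h : LSN B) {u t y : B} (h1 : u * (t * y) * u = u) : u * t * y = u * y := by
  calc u * t * y = u * t * y * u * y := h.2 u t y
    _ = (u * (t * y) * u) * y := by simp only [mul_assoc]
    _ = u * y := by rw [h1]

theorem LSN.star (h : LSN B) : StarL B ∧ StarR B := by
  obtain ⟨hb, -⟩ := id h
  constructor
  · intro x y z w _ _ _ _
    obtain ⟨P, hP⟩ : ∃ P, P = x * y * z * x * y := ⟨_, rfl⟩
    have hPy : P * y = P := by rw [hP, mul_assoc (x * y * z * x) y y, hb]
    have h1 : P * z * P = P := by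
      have e : P = (x * y) * z * (x * y) := by rw [hP]; simp only [mul_assoc]
      calc P * z * P = (x * y) * (z * (x * y) * (z * (x * y)) * (z * (x * y))) := by
            rw [e]; simp only [mul_assoc]
        _ = P := by rw [hb, hb, e, mul_assoc (x * y) z (x * y)]
    have h2 : P * y * P = P := by rw [hPy, hb]
    have h3 : P * z * y = P := by rw [h.del (absorb_mul hb h1 h2), hPy]
    rw [← hP, h3]
  · intro x y z w _ _ _ _
    obtain ⟨P, hP⟩ : ∃ P, P = z * w * y := ⟨_, rfl⟩
    have hPy : P * y = P := by rw [hP, mul_assoc (z * w) y y, hb]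
    have h1 : P * z * P = P := by
      calc P * z * P = z * w * y * (z * z) * (w * y) := by rw [hP]; simp only [mul_assoc]
        _ = P * P := by rw [hb, hP]; simp only [mul_assoc]
        _ = P := hb P
    have h2 : P * y * P = P := by rw [hPy, hb]
    have h3 : P * z * y = P := by rw [h.del (absorb_mul hb h1 h2), hPy]
    rw [← hP, h3]

theorem RSN.dual (h : RSN B) : LSN Bᵐᵒᵖ := by
  refine ⟨fun b => unop_injective (h.1 (unop b)), fun x y z => ?_⟩
  apply unop_injective
  have := h.2 (unop x) (unop y) (unop z)
  simp only [unop_mul]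
  simp only [mul_assoc] at this ⊢
  exact this

theorem RSN.star (h : RSN B) : StarL B ∧ StarR B := by
  obtain ⟨h1, h2⟩ := h.dual.star
  have hb := h.dual.1
  constructor
  · intro x y z w _ _ _ _
    have := congrArg unop (h2 (op x) (op y) (op z) (op w) (hb _) (hb _) (hb _) (hb _))
    simp only [unop_mul, unop_op] at this
    simp only [mul_assoc] at this ⊢
    exact this
  · intro x y z w _ _ _ _
    have := congrArg unop (h1 (op x) (op y) (op z) (op w) (hb _) (hb _) (hb _) (hb _))
    simp only [unop_mul, unop_op] at this
    simp only [mul_assoc] at this ⊢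
    exact this

end

/-- a letter -/
def lt (i : ℕ) : FreeSemigroup ℕ := FreeSemigroup.of i

/-- `x y z x y w z = x y z x y z y w z` -/
def idL : Idty := (lt 0 * lt 1 * lt 2 * lt 0 * lt 1 * lt 3 * lt 2,
  lt 0 * lt 1 * lt 2 * lt 0 * lt 1 * lt 2 * lt 1 * lt 3 * lt 2)

/-- `z w y x z y x = z w y z y x z y x` -/
def idR : Idty := (lt 2 * lt 3 * lt 1 * lt 0 * lt 2 * lt 1 * lt 0,
  lt 2 * lt 3 * lt 1 * lt 2 * lt 1 * lt 0 * lt 2 * lt 1 * lt 0)

/-- four values -/
def val4 {B : Type*} (x y z w : B) : ℕ → B
  | 0 => x
  | 1 => y
  | 2 => z
  | _ => w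

section

variable {B : Type*} [Semigroup B]

theorem holds_idL (hb : ∀ b : B, b * b = b) : Holds idL B ↔ StarL B := by
  constructor
  · intro h x y z w _ _ _ _
    have := h (val4 x y z w)
    simp only [idL, lt, map_mul, FreeSemigroup.lift_of, val4] at this
    exact this
  · intro h x
    simp only [idL, lt, map_mul, FreeSemigroup.lift_of]
    exact h _ _ _ _ (hb _) (hb _) (hb _) (hb _)

theorem holds_idR (hb : ∀ b : B, b * b = b) : Holds idR B ↔ StarR B := by
  constructor
  · intro h x y z w _ _ _ _
    have := h (val4 x y z w)
    simp only [idR, lt, map_mul, FreeSemigroup.lift_of, val4] at this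
    exact this
  · intro h x
    simp only [idR, lt, map_mul, FreeSemigroup.lift_of]
    exact h _ _ _ _ (hb _) (hb _) (hb _) (hb _)

end

theorem below_of_join {V : List Idty} (h : InJoin V) : Below V := by
  intro B _ hb hV
  exact ⟨(holds_idL hb).1 (h idL (fun C _ hC => (holds_idL hC.1).2 hC.star.1)
      (fun C _ hC => (holds_idL hC.1).2 hC.star.1) B hb hV),
    (holds_idR hb).1 (h idR (fun C _ hC => (holds_idR hC.1).2 hC.star.2)
      (fun C _ hC => (holds_idR hC.1).2 hC.star.2) B hb hV)⟩

/-! ### regular bands -/

theorem reg_star {B : Type*} [Semigroup B] (hb : ∀ b : B, b * b = b)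
    (h : ∀ x y z : B, x * y * x * z * x = x * y * z * x) : StarL B ∧ StarR B := by
  constructor
  · intro x y z w _ _ _ _
    have e := h z (x * y) (y * w)
    calc x * y * z * x * y * w * z = x * y * (z * (x * (y * y) * w) * z) := by
          rw [hb]; simp only [mul_assoc]
      _ = x * y * (z * (x * y) * (y * w) * z) := by simp only [mul_assoc]
      _ = x * y * (z * (x * y) * z * (y * w) * z) := by rw [e]
      _ = x * y * z * x * y * z * y * w * z := by simp only [mul_assoc]
  · intro x y z w _ _ _ _
    have e := h z (w * y) (y * x)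
    calc z * w * y * x * z * y * x = (z * (w * (y * y) * x) * z) * y * x := by
          rw [hb]; simp only [mul_assoc]
      _ = (z * (w * y) * (y * x) * z) * y * x := by simp only [mul_assoc]
      _ = (z * (w * y) * z * (y * x) * z) * y * x := by rw [e]
      _ = z * w * y * z * y * x * z * y * x := by simp only [mul_assoc]

/-- the three identities -/
def idW : BandVar → Idty
  | .rightRegular => (lt 0 * lt 1 * lt 0, lt 1 * lt 0)
  | .leftRegular => (lt 0 * lt 1 * lt 0, lt 0 * lt 1)
  | .regular => (lt 0 * lt 1 * lt 0 * lt 2 * lt 0, lt 0 * lt 1 * lt 2 * lt 0)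

theorem sat_idW (W : BandVar) (T : Type) [Semigroup T] : Sat [idW W] T ↔ W.Idem T := by
  cases W with
  | rightRegular =>
    constructor
    · intro h e f he hf
      have := h _ List.mem_cons_self (val4 e f f f) (by
        intro i
        rcases i with _ | _ | _ | i <;> simp only [val4, he, hf])
      simp only [idW, lt, map_mul, FreeSemigroup.lift_of, val4] at this
      exact this
    · intro h p hp x hx
      rw [List.mem_singleton] at hp
      subst hp
      simp only [idW, lt, map_mul, FreeSemigroup.lift_of]
      exact h _ _ (hx 0) (hx 1)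
  | leftRegular =>
    constructor
    · intro h e f he hf
      have := h _ List.mem_cons_self (val4 e f f f) (by
        intro i
        rcases i with _ | _ | _ | i <;> simp only [val4, he, hf])
      simp only [idW, lt, map_mul, FreeSemigroup.lift_of, val4] at this
      exact this
    · intro h p hp x hx
      rw [List.mem_singleton] at hp
      subst hp
      simp only [idW, lt, map_mul, FreeSemigroup.lift_of]
      exact h _ _ (hx 0) (hx 1)
  | regular =>
    constructor
    · intro h e f g he hf hg
      have := h _ List.mem_cons_self (val4 e f g g) (by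
        intro i
        rcases i with _ | _ | _ | i <;> simp only [val4, he, hf, hg])
      simp only [idW, lt, map_mul, FreeSemigroup.lift_of, val4] at this
      exact this
    · intro h p hp x hx
      rw [List.mem_singleton] at hp
      subst hp
      simp only [idW, lt, map_mul, FreeSemigroup.lift_of]
      exact h _ _ _ (hx 0) (hx 1) (hx 2)

theorem below_idW (W : BandVar) : Below [idW W] := by
  intro B _ hb hV
  have h1 := (sat_idW W B).1 hV
  have hc : IdemClosed B := fun e f _ _ => hb _
  have h2 : IdemReg B := by
    cases W with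
    | rightRegular => exact RR_Reg hc h1
    | leftRegular => exact LR_Reg hc h1
    | regular => exact h1
  exact reg_star hb fun x y z => h2 x y z (hb _) (hb _) (hb _)

end Pool.Agent.H.MP_830e61_lc.VS
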