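import Pool.Agent.H.MP_830e61_lc.VS.Gam

/-!
The two key lemmas on the order `≤_L` of an orthodox semigroup.
-/

namespace Pool.Agent.H.MP_830e61_lc.VS

open Pool.Agent.H.MP_830e61_lc

universe u

/-- the idempotents satisfy `x y z x y w z = x y z x y z y w z` -/
def StarL (T : Type*) [Semigroup T] : Prop :=
  ∀ x y z w : T, x * x = x → y * y = y → z * z = z → w * w = w →
    x * y * z * x * y * w * z = x * y * z * x * y * z * y * w * z

/-- the idempotents satisfy the dual identity -/
def StarR (T : Type*) [Semigroup T] : Prop :=
  ∀ x y z w : T, x * x = x → y * y = y → z * z = z → w * w = w →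
    z * w * y * x * z * y * x = z * w * y * z * y * x * z * y * x

/-- a condition on idempotents, satisfied when the band of idempotents lies in a variety which
does not contain all right regular bands -/
def CutL (T : Type*) [Semigroup T] : Prop :=
  ∀ a h x : T, a * a = a → h * h = h → x * x = x → a * x = a → a * h * a = a → a * h * x = a

theorem comm_idem {J : Type*} [Semigroup J] (hreg : Regular J)
    (hcm : ∀ e f : J, e * e = e → f * f = f → e * f = f * e) {t A e : J} (hA : A * A = A)
    (he : e * e = e) (h1 : A * t = t) (h2 : t * e = A) (h3 : A * e = A) : t * t = t := by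
  obtain ⟨s, hs⟩ := exists_inv hreg t
  have hc := comm_closed hcm
  have heA : e * A = A := by rw [← hcm A e hA he, h3]
  have htA : t * A = A := by
    calc t * A = t * (e * A) := by rw [heA]
      _ = (t * e) * A := by rw [mul_assoc]
      _ = A := by rw [h2, hA]
  have hsA : s * A = s := by
    calc s * A = (s * t * s) * A := by rw [hs.2]
      _ = s * ((t * s) * A) := by simp only [mul_assoc]
      _ = s * (A * (t * s)) := by rw [hcm _ _ hs.left hA]
      _ = s * (A * t) * s := by simp only [mul_assoc]
      _ = s := by rw [h1, hs.2]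
  have hs2 : (s * t) * A = s := by rw [mul_assoc, htA, hsA]
  have hss : s * s = s := by
    have := hc _ _ hs.right hA
    rw [hs2] at this
    exact this
  exact inv_idem_idem hc hss hs

section

variable {T : Type u} [Semigroup T]

theorem keyK (hreg : Regular T) (hc : IdemClosed T) (hs : StarL T) {a a' x z f x' W : T}
    (ha : IsInv a a') (hx : IsInv x x') (hz : IsInv z x') (hf : f * f = f) (fx : f * x = x)
    (fz : f * z = z) (hax : a * x' * x = a) (haz : a * x' * z = a) (haW : a = W * x) :
    a = a * a' * W * z := by
  obtain ⟨J, iJ, π, hπ, hJr, hcm, hker, hid⟩ := gam_quot hreg hc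
  set t := x * a' * W with ht
  set e := x * x' with he
  set g := z * x' with hg
  set A := x * a' * a * x' with hA
  have hee : e * e = e := hx.left
  have hgg : g * g = g := hz.left
  have te : t * e = A := by
    rw [ht, he, hA]
    calc x * a' * W * (x * x') = x * a' * (W * x) * x' := by simp only [mul_assoc]
      _ = x * a' * a * x' := by rw [← haW]
  have At : A * t = t := by
    rw [ht, hA]
    calc x * a' * a * x' * (x * a' * W) = x * a' * (a * x' * x) * a' * W := by
          simp only [mul_assoc]
      _ = x * (a' * a * a') * W := by rw [hax]; simp only [mul_assoc]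
      _ = x * a' * W := by rw [ha.2]
  have AA : A * A = A := by
    rw [hA]
    calc x * a' * a * x' * (x * a' * a * x') = x * a' * (a * x' * x) * a' * a * x' := by
          simp only [mul_assoc]
      _ = x * (a' * a * a') * a * x' := by rw [hax]; simp only [mul_assoc]
      _ = x * a' * a * x' := by rw [ha.2]
  have Ae : A * e = A := by
    rw [hA, he]
    calc x * a' * a * x' * (x * x') = x * a' * (a * x' * x) * x' := by simp only [mul_assoc]
      _ = x * a' * a * x' := by rw [hax]
  have Ag : A * g = A := by
    rw [hA, hg]
    calc x * a' * a * x' * (z * x') = x * a' * (a * x' * z) * x' := by simp only [mul_assoc]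
      _ = x * a' * a * x' := by rw [haz]
  have tt : t * t = t := by
    apply hid
    refine comm_idem hJr hcm (A := π A) (e := π e) ?_ ?_ ?_ ?_ ?_
    · rw [← map_mul, AA]
    · rw [← map_mul, hee]
    · rw [← map_mul, At]
    · rw [← map_mul, te]
    · rw [← map_mul, Ae]
  have fe : f * e = e := by rw [he, ← mul_assoc, fx]
  have fg : f * g = g := by rw [hg, ← mul_assoc, fz]
  have ge : g * e = g := by
    rw [hg, he]
    calc z * x' * (x * x') = z * (x' * x * x') := by simp only [mul_assoc]
      _ = z * x' := by rw [hx.2]
  have h1 := hs t f e g tt hf hee hgg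
  have hL : t * f * e * t * f * g * e = t * g := by
    calc t * f * e * t * f * g * e = (t * (f * e)) * t * ((f * g) * e) := by
          simp only [mul_assoc]
      _ = t * g := by rw [fe, fg, te, At, ge]
  have hR : t * f * e * t * f * e * f * g * e = A := by
    calc t * f * e * t * f * e * f * g * e = (t * (f * e)) * t * (f * e) * ((f * g) * e) := by
          simp only [mul_assoc]
      _ = A * t * e * g := by rw [fe, fg, te, ge]
      _ = A := by rw [At, te, Ag]
  have tg : t * g = A := by rw [← hL, h1, hR]
  have h2 : a * x' * (t * g) * z = a * x' * A * z := by rw [tg]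
  have h3 : a * x' * (t * g) * z = a * a' * W * z := by
    rw [ht, hg]
    calc a * x' * (x * a' * W * (z * x')) * z = (a * x' * x) * a' * W * (z * x' * z) := by
          simp only [mul_assoc]
      _ = a * a' * W * z := by rw [hax, hz.1]
  have h4 : a * x' * A * z = a := by
    rw [hA]
    calc a * x' * (x * a' * a * x') * z = (a * x' * x) * a' * (a * x' * z) := by
          simp only [mul_assoc]
      _ = a := by rw [hax, haz, ha.1]
  rw [← h3, h2, h4]

/-- comparable `γ`-related idempotents are equal -/
theorem idem_eq (hc : IdemClosed T) {i e x : T} (he : e * e = e) (h1 : IsInv i x)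
    (h2 : IsInv e x) (h3 : e * i * e = i) : i = e := by
  have := inv_of_common hc h2 h1 (isInv_idem he)
  rw [← h3, this.2]

theorem keyP (hreg : Regular T) (hc : IdemClosed T) (hp : CutL T) {a a' h z z' W : T}
    (ha : IsInv a a') (hz : IsInv z z') (haz : a * z' * z = a)
    (hW : W = h ∨ ∃ k, W = k * h) (hγ : ∃ x, IsInv (W * z * (a' * a)) x ∧ IsInv a x) :
    ∃ b, a = b * (h * z) := by
  obtain ⟨J, iJ, π, hπ, hJr, hcm, hker, hid⟩ := gam_quot hreg hc
  obtain ⟨h', hh⟩ := exists_inv hreg h
  have hγ' := (hker _ _).2 hγ
  have hhz := inv_mul hc hh hz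
  set η := z' * h' * (h * z) with hη
  set ε := a' * a with hε
  have ηη : η * η = η := hhz.right
  have εε : ε * ε = ε := ha.right
  have hWη : W * z * η = W * z := by
    have h1 : h * z * η = h * z := by rw [hη, ← mul_assoc, hhz.1]
    rcases hW with rfl | ⟨k, rfl⟩
    · exact h1
    · calc k * h * z * η = k * (h * z * η) := by simp only [mul_assoc]
        _ = k * h * z := by rw [h1, mul_assoc]
  have πε : π ε * π ε = π ε := by rw [← map_mul, εε]
  have πη : π η * π η = π η := by rw [← map_mul, ηη]
  have h1 : π ε = π ε * π η := by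
    calc π ε = π a' * π a := by rw [hε, map_mul]
      _ = π a' * π (W * z * ε) := by rw [hγ']
      _ = π a' * (π (W * z * η) * π ε) := by rw [hWη, map_mul (f := π) (W * z) ε]
      _ = π a' * (π (W * z) * (π η * π ε)) := by rw [map_mul (f := π) (W * z) η, mul_assoc]
      _ = π a' * (π (W * z) * (π ε * π η)) := by rw [hcm _ _ πη πε]
      _ = π a' * (π (W * z * ε) * π η) := by rw [map_mul (f := π) (W * z) ε, mul_assoc (π (W * z))]
      _ = π a' * π a * π η := by rw [hγ', mul_assoc]
      _ = π ε * π η := by rw [hε, map_mul (f := π) a' a]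
  have h2 : π (ε * η * ε) = π ε := by
    rw [map_mul, map_mul, ← h1, πε]
  obtain ⟨y, hy1, hy2⟩ := (hker _ _).1 h2
  have h3 : ε * η * ε = ε := by
    refine idem_eq hc εε hy1 hy2 ?_
    calc ε * (ε * η * ε) * ε = (ε * ε) * η * (ε * ε) := by simp only [mul_assoc]
      _ = ε * η * ε := by rw [εε]
  have h4 : ε * (z' * z) = ε := by
    calc a' * a * (z' * z) = a' * (a * z' * z) := by simp only [mul_assoc]
      _ = a' * a := by rw [haz]
  have h5 := hp ε η (z' * z) εε ηη hz.right h4 h3
  have h6 : η * (z' * z) = η := by
    rw [hη]
    calc z' * h' * (h * z) * (z' * z) = z' * h' * (h * (z * z' * z)) := by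
          simp only [mul_assoc]
      _ = z' * h' * (h * z) := by rw [hz.1]
  have h7 : ε * η = ε := by rw [mul_assoc, h6] at h5; exact h5
  have h8 : a * ε = a := by rw [hε, ← mul_assoc, ha.1]
  refine ⟨a * (z' * h'), ?_⟩
  calc a = a * ε := h8.symm
    _ = a * (ε * η) := by rw [h7]
    _ = (a * ε) * η := (mul_assoc a ε η).symm
    _ = a * η := by rw [h8]
    _ = a * (z' * h') * (h * z) := by rw [hη]; simp only [mul_assoc]

end

end Pool.Agent.H.MP_830e61_lc.VS
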