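import Pool.Agent.H.MP_830e61_lc.VS.Key

/-!
Varieties of bands given by finitely many identities.
-/

namespace Pool.Agent.H.MP_830e61_lc.VS

open Pool.Agent.H.MP_830e61_lc

/-- an identity: a pair of nonempty words over the variables `0, 1, 2, ...` -/
abbrev Idty := FreeSemigroup ℕ × FreeSemigroup ℕ

/-- The idempotents of `T` satisfy the identities in the list `V`. -/
def Sat (V : List Idty) (T : Type*) [Semigroup T] : Prop :=
  ∀ p ∈ V, ∀ x : ℕ → T, (∀ i, x i * x i = x i) →
    FreeSemigroup.lift x p.1 = FreeSemigroup.lift x p.2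

/-- The variety of bands defined by `V` is contained in the join of the varieties of left and
right semi-normal bands, which is defined by `xyzxywz = xyzxyzywz` and the dual identity. -/
def Below (V : List Idty) : Prop :=
  ∀ (B : Type) [Semigroup B], (∀ b : B, b * b = b) → Sat V B → StarL B ∧ StarR B

/-- The class `R_V` of finite nonempty regular semigroups whose idempotents form a subsemigroup
satisfying the identities `V`. -/
def RVs (V : List Idty) : SgClass := fun T _ =>
  Finite T ∧ Nonempty T ∧ Regular T ∧ IdemClosed T ∧ Sat V T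

section

variable {T U : Type*} [Semigroup T] [Semigroup U]

theorem lift_map (f : T →ₙ* U) (x : ℕ → T) (w : FreeSemigroup ℕ) :
    FreeSemigroup.lift (fun i => f (x i)) w = f (FreeSemigroup.lift x w) := by
  have h : FreeSemigroup.lift (fun i => f (x i)) = f.comp (FreeSemigroup.lift x) := by
    apply FreeSemigroup.hom_ext
    funext i
    simp
  rw [h]; rfl

theorem sat_prod {V : List Idty} (h1 : Sat V T) (h2 : Sat V U) : Sat V (T × U) := by
  intro p hp x hx
  have e1 := h1 p hp (fun i => (x i).1) (fun i => congrArg Prod.fst (hx i))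
  have e2 := h2 p hp (fun i => (x i).2) (fun i => congrArg Prod.snd (hx i))
  have k1 := lift_map (MulHom.fst T U) x
  have k2 := lift_map (MulHom.snd T U) x
  apply Prod.ext
  · have a1 := k1 p.1
    have a2 := k1 p.2
    show (MulHom.fst T U) _ = (MulHom.fst T U) _
    rw [← a1, ← a2]; exact e1
  · have a1 := k2 p.1
    have a2 := k2 p.2
    show (MulHom.snd T U) _ = (MulHom.snd T U) _
    rw [← a1, ← a2]; exact e2

theorem sat_inj {V : List Idty} (f : T →ₙ* U) (hf : Function.Injective f) (h : Sat V U) :
    Sat V T := by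
  intro p hp x hx
  apply hf
  rw [← lift_map, ← lift_map]
  exact h p hp _ fun i => by rw [← map_mul, hx]

theorem sat_surj {V : List Idty} (f : T →ₙ* U) (hf : Function.Surjective f) (hr : Regular T)
    (h : Sat V T) : Sat V U := by
  intro p hp x hx
  choose e he hex using fun i => lift_idem f hf hr (hx i)
  have h1 := h p hp e he
  have h2 : x = fun i => f (e i) := funext fun i => (hex i).symm
  rw [h2, lift_map, lift_map, h1]

theorem sat_pi {V : List Idty} {k : Type*} {W : k → Type*} [∀ j, Semigroup (W j)]
    (h : ∀ j, Sat V (W j)) : Sat V (∀ j, W j) := by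
  intro p hp x hx
  funext j
  let f : (∀ j, W j) →ₙ* W j := ⟨fun w => w j, fun _ _ => rfl⟩
  have e1 := h j p hp (fun i => x i j) (fun i => congrFun (hx i) j)
  have k1 := lift_map f x p.1
  have k2 := lift_map f x p.2
  show f (FreeSemigroup.lift x p.1) = f (FreeSemigroup.lift x p.2)
  rw [← k1, ← k2]; exact e1

end

/-! ### the band of idempotents -/

/-- the idempotents of a semigroup -/
def Idem (T : Type*) [Semigroup T] : Type _ := {e : T // e * e = e}

/-- the band of idempotents -/
@[reducible] def idemSg {T : Type*} [Semigroup T] (hc : IdemClosed T) : Semigroup (Idem T) where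
  mul e f := ⟨e.1 * f.1, hc _ _ e.2 f.2⟩
  mul_assoc _ _ _ := Subtype.ext (mul_assoc _ _ _)

theorem star_of {V : List Idty} (hV : Below V) {T : Type} [Semigroup T] (hc : IdemClosed T)
    (h : Sat V T) : StarL T ∧ StarR T := by
  letI := idemSg hc
  let f : Idem T →ₙ* T := ⟨Subtype.val, fun _ _ => rfl⟩
  have h1 := hV (Idem T) (fun b => Subtype.ext b.2) (sat_inj f Subtype.val_injective h)
  constructor
  · intro x y z w hx hy hz hw
    have := h1.1 ⟨x, hx⟩ ⟨y, hy⟩ ⟨z, hz⟩ ⟨w, hw⟩ (Subtype.ext hx) (Subtype.ext hy)
      (Subtype.ext hz) (Subtype.ext hw)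
    exact congrArg Subtype.val this
  · intro x y z w hx hy hz hw
    have := h1.2 ⟨x, hx⟩ ⟨y, hy⟩ ⟨z, hz⟩ ⟨w, hw⟩ (Subtype.ext hx) (Subtype.ext hy)
      (Subtype.ext hz) (Subtype.ext hw)
    exact congrArg Subtype.val this

end Pool.Agent.H.MP_830e61_lc.VS
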