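import Pool.Agent.H.MP_830e61_lc.VS.Key

/-!
Syntactic behaviour: a finite classification of left factors gives a finite classification of
elements.
-/

namespace Pool.Agent.H.MP_830e61_lc.VS

open Pool.Agent.H.MP_830e61_lc

universe u

/-- If membership of `a s` in `N (h x)` depends only on the class `cl x`, then the behaviour of
`t` in all contexts depends only on a map `D → D`. -/
theorem exists_theta {N D S : Type*} [Monoid N] (a : S → N) (cl : N → D)
    (F : ∀ s x z h, cl x = cl z → (∃ k, a s = k * (h * x)) → ∃ k, a s = k * (h * z)) :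
    ∃ Θ : N → (D → D), ∀ t t', Θ t = Θ t' → ∀ s r x,
      (∃ k, a s = k * (r * t * x)) → ∃ k, a s = k * (r * t' * x) := by
  classical
  let rep : D → N := fun d => if h : ∃ x, cl x = d then h.choose else 1
  have hrep : ∀ x, cl (rep (cl x)) = cl x := by
    intro x
    have h : ∃ y, cl y = cl x := ⟨x, rfl⟩
    show cl (if h : ∃ y, cl y = cl x then h.choose else 1) = cl x
    rw [dif_pos h]
    exact h.choose_spec
  refine ⟨fun t d => cl (t * rep d), ?_⟩
  intro t t' h s r x h1
  have h2 : ∃ k, a s = k * ((r * t) * x) := h1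
  have h3 := F s x (rep (cl x)) (r * t) (hrep x).symm h2
  have h4 : ∃ k, a s = k * (r * (t * rep (cl x))) := by
    obtain ⟨k, hk⟩ := h3
    exact ⟨k, by rw [hk]; simp only [mul_assoc]⟩
  have h5 : cl (t * rep (cl x)) = cl (t' * rep (cl x)) := congrFun h (cl x)
  have h6 := F s _ _ r h5 h4
  have h7 : ∃ k, a s = k * ((r * t') * rep (cl x)) := by
    obtain ⟨k, hk⟩ := h6
    exact ⟨k, by rw [hk]; simp only [mul_assoc]⟩
  exact F s _ _ (r * t') (hrep x) h7

open MulOpposite in
/-- the dual -/
theorem exists_theta' {N D S : Type*} [Monoid N] (a : S → N) (cl : N → D)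
    (F : ∀ s x z h, cl x = cl z → (∃ k, a s = (x * h) * k) → ∃ k, a s = (z * h) * k) :
    ∃ Θ : N → (D → D), ∀ t t', Θ t = Θ t' → ∀ s r x,
      (∃ k, a s = (r * t * x) * k) → ∃ k, a s = (r * t' * x) * k := by
  obtain ⟨Θ, hΘ⟩ := exists_theta (N := Nᵐᵒᵖ) (fun s => op (a s)) (fun x => cl (unop x)) (by
    rintro s x z h h1 ⟨k, hk⟩
    obtain ⟨k', hk'⟩ := F s (unop x) (unop z) (unop h) h1 ⟨unop k, by
      have := congrArg unop hk
      simpa using this⟩
    exact ⟨op k', by apply unop_injective; simpa using hk'⟩)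
  refine ⟨fun t => Θ (op t), ?_⟩
  rintro t t' h s r x ⟨k, hk⟩
  obtain ⟨k', hk'⟩ := hΘ (op t) (op t') h s (op x) (op r) ⟨op k, by
    apply unop_injective
    simpa [mul_assoc] using hk⟩
  have := congrArg unop hk'
  exact ⟨unop k', by simpa [mul_assoc] using this⟩

section

variable {M C S : Type*} [Semigroup M] [Semigroup C] (β : M →ₙ* C) (a : S → M)

/-- the relation -/
def Kap (t t' : M) : Prop :=
  β t = β t' ∧ ∀ (s : S) (r x : WithOne M),
    ((∃ k : WithOne M, (a s : WithOne M) = k * (r * t * x)) ↔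
      ∃ k : WithOne M, (a s : WithOne M) = k * (r * t' * x)) ∧
    ((∃ k : WithOne M, (a s : WithOne M) = (r * t * x) * k) ↔
      ∃ k : WithOne M, (a s : WithOne M) = (r * t' * x) * k)

/-- the congruence -/
def conK : Con M where
  r := Kap β a
  iseqv :=
    { refl := fun t => ⟨rfl, fun s r x => ⟨Iff.rfl, Iff.rfl⟩⟩
      symm := fun h => ⟨h.1.symm, fun s r x => ⟨(h.2 s r x).1.symm, (h.2 s r x).2.symm⟩⟩
      trans := fun h h' => ⟨h.1.trans h'.1, fun s r x =>
        ⟨(h.2 s r x).1.trans (h'.2 s r x).1, (h.2 s r x).2.trans (h'.2 s r x).2⟩⟩ }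
  mul' := by
    intro t t' w w' h1 h2
    refine ⟨by rw [map_mul, map_mul, h1.1, h2.1], fun s r x => ?_⟩
    have e1 : r * ((t * w : M) : WithOne M) * x = r * (t : WithOne M) * ((w : WithOne M) * x) := by
      rw [WithOne.coe_mul]; simp only [mul_assoc]
    have e2 : r * (t' : WithOne M) * ((w : WithOne M) * x)
        = (r * (t' : WithOne M)) * (w : WithOne M) * x := by simp only [mul_assoc]
    have e3 : (r * (t' : WithOne M)) * (w' : WithOne M) * x
        = r * ((t' * w' : M) : WithOne M) * x := by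
      rw [WithOne.coe_mul]; simp only [mul_assoc]
    have k1 := h1.2 s r ((w : WithOne M) * x)
    have k2 := h2.2 s (r * (t' : WithOne M)) x
    rw [← e1, e2] at k1
    rw [e3] at k2
    exact ⟨k1.1.trans k2.1, k1.2.trans k2.2⟩

/-- The quotient is finite, with a bound. -/
theorem conK_finite {D : Type*} [Finite D] [Finite C] (cl cl' : WithOne M → D)
    (F : ∀ (s : S) (x z h : WithOne M), cl x = cl z → (∃ k, (a s : WithOne M) = k * (h * x)) →
      ∃ k, (a s : WithOne M) = k * (h * z))
    (F' : ∀ (s : S) (x z h : WithOne M), cl' x = cl' z →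
      (∃ k, (a s : WithOne M) = (x * h) * k) → ∃ k, (a s : WithOne M) = (z * h) * k) :
    Finite (conK β a).Quotient ∧ Nat.card (conK β a).Quotient ≤
      Nat.card C * (Nat.card D ^ Nat.card D) ^ 2 := by
  classical
  obtain ⟨Θ, hΘ⟩ := exists_theta (fun s => (a s : WithOne M)) cl F
  obtain ⟨Θ', hΘ'⟩ := exists_theta' (fun s => (a s : WithOne M)) cl' F'
  let out : (conK β a).Quotient → M := Quotient.out
  have hout : ∀ q, ((out q : M) : (conK β a).Quotient) = q := fun q => Quotient.out_eq q
  let G : (conK β a).Quotient → C × (D → D) × (D → D) := fun q =>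
    (β (out q), Θ (out q : M), Θ' (out q : M))
  have hG : Function.Injective G := by
    intro p q h
    have h1 : β (out p) = β (out q) := congrArg Prod.fst h
    have h2 : Θ (out p : M) = Θ (out q : M) := congrArg (fun z => z.2.1) h
    have h3 : Θ' (out p : M) = Θ' (out q : M) := congrArg (fun z => z.2.2) h
    rw [← hout p, ← hout q]
    refine (Con.eq (conK β a)).2 ?_
    exact ⟨h1, fun s r x => ⟨⟨hΘ _ _ h2 s r x, hΘ _ _ h2.symm s r x⟩,
      ⟨hΘ' _ _ h3 s r x, hΘ' _ _ h3.symm s r x⟩⟩⟩
  refine ⟨Finite.of_injective G hG, ?_⟩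
  refine (Nat.card_le_card_of_injective G hG).trans ?_
  rw [Nat.card_prod, Nat.card_prod, Nat.card_fun, sq]

end

end Pool.Agent.H.MP_830e61_lc.VS
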